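import Mathlib

/-!
# Choice of the parameters
-/

set_option autoImplicit false

namespace Pool.Agent.V7H84.SL

theorem fac_bound (e : ℕ) : 2 ^ ((e - 2) * 2 ^ e) ≤ (2 ^ e).factorial := by
  induction e with
  | zero => simp
  | succ e ih =>
    rcases Nat.lt_or_ge e 2 with h | h
    · have h1 : e + 1 - 2 = 0 := by omega
      rw [h1, zero_mul, pow_zero]
      exact Nat.succ_le_of_lt (Nat.factorial_pos _)
    · have h1 := Nat.factorial_mul_pow_le_factorial (m := 2 ^ e) (n := 2 ^ e)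
      have h2 : 2 ^ e + 2 ^ e = 2 ^ (e + 1) := by ring
      rw [h2] at h1
      refine le_trans ?_ h1
      have h3 : (2 ^ e) ^ (2 ^ e) ≤ (2 ^ e + 1) ^ (2 ^ e) := Nat.pow_le_pow_left (Nat.le_succ _) _
      refine le_trans ?_ (Nat.mul_le_mul ih h3)
      rw [← pow_mul, ← pow_add]
      apply Nat.pow_le_pow_right (by norm_num)
      obtain ⟨k, rfl⟩ := Nat.exists_eq_add_of_le h
      have h4 : 2 + k + 1 - 2 = k + 1 := by omega
      have h5 : 2 + k - 2 = k := by omega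
      rw [h4, h5]
      apply le_of_eq
      ring

theorem count {n s : ℕ} (h : ∀ r g : ℕ, 1 ≤ r → 12 * r * (2 * g + r * r) + 6 * r ≤ n →
    r.factorial ^ (g * g * r) ≤ 2 ^ (3 * s)) :
    n ^ 2 * Nat.log 2 n ≤ 6561 * s + 16 * n ^ 2 := by
  obtain ⟨E, hE⟩ : ∃ E, E = Nat.log 2 n := ⟨_, rfl⟩
  rw [← hE]
  rcases Nat.le_total E 16 with hE16 | hE16
  · nlinarith [Nat.zero_le s]
  obtain ⟨e, he⟩ : ∃ e, e = (E - 8) / 3 := ⟨_, rfl⟩
  have he1 : 3 * e + 8 ≤ E := by omega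
  have he2 : E ≤ 3 * e + 10 := by omega
  have he3 : 2 ≤ e := by omega
  have hn0 : n ≠ 0 := by
    rintro rfl
    rw [Nat.log_zero_right] at hE
    omega
  have hn1 : 2 ^ E ≤ n := by
    rw [hE]
    exact Nat.pow_log_le_self 2 hn0
  obtain ⟨r, hr⟩ : ∃ r, r = 2 ^ e := ⟨_, rfl⟩
  have hr4 : 4 ≤ r := by
    rw [hr]
    calc 4 = 2 ^ 2 := by norm_num
      _ ≤ 2 ^ e := Nat.pow_le_pow_right (by norm_num) he3
  have hr3 : 256 * (r * r * r) ≤ n := by
    refine le_trans ?_ hn1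
    have h1 : 256 * (r * r * r) = 2 ^ (3 * e + 8) := by
      rw [hr]
      ring
    rw [h1]
    exact Nat.pow_le_pow_right (by norm_num) he1
  obtain ⟨g, hg⟩ : ∃ g, g = n / (26 * r) := ⟨_, rfl⟩
  have hg1 : 26 * r * g ≤ n := by
    rw [hg]
    exact Nat.mul_div_le _ _
  have hg2 : n < 26 * r * (g + 1) := by
    rw [hg]
    exact Nat.lt_mul_div_succ _ (by omega)
  have hrr : r ≤ r * r * r := by
    calc r = r * 1 := (mul_one r).symm
      _ ≤ r * (r * r) := Nat.mul_le_mul_left _ (by nlinarith)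
      _ = r * r * r := by ring
  have hrr2 : 16 * r ≤ r * r * r := by
    have : 16 ≤ r * r := by nlinarith
    nlinarith
  have hcond : 12 * r * (2 * g + r * r) + 6 * r ≤ n := by
    have e1 : 12 * r * (2 * g + r * r) + 6 * r = 24 * (r * g) + 12 * (r * r * r) + 6 * r := by ring
    have e2 : 26 * (r * g) ≤ n := by
      have : 26 * (r * g) = 26 * r * g := by ring
      omega
    omega
  have h27 : n ≤ 27 * (r * g) := by
    have e2 : n < 26 * (r * g) + 26 * r := by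
      have : 26 * r * (g + 1) = 26 * (r * g) + 26 * r := by ring
      omega
    omega
  have hS := h r g (by omega) hcond
  have hf := fac_bound e
  rw [← hr] at hf
  have h3 : (e - 2) * r * (g * g * r) ≤ 3 * s := by
    have h4 : 2 ^ ((e - 2) * r * (g * g * r)) ≤ 2 ^ (3 * s) := by
      refine le_trans ?_ hS
      rw [pow_mul]
      exact Nat.pow_le_pow_left hf _
    exact (Nat.pow_le_pow_iff_right (by norm_num)).1 h4
  have h5 : E ≤ 3 * (e - 2) + 16 := by omega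
  have h6 : n ^ 2 ≤ 729 * (r * g) ^ 2 := by
    calc n ^ 2 ≤ (27 * (r * g)) ^ 2 := Nat.pow_le_pow_left h27 2
      _ = 729 * (r * g) ^ 2 := by ring
  calc n ^ 2 * E ≤ n ^ 2 * (3 * (e - 2) + 16) := Nat.mul_le_mul_left _ h5
    _ = 3 * (e - 2) * n ^ 2 + 16 * n ^ 2 := by ring
    _ ≤ 3 * (e - 2) * (729 * (r * g) ^ 2) + 16 * n ^ 2 :=
        Nat.add_le_add_right (Nat.mul_le_mul_left _ h6) _
    _ = 2187 * ((e - 2) * r * (g * g * r)) + 16 * n ^ 2 := by ring
    _ ≤ 2187 * (3 * s) + 16 * n ^ 2 := Nat.add_le_add_right (Nat.mul_le_mul_left _ h3) _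
    _ = 6561 * s + 16 * n ^ 2 := by ring

end Pool.Agent.V7H84.SL
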