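import Pool.Agent.V7H84.SL.Dual

/-!
# Isolated solutions of systems of equations

Products of interpolation polynomials and of polynomials in local parameters are linearly
independent.
-/

set_option autoImplicit false

universe u

namespace Pool.Agent.V7H84.SL

open MvPolynomial Finset

variable {K : Type u} [Field K] {σ : Type} [Fintype σ]

omit [Fintype σ] in
theorem exists_interp (S : Finset (σ → K)) (p : σ → K) :
    ∃ e : MvPolynomial σ K, eval p e ≠ 0 ∧ ∀ p' ∈ S, p' ≠ p → eval p' e = 0 := by
  classical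
  have h : ∀ p' : σ → K, ∃ i : σ → Prop, p' ≠ p → ∃ j, p j ≠ p' j := fun p' =>
    ⟨fun _ => True, fun h => by
      by_contra hcon
      push Not at hcon
      exact h (funext fun j => (hcon j).symm)⟩
  have h' : ∀ p' : σ → K, ∃ g : MvPolynomial σ K, p' ≠ p → eval p g ≠ 0 ∧ eval p' g = 0 := by
    intro p'
    by_cases hp : p' = p
    · exact ⟨0, fun h => absurd hp h⟩
    · obtain ⟨-, hj⟩ := h p'
      obtain ⟨j, hj⟩ := hj hp
      refine ⟨X j - C (p' j), fun _ => ⟨?_, ?_⟩⟩
      · rw [map_sub, eval_X, eval_C]; exact sub_ne_zero.2 hj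
      · rw [map_sub, eval_X, eval_C, sub_self]
  choose g hg using h'
  refine ⟨∏ p' ∈ S.erase p, g p', ?_, ?_⟩
  · rw [map_prod]
    exact prod_ne_zero_iff.2 fun p' hp' => (hg p' (mem_erase.1 hp').1).1
  · intro p' hp' hne
    rw [map_prod]
    exact prod_eq_zero (mem_erase.2 ⟨hne, hp'⟩) (hg p' hne).2

/-- Leading forms along a line. -/
theorem lead (p v u : σ → K) (w : σ → MvPolynomial σ K) (hw : ∀ i, eval p (w i) = 0)
    (hu : ∀ i, dl p (w i) v = u i) (c : MvPolynomial σ K) (d : ℕ)
    (hc : ∀ m : σ →₀ ℕ, m.degree < d → coeff m c = 0) :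
    ∃ B : Polynomial K, un p v (aeval w c) = Polynomial.X ^ d * B ∧
      B.coeff 0 = eval u (homogeneousComponent d c) := by
  classical
  have h1 : ∀ i, ∃ h : Polynomial K, un p v (w i) = Polynomial.X * h ∧ h.coeff 0 = u i := by
    intro i
    refine ⟨(un p v (w i)).divX, ?_, ?_⟩
    · have := Polynomial.divX_mul_X_add (un p v (w i))
      rw [un_coeff_zero, hw i, map_zero, add_zero] at this
      rw [mul_comm]; exact this.symm
    · rw [Polynomial.coeff_divX, ← hu i, ← un_coeff_one]
  choose h hh hh0 using h1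
  have hexp : un p v (aeval w c) = ∑ m ∈ c.support, Polynomial.C (coeff m c) *
      (Polynomial.X ^ m.degree * ∏ i, h i ^ m i) := by
    rw [aeval_def, eval₂_eq', map_sum]
    refine sum_congr rfl fun m _ => ?_
    rw [map_mul, map_prod]
    congr 1
    · exact (un p v).commutes _
    · rw [Finsupp.degree_eq_sum, ← prod_pow_eq_pow_sum, ← prod_mul_distrib]
      refine prod_congr rfl fun i _ => ?_
      rw [map_pow, hh i, mul_pow]
  refine ⟨∑ m ∈ c.support, Polynomial.C (coeff m c) *
      (Polynomial.X ^ (m.degree - d) * ∏ i, h i ^ m i), ?_, ?_⟩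
  · rw [hexp, mul_sum]
    refine sum_congr rfl fun m hm => ?_
    have h2 : d ≤ m.degree := by
      by_contra hcon
      exact (mem_support_iff.1 hm) (hc m (not_le.1 hcon))
    have h3 : (Polynomial.X : Polynomial K) ^ m.degree =
        Polynomial.X ^ d * Polynomial.X ^ (m.degree - d) := by
      rw [← pow_add, Nat.add_sub_cancel' h2]
    rw [h3]; ring
  · rw [Polynomial.finsetSum_coeff, homogeneousComponent_apply, map_sum, sum_filter]
    refine sum_congr rfl fun m hm => ?_
    have h2 : d ≤ m.degree := by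
      by_contra hcon
      exact (mem_support_iff.1 hm) (hc m (not_le.1 hcon))
    rw [Polynomial.coeff_C_mul, Polynomial.mul_coeff_zero]
    by_cases h3 : m.degree = d
    · rw [if_pos h3, h3, Nat.sub_self, pow_zero, Polynomial.coeff_one_zero, one_mul, eval_monomial,
        Polynomial.coeff_zero_prod]
      congr 1
      rw [Finsupp.prod_fintype _ _ (fun i => pow_zero _)]
      refine prod_congr rfl fun i _ => ?_
      rw [← hh0 i, Polynomial.coeff_zero_eq_eval_zero, Polynomial.eval_pow,
        Polynomial.coeff_zero_eq_eval_zero]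
    · rw [if_neg h3, Polynomial.coeff_X_pow, if_neg (by omega), zero_mul, mul_zero]

/-- Interpolation polynomials times polynomials in local parameters are independent. -/
theorem indep [Infinite K] {S : Finset (σ → K)} (e : (σ → K) → MvPolynomial σ K)
    (he0 : ∀ p ∈ S, eval p (e p) ≠ 0) (he : ∀ p ∈ S, ∀ p' ∈ S, p' ≠ p → eval p' (e p) = 0)
    (w : (σ → K) → σ → MvPolynomial σ K) (hw0 : ∀ p ∈ S, ∀ p' ∈ S, ∀ i, eval p' (w p i) = 0)
    (hsurj : ∀ p ∈ S, ∀ u : σ → K, ∃ v, ∀ i, dl p (w p i) v = u i)
    (c : (σ → K) → MvPolynomial σ K) (h : ∑ p ∈ S, e p * aeval (w p) (c p) = 0) :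
    ∀ p ∈ S, c p = 0 := by
  classical
  have key : ∀ d : ℕ, ∀ p ∈ S, ∀ m : σ →₀ ℕ, m.degree = d → coeff m (c p) = 0 := by
    intro d
    induction d using Nat.strong_induction_on with
    | _ d ih =>
      intro p0 hp0
      have hz : homogeneousComponent d (c p0) = 0 := by
        refine MvPolynomial.funext fun u => ?_
        rw [map_zero]
        obtain ⟨v, hv⟩ := hsurj p0 hp0 u
        have hB : ∀ p ∈ S, ∃ B : Polynomial K, un p0 v (aeval (w p) (c p)) =
            Polynomial.X ^ d * B := by
          intro p hp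
          obtain ⟨B, hB, -⟩ := lead p0 v (fun i => dl p0 (w p i) v) (w p)
            (fun i => hw0 p hp p0 hp0 i) (fun i => rfl) (c p) d
            (fun m hm => ih m.degree hm p hp m rfl)
          exact ⟨B, hB⟩
        obtain ⟨B, hB1, hB2⟩ := lead p0 v u (w p0) (fun i => hw0 p0 hp0 p0 hp0 i) hv (c p0) d
          (fun m hm => ih m.degree hm p0 hp0 m rfl)
        have h1 := congrArg (fun f => (un p0 v f).coeff d) h
        simp only [map_sum, map_mul, map_zero, Polynomial.coeff_zero] at h1
        rw [Polynomial.finsetSum_coeff, sum_eq_single p0] at h1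
        · rw [hB1, mul_left_comm, Polynomial.coeff_X_pow_mul', if_pos le_rfl, Nat.sub_self,
            Polynomial.mul_coeff_zero, un_coeff_zero, hB2] at h1
          exact (mul_eq_zero.1 h1).resolve_left (he0 p0 hp0)
        · intro p hp hne
          obtain ⟨B', hB'⟩ := hB p hp
          rw [hB', mul_left_comm, Polynomial.coeff_X_pow_mul', if_pos le_rfl, Nat.sub_self,
            Polynomial.mul_coeff_zero, un_coeff_zero, he p hp p0 hp0 (Ne.symm hne), zero_mul]
        · intro h2; exact absurd hp0 h2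
      intro m hm
      have h2 := congrArg (coeff m) hz
      rw [coeff_homogeneousComponent, if_pos hm, coeff_zero] at h2
      exact h2
  intro p hp
  ext m
  rw [key _ p hp m rfl, coeff_zero]

/-- The exponents of degree at most `t`. -/
def Vt (σ : Type) [Fintype σ] [DecidableEq σ] (t : ℕ) : Finset (σ → ℕ) :=
  (Fintype.piFinset fun _ => range (t + 1)).filter fun α => ∑ i, α i ≤ t

theorem mem_Vt [DecidableEq σ] {t : ℕ} {α : σ → ℕ} : α ∈ Vt σ t ↔ ∑ i, α i ≤ t := by
  unfold Vt
  rw [mem_filter, Fintype.mem_piFinset]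
  constructor
  · exact fun h => h.2
  · refine fun h => ⟨fun i => ?_, h⟩
    rw [mem_range, Nat.lt_succ_iff]
    exact (single_le_sum (fun _ _ => Nat.zero_le _) (mem_univ i)).trans h

theorem card_Vt_le [DecidableEq σ] (t : ℕ) : (Vt σ t).card ≤ (t + 1) ^ Fintype.card σ := by
  refine (card_filter_le _ _).trans ?_
  rw [Fintype.card_piFinset]
  simp

/-- Exponential growth beats polynomial growth. -/
theorem growth (M s d N : ℕ) (hM : M < s) : ¬ ∀ k : ℕ, s ^ k ≤ M ^ k * (k * d + 1) ^ N := by
  intro h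
  rcases Nat.eq_zero_or_pos M with hM0 | hM0
  · have := h 1
    rw [hM0, pow_one, pow_one, zero_mul] at this
    omega
  have hr : (1 : ℝ) < (s : ℝ) / M := by
    rw [one_lt_div (by exact_mod_cast hM0)]
    exact_mod_cast hM
  have ht := tendsto_pow_const_div_const_pow_of_one_lt N hr
  have hpos : (0 : ℝ) < 1 / ((d + 1 : ℕ) : ℝ) ^ N := by positivity
  obtain ⟨k, hk1, hk2⟩ := ((ht.eventually (gt_mem_nhds hpos)).and
    (Filter.eventually_ge_atTop 1)).exists
  have h1 : ((s : ℝ) / M) ^ k ≤ ((k * d + 1 : ℕ) : ℝ) ^ N := by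
    rw [div_pow, div_le_iff₀ (by positivity), mul_comm]
    exact_mod_cast h k
  have h2 : ((k * d + 1 : ℕ) : ℝ) ^ N ≤ ((k : ℝ) * ((d + 1 : ℕ) : ℝ)) ^ N := by
    refine pow_le_pow_left₀ (by positivity) ?_ N
    have : k * d + 1 ≤ k * (d + 1) := by rw [mul_add, mul_one]; omega
    exact_mod_cast this
  rw [div_lt_div_iff₀ (by positivity) (by positivity), one_mul, ← mul_pow] at hk1
  exact absurd (h1.trans h2) (not_le.2 hk1)

/-- Elements of bounded degree lie in the span of few monomials. -/
theorem mem_span_mon [DecidableEq σ] (f : MvPolynomial σ K) (T : ℕ) (h : f.totalDegree ≤ T) :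
    f ∈ Submodule.span K ((fun α : σ → ℕ =>
      monomial (Finsupp.equivFunOnFinite.symm α) (1 : K)) '' (Vt σ T : Set (σ → ℕ))) := by
  classical
  rw [f.as_sum]
  refine Submodule.sum_mem _ fun m hm => ?_
  have h1 : monomial m (coeff m f) = coeff m f • monomial m (1 : K) := by
    rw [smul_monomial, smul_eq_mul, mul_one]
  rw [h1]
  refine Submodule.smul_mem _ _ (Submodule.subset_span ?_)
  refine ⟨fun i => m i, ?_, ?_⟩
  · rw [mem_coe, mem_Vt]
    have h2 := le_totalDegree hm
    rw [Finsupp.sum_fintype _ _ (fun _ => rfl)] at h2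
    exact h2.trans h
  · have h3 : (Finsupp.equivFunOnFinite.symm fun i => m i) = m := by
      ext i; rfl
    show monomial (Finsupp.equivFunOnFinite.symm fun i => m i) (1 : K) = monomial m 1
    rw [h3]

end Pool.Agent.V7H84.SL
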