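import Pool.Agent.V7H84.SL.Top

/-!
# Elimination of groups of variables
-/

set_option autoImplicit false
set_option linter.unusedSectionVars false

universe u

namespace Pool.Agent.V7H84.SL

open MvPolynomial Finset

section

variable {J : Type} [Fintype J] [DecidableEq J] {S : Type u} [CommRing S]

/-- Homogeneous polynomials of the wrong degree. -/
theorem top_hom {p : MvPolynomial J S} {n : ℕ} (hp : p.IsHomogeneous n)
    (hn : Fintype.card J ≠ n) : top J S p = 0 := by
  rw [top_apply]
  refine hp.coeff_eq_zero ?_
  rw [Finsupp.degree_eq_sum]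
  simpa using hn

/-- The product of all variables. -/
theorem top_all : top J S (∏ j, X j) = 1 := by
  have h := top_prod_opt (S := S) (I := J) (J := J) (fun p => some p)
  simp only [Option.elim_some, Option.some.injEq] at h
  rw [h, if_pos]
  intro j
  simp [Finset.filter_eq']

/-- Products of polynomials in one variable of degree at most two. -/
theorem top_quad (a b c : J → S) :
    top J S (∏ j, (C (a j) + C (b j) * X j + C (c j) * X j ^ 2)) = ∏ j, b j := by
  classical
  have h1 : ∀ j, (C (a j) + C (b j) * X j + C (c j) * X j ^ 2 : MvPolynomial J S) =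
      ∑ e : Fin 3, C (![a j, b j, c j] e) * X j ^ (e : ℕ) := by
    intro j
    rw [Fin.sum_univ_three]
    show _ = C (a j) * X j ^ 0 + C (b j) * X j ^ 1 + C (c j) * X j ^ 2
    rw [pow_zero, pow_one, mul_one]
  rw [prod_congr rfl fun j _ => h1 j, prod_univ_sum, Fintype.piFinset_univ, map_sum]
  have h2 : ∀ e : J → Fin 3, top J S (∏ j, C (![a j, b j, c j] (e j)) * X j ^ (e j : ℕ)) =
      if e = fun _ => 1 then ∏ j, b j else 0 := by
    intro e
    rw [prod_mul_distrib, ← map_prod, top_C_mul]
    have h3 : (∏ j, X j ^ (e j : ℕ) : MvPolynomial J S) =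
        monomial (Finsupp.equivFunOnFinite.symm fun j => (e j : ℕ)) 1 := by
      rw [monomial_eq, C_1, one_mul, Finsupp.prod_fintype _ _ (fun i => pow_zero _)]
      rfl
    rw [h3, top_apply, coeff_monomial]
    by_cases h : e = fun _ => 1
    · subst h
      rw [if_pos rfl, if_pos, mul_one]
      · rfl
      · ext j; rfl
    · rw [if_neg h, if_neg, mul_zero]
      intro h4
      apply h
      funext j
      have h5 := DFunLike.congr_fun h4 j
      apply Fin.ext
      exact h5
  rw [sum_congr rfl fun e _ => h2 e, sum_ite_eq', if_pos (mem_univ _)]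

end

section

variable {I J : Type} [Fintype I] [DecidableEq I] [Fintype J] [DecidableEq J] {S : Type u}
  [CommRing S]

/-- Restriction to the variables which are not prescribed. -/
theorem top_rs (ι : I → J) (ρ : J → Option I) (hρ : ∀ x i, ρ x = some i ↔ ι i = x)
    (P : MvPolynomial J S) :
    top J S (P * ∏ x, (ρ x).elim (X x) fun _ => 1) =
      top I S (aeval (fun x => (ρ x).elim (0 : MvPolynomial I S) X) P) := by
  classical
  have hι : Function.Injective ι := by
    intro i j hij
    have h1 := (hρ (ι i) i).2 rfl
    have h2 := (hρ (ι i) j).2 hij.symm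
    rw [h1] at h2
    exact Option.some.inj h2
  have hE : (∏ x, (ρ x).elim (X x) (fun _ => 1) : MvPolynomial J S) =
      monomial (Finsupp.equivFunOnFinite.symm fun x => (ρ x).elim 1 fun _ => 0) 1 := by
    rw [monomial_eq, C_1, one_mul, Finsupp.prod_fintype _ _ (fun i => pow_zero _)]
    refine prod_congr rfl fun x _ => ?_
    show _ = X x ^ ((ρ x).elim 1 fun _ => 0)
    rcases ρ x with _ | i
    · show X x = X x ^ 1
      rw [pow_one]
    · show (1 : MvPolynomial J S) = X x ^ 0
      rw [pow_zero]
  rw [hE]
  induction P using MvPolynomial.induction_on' with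
  | add p q hp hq => rw [add_mul, map_add, hp, hq, map_add, map_add]
  | monomial m a =>
    rw [monomial_mul, mul_one, aeval_monomial, Finsupp.prod_fintype _ _ (fun i => pow_zero _)]
    show _ = top I S (C a * _)
    rw [top_C_mul, top_apply, coeff_monomial]
    by_cases hz : ∀ x, ρ x = none → m x = 0
    · have h3 : (∏ x, (ρ x).elim (0 : MvPolynomial I S) X ^ m x) = ∏ i, X i ^ m (ι i) := by
        have h4 : ∏ i, (X i : MvPolynomial I S) ^ m (ι i) =
            ∏ x ∈ univ.image ι, (ρ x).elim (0 : MvPolynomial I S) X ^ m x := by
          rw [prod_image hι.injOn]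
          refine prod_congr rfl fun i _ => ?_
          rw [(hρ (ι i) i).2 rfl]
          rfl
        rw [h4]
        symm
        refine prod_subset (subset_univ _) fun x _ hx => ?_
        have h5 : ρ x = none := by
          rcases h6 : ρ x with _ | i
          · rfl
          · exfalso
            apply hx
            rw [mem_image]
            exact ⟨i, mem_univ _, (hρ x i).1 h6⟩
        rw [hz x h5, pow_zero]
      have h4 : (∏ i, X i ^ m (ι i) : MvPolynomial I S) =
          monomial (Finsupp.equivFunOnFinite.symm fun i => m (ι i)) 1 := by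
        rw [monomial_eq, C_1, one_mul, Finsupp.prod_fintype _ _ (fun i => pow_zero _)]
        rfl
      rw [h3, h4, top_apply, coeff_monomial]
      by_cases h5 : ∀ i, m (ι i) = 1
      · rw [if_pos, if_pos, mul_one]
        · ext i; exact h5 i
        · ext x
          rw [Finsupp.add_apply, ones_apply, Finsupp.equivFunOnFinite_symm_apply_apply]
          rcases h6 : ρ x with _ | i
          · rw [hz x h6]; rfl
          · have h7 := (hρ x i).1 h6
            rw [← h7, h5]; rfl
      · rw [if_neg, if_neg, mul_zero]
        · intro h6
          apply h5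
          intro i
          exact DFunLike.congr_fun h6 i
        · intro h6
          apply h5
          intro i
          have h7 := DFunLike.congr_fun h6 (ι i)
          rw [Finsupp.add_apply, ones_apply, Finsupp.equivFunOnFinite_symm_apply_apply,
            (hρ (ι i) i).2 rfl] at h7
          simpa using h7
    · push Not at hz
      obtain ⟨x, hx, hmx⟩ := hz
      have h3 : (∏ x, (ρ x).elim (0 : MvPolynomial I S) X ^ m x) = 0 := by
        refine prod_eq_zero (mem_univ x) ?_
        rw [hx]
        exact zero_pow hmx
      rw [h3, map_zero, mul_zero, if_neg]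
      intro h4
      have h5 := DFunLike.congr_fun h4 x
      rw [Finsupp.add_apply, ones_apply, Finsupp.equivFunOnFinite_symm_apply_apply, hx] at h5
      apply hmx
      simpa using h5

/-- Elimination of variables. -/
theorem top_elim (p : MvPolynomial (J ⊕ I) S) (A : MvPolynomial J (MvPolynomial I S))
    (B : MvPolynomial I S) (h : sumAlgEquiv S J I p = A * C B) :
    top (J ⊕ I) S p = top I S (top J (MvPolynomial I S) A * B) := by
  rw [top_sum, h, top_mul_C]

end

/-! ### Choosing one group -/

section

variable {G I : Type} [Fintype G] [DecidableEq G] [Fintype I] [DecidableEq I] {S : Type u}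
  [CommRing S]

/-- Exactly one group does not use its own variables. -/
theorem sel_own (hI : 1 ≤ Fintype.card I) (v : G → S) :
    top (G × I) S ((∏ γ, (∏ i, X (γ, i) + C (v γ))) * ∏ i, ∑ γ, X (γ, i)) = ∑ γ, v γ := by
  classical
  have h1 : ∀ γ : G, (∏ i, X (γ, i) + C (v γ) : MvPolynomial (G × I) S) =
      C (v γ) + ∏ i, X (γ, i) := fun γ => add_comm _ _
  rw [prod_congr rfl fun γ _ => h1 γ, prod_add, sum_mul, map_sum]
  have h2 : ∀ T : Finset G, T ∈ (univ : Finset G).powerset →
      top (G × I) S (((∏ γ ∈ T, C (v γ)) * ∏ γ ∈ univ \ T, ∏ i, X (γ, i)) *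
        ∏ i, ∑ γ, X (γ, i)) = if T.card = 1 then ∏ γ ∈ T, v γ else 0 := by
    intro T _
    rw [← map_prod, mul_assoc, top_C_mul]
    by_cases hT : T.card = 1
    · obtain ⟨γ, rfl⟩ := card_eq_one.1 hT
      rw [if_pos hT, prod_singleton]
      have h3 : top (G × I) S ((∏ γ' ∈ univ \ {γ}, ∏ i, X (γ', i)) * ∏ i, ∑ γ, X (γ, i)) = 1 := by
        have h4 := top_rs (S := S) (fun i : I => ((γ, i) : G × I))
          (fun x => if x.1 = γ then some x.2 else none) (by
            rintro ⟨γ', j⟩ i
            constructor
            · intro h
              dsimp only at h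
              split_ifs at h with h5
              rw [← Option.some.inj h, ← h5]
            · intro h
              obtain ⟨h6, h7⟩ := Prod.mk.inj h
              dsimp only
              rw [if_pos h6.symm, h7]) (∏ i, ∑ γ, X (γ, i))
        have h5 : (∏ x : G × I, ((if x.1 = γ then some x.2 else none : Option I).elim (X x)
            fun _ => (1 : MvPolynomial (G × I) S))) = ∏ γ' ∈ univ \ {γ}, ∏ i, X (γ', i) := by
          rw [Fintype.prod_prod_type, ← prod_subset (subset_univ (univ \ {γ}))]
          · refine prod_congr rfl fun γ' hγ' => prod_congr rfl fun i _ => ?_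
            have h6 : γ' ≠ γ := by
              intro h7
              rw [mem_sdiff, mem_singleton] at hγ'
              exact hγ'.2 h7
            dsimp only
            rw [if_neg h6]
            rfl
          · intro γ' _ hγ'
            have h6 : γ' = γ := by
              by_contra h7
              apply hγ'
              rw [mem_sdiff, mem_singleton]
              exact ⟨mem_univ _, h7⟩
            refine prod_eq_one fun i _ => ?_
            dsimp only
            rw [if_pos h6]
            rfl
        rw [h5] at h4
        rw [mul_comm, h4, map_prod]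
        have h6 : ∀ i : I, aeval (fun x : G × I =>
            ((if x.1 = γ then some x.2 else none : Option I).elim (0 : MvPolynomial I S) X))
            (∑ γ' : G, X (γ', i) : MvPolynomial (G × I) S) = X i := by
          intro i
          rw [map_sum, sum_eq_single γ]
          · rw [aeval_X]
            dsimp only
            rw [if_pos rfl]
            rfl
          · intro γ' _ hne
            rw [aeval_X]
            dsimp only
            rw [if_neg hne]
            rfl
          · intro h7; exact absurd (mem_univ _) h7
        rw [prod_congr rfl fun i _ => h6 i, top_all]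
      rw [h3, mul_one]
    · rw [if_neg hT]
      have h3 : top (G × I) S ((∏ γ' ∈ univ \ T, ∏ i, X (γ', i)) * ∏ i, ∑ γ, X (γ, i)) = 0 := by
        have h4 : ((∏ γ' ∈ univ \ T, ∏ i, X (γ', i)) * ∏ i, ∑ γ, X (γ, i) :
            MvPolynomial (G × I) S).IsHomogeneous
              (∑ _γ ∈ univ \ T, ∑ _i : I, 1 + ∑ _i : I, 1) := by
          refine IsHomogeneous.mul ?_ ?_
          · refine IsHomogeneous.prod _ _ _ fun γ' _ => ?_
            exact IsHomogeneous.prod _ _ _ fun i _ => isHomogeneous_X _ _
          · refine IsHomogeneous.prod _ _ _ fun i _ => ?_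
            exact IsHomogeneous.sum _ _ _ fun γ _ => isHomogeneous_X _ _
        refine top_hom h4 ?_
        rw [Fintype.card_prod, sum_const, sum_const, card_univ, smul_eq_mul, smul_eq_mul, mul_one,
          card_sdiff_of_subset (subset_univ T), card_univ]
        intro h5
        apply hT
        have h6 := card_le_univ T
        obtain ⟨k, hk⟩ := Nat.exists_eq_add_of_le h6
        rw [hk, Nat.add_sub_cancel_left] at h5
        have h7 : T.card * Fintype.card I = 1 * Fintype.card I := by
          rw [one_mul]
          linarith [add_mul T.card k (Fintype.card I)]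
        exact Nat.eq_of_mul_eq_mul_right hI h7
      rw [h3, mul_zero]
  rw [sum_congr rfl h2, ← sum_filter]
  have h3 : ((univ : Finset G).powerset.filter fun T => T.card = 1) = univ.powersetCard 1 := by
    ext T
    rw [mem_filter, mem_powersetCard, mem_powerset]
  rw [h3, powersetCard_one, sum_map]
  refine sum_congr rfl fun γ _ => ?_
  simp

/-- Exactly one group uses the common variables. -/
theorem sel_com (hI : 1 ≤ Fintype.card I) (v : G → S) :
    top I S (∏ γ, (∏ i, X i + C (v γ))) = ∑ γ, ∏ γ' ∈ univ \ {γ}, v γ' := by
  classical
  rw [prod_add, map_sum]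
  have h2 : ∀ T : Finset G, T ∈ (univ : Finset G).powerset →
      top I S ((∏ _γ ∈ T, ∏ i, X i) * ∏ γ ∈ univ \ T, C (v γ)) =
        if T.card = 1 then ∏ γ ∈ univ \ T, v γ else 0 := by
    intro T _
    rw [← map_prod, top_mul_C, prod_const]
    by_cases hT : T.card = 1
    · rw [if_pos hT, hT, pow_one, top_all, one_mul]
    · rw [if_neg hT]
      have h4 : ((∏ i, X i) ^ T.card : MvPolynomial I S).IsHomogeneous
          ((∑ _i : I, 1) * T.card) := by
        refine IsHomogeneous.pow ?_ _
        exact IsHomogeneous.prod _ _ _ fun i _ => isHomogeneous_X _ _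
      rw [top_hom h4, zero_mul]
      rw [sum_const, card_univ, smul_eq_mul, mul_one]
      intro h5
      apply hT
      have h6 : Fintype.card I * T.card = Fintype.card I * 1 := by rw [← h5, mul_one]
      exact Nat.eq_of_mul_eq_mul_left hI h6
  rw [sum_congr rfl h2, ← sum_filter]
  have h3 : ((univ : Finset G).powerset.filter fun T => T.card = 1) = univ.powersetCard 1 := by
    ext T
    rw [mem_filter, mem_powersetCard, mem_powerset]
  rw [h3, powersetCard_one, sum_map]
  refine sum_congr rfl fun γ _ => ?_
  simp

end

end Pool.Agent.V7H84.SL
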