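import Pool.Agent.V7H84.SL.Chn
import Pool.Agent.V7H84.SL.Sel

/-!
# A permanent which is a sum over triples of groups
-/

set_option autoImplicit false
set_option linter.unusedSectionVars false
set_option synthInstance.maxSize 2000

universe u

namespace Pool.Agent.V7H84.SL

open MvPolynomial Finset

/-- The remaining columns. -/
abbrev Kc (G B Ω Rw Cl : Type) : Type := (G × Rw) ⊕ ((Ω × Rw) ⊕ (Cl ⊕ (Rw ⊕ (B × Cl))))

variable {G B Ω Rw Cl : Type} [Fintype G] [DecidableEq G] [Fintype B] [DecidableEq B]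
  [Fintype Ω] [DecidableEq Ω] [Fintype Rw] [DecidableEq Rw] [Fintype Cl] [DecidableEq Cl]
  {m : ℕ} [NeZero m] {S : Type u} [CommRing S]

/-- The first forms of the pairs. -/
def hh (eR : Fin m ≃ Rw) (eC : Fin m ≃ Cl) (p : (G ⊕ (B ⊕ Ω)) × Fin m) :
    Kc G B Ω Rw Cl → S :=
  Sum.elim (fun γ k => if k = Sum.inl (γ, eR p.2) then 1 else 0)
    (Sum.elim (fun _ k => if k = Sum.inr (Sum.inr (Sum.inl (eC p.2))) then 1 else 0)
      (fun ω k => if k = Sum.inr (Sum.inl (ω, eR p.2)) then 1 else 0)) p.1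

/-- The second forms of the pairs. -/
def yy (eR : Fin m ≃ Rw) (eC : Fin m ≃ Cl) (Z : G → B → Rw → Cl → S) (u : Ω → Rw → Rw → S)
    (v : Ω → Rw → Cl → S) (p : (G ⊕ (B ⊕ Ω)) × Fin m) : Kc G B Ω Rw Cl → S :=
  Sum.elim (fun γ => Sum.elim (fun _ => 0) (Sum.elim (fun _ => 0) (Sum.elim (fun _ => 0)
      (Sum.elim (fun i' => if i' = eR p.2 then 1 else 0) (fun x => Z γ x.1 (eR p.2) x.2)))))
    (Sum.elim (fun β k => if k = Sum.inr (Sum.inr (Sum.inr (Sum.inr (β, eC p.2)))) then 1 else 0)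
      (fun ω => Sum.elim (fun _ => 0) (Sum.elim (fun _ => 0) (Sum.elim (fun _ => 0)
        (Sum.elim (fun i' => u ω (eR p.2) i') (fun x => v ω (eR p.2) x.2)))))) p.1

/-- The other rows. -/
def ff : Rw ⊕ Rw → Kc G B Ω Rw Cl → S :=
  Sum.elim (fun i => Sum.elim (fun x => if x.2 = i then 1 else 0) (fun _ => 0))
    (fun i => Sum.elim (fun _ => 0) (Sum.elim (fun x => if x.2 = i then 1 else 0) (fun _ => 0)))

theorem lf_single {κ : Type} [Fintype κ] [DecidableEq κ] (x : κ) :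
    ∑ k, C (if k = x then (1 : S) else 0) * (X k : MvPolynomial κ S) = X x := by
  rw [sum_eq_single x]
  · rw [if_pos rfl, C_1, one_mul]
  · intro k _ hk
    rw [if_neg hk, C_0, zero_mul]
  · intro h; exact absurd (mem_univ _) h

theorem lf_single' {κ ι : Type} [Fintype ι] [DecidableEq ι] (j : ι → κ) (x : ι) :
    ∑ k, C (if k = x then (1 : S) else 0) * (X (j k) : MvPolynomial κ S) = X (j x) := by
  rw [sum_eq_single x]
  · rw [if_pos rfl, C_1, one_mul]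
  · intro k _ hk
    rw [if_neg hk, C_0, zero_mul]
  · intro h; exact absurd (mem_univ _) h

theorem blk_G (eR : Fin m ≃ Rw) (eC : Fin m ≃ Cl) (Z : G → B → Rw → Cl → S)
    (u : Ω → Rw → Rw → S) (v : Ω → Rw → Cl → S) (γ : G) :
    (∏ i, (∑ k, C (hh (G := G) (B := B) (Ω := Ω) (S := S) eR eC
      (Sum.inl γ, i) k) * X k) + ∏ i, ∑ k, C (yy eR eC Z u v (Sum.inl γ, i) k) * X k) =
      (∏ i, X (Sum.inl (γ, i)) + ∏ i, (X (Sum.inr (Sum.inr (Sum.inr (Sum.inl i)))) +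
            ∑ x : B × Cl, C (Z γ x.1 i x.2) * X (Sum.inr (Sum.inr (Sum.inr (Sum.inr x)))))) := by
  have e1 : ∀ i, (∑ k, C (hh (G := G) (B := B) (Ω := Ω) (S := S) eR eC
      (Sum.inl γ, i) k) * X k) = X (Sum.inl (γ, eR i)) := fun i => lf_single _
  have e2 : ∀ i, (∑ k, C (yy eR eC Z u v (Sum.inl γ, i) k) * X k :
      MvPolynomial (Kc G B Ω Rw Cl) S) = (X (Sum.inr (Sum.inr (Sum.inr (Sum.inl (eR i))))) +
            ∑ x : B × Cl, C (Z γ x.1 (eR i) x.2) * X (Sum.inr (Sum.inr (Sum.inr (Sum.inr x))))) := by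
    intro i
    rw [Fintype.sum_sum_type, Fintype.sum_sum_type, Fintype.sum_sum_type, Fintype.sum_sum_type]
    have z1 : (∑ j : G × Rw, C (yy eR eC Z u v (Sum.inl γ, i) (Sum.inl j)) * X (Sum.inl j) :
        MvPolynomial (Kc G B Ω Rw Cl) S) = 0 := sum_eq_zero fun j _ => by
      show C (0 : S) * _ = 0
      rw [C_0, zero_mul]
    have z2 : (∑ j : Ω × Rw, C (yy eR eC Z u v (Sum.inl γ, i) (Sum.inr (Sum.inl j))) *
        X (Sum.inr (Sum.inl j)) : MvPolynomial (Kc G B Ω Rw Cl) S) = 0 :=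
      sum_eq_zero fun j _ => by
        show C (0 : S) * _ = 0
        rw [C_0, zero_mul]
    have z3 : (∑ j : Cl, C (yy eR eC Z u v (Sum.inl γ, i) (Sum.inr (Sum.inr (Sum.inl j)))) *
        X (Sum.inr (Sum.inr (Sum.inl j))) : MvPolynomial (Kc G B Ω Rw Cl) S) = 0 :=
      sum_eq_zero fun j _ => by
        show C (0 : S) * _ = 0
        rw [C_0, zero_mul]
    rw [z1, z2, z3, zero_add, zero_add, zero_add]
    congr 1
    exact lf_single' (fun k => (Sum.inr (Sum.inr (Sum.inr (Sum.inl k))) : Kc G B Ω Rw Cl)) (eR i)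
  rw [prod_congr rfl fun i _ => e1 i, prod_congr rfl fun i _ => e2 i]
  congr 1
  · exact Equiv.prod_comp eR fun i => (X (Sum.inl (γ, i)) : MvPolynomial (Kc G B Ω Rw Cl) S)
  · exact Equiv.prod_comp eR fun i => (X (Sum.inr (Sum.inr (Sum.inr (Sum.inl i)))) +
      ∑ x : B × Cl, C (Z γ x.1 i x.2) * X (Sum.inr (Sum.inr (Sum.inr (Sum.inr x)))) :
        MvPolynomial (Kc G B Ω Rw Cl) S)

theorem blk_B (eR : Fin m ≃ Rw) (eC : Fin m ≃ Cl) (Z : G → B → Rw → Cl → S)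
    (u : Ω → Rw → Rw → S) (v : Ω → Rw → Cl → S) (β : B) :
    (∏ i, (∑ k, C (hh (G := G) (B := B) (Ω := Ω) (S := S) eR eC
      (Sum.inr (Sum.inl β), i) k) * X k) +
      ∏ i, ∑ k, C (yy eR eC Z u v (Sum.inr (Sum.inl β), i) k) * X k) =
      (∏ k, X (Sum.inr (Sum.inr (Sum.inl k))) +
            ∏ k, X (Sum.inr (Sum.inr (Sum.inr (Sum.inr (β, k)))))) := by
  have e1 : ∀ i, (∑ k, C (hh (G := G) (B := B) (Ω := Ω) (S := S) eR eC
      (Sum.inr (Sum.inl β), i) k) * X k) = X (Sum.inr (Sum.inr (Sum.inl (eC i)))) :=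
    fun i => lf_single _
  have e2 : ∀ i, (∑ k, C (yy eR eC Z u v (Sum.inr (Sum.inl β), i) k) * X k :
      MvPolynomial (Kc G B Ω Rw Cl) S) =
        X (Sum.inr (Sum.inr (Sum.inr (Sum.inr (β, eC i))))) := fun i => lf_single _
  rw [prod_congr rfl fun i _ => e1 i, prod_congr rfl fun i _ => e2 i]
  congr 1
  · exact Equiv.prod_comp eC fun k => (X (Sum.inr (Sum.inr (Sum.inl k))) :
      MvPolynomial (Kc G B Ω Rw Cl) S)
  · exact Equiv.prod_comp eC fun k => (X (Sum.inr (Sum.inr (Sum.inr (Sum.inr (β, k))))) :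
        MvPolynomial (Kc G B Ω Rw Cl) S)

theorem blk_Ω (eR : Fin m ≃ Rw) (eC : Fin m ≃ Cl) (Z : G → B → Rw → Cl → S)
    (u : Ω → Rw → Rw → S) (v : Ω → Rw → Cl → S) (ω : Ω) :
    (∏ i, (∑ k, C (hh (G := G) (B := B) (Ω := Ω) (S := S) eR eC
      (Sum.inr (Sum.inr ω), i) k) * X k) +
      ∏ i, ∑ k, C (yy eR eC Z u v (Sum.inr (Sum.inr ω), i) k) * X k) =
      (∏ i, X (Sum.inr (Sum.inl (ω, i))) +
            ∏ i, ((∑ i', C (u ω i i') * X (Sum.inr (Sum.inr (Sum.inr (Sum.inl i'))))) +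
            ∑ x : B × Cl, C (v ω i x.2) * X (Sum.inr (Sum.inr (Sum.inr (Sum.inr x)))))) := by
  have e1 : ∀ i, (∑ k, C (hh (G := G) (B := B) (Ω := Ω) (S := S) eR eC
      (Sum.inr (Sum.inr ω), i) k) * X k) = X (Sum.inr (Sum.inl (ω, eR i))) := fun i => lf_single _
  have e2 : ∀ i, (∑ k, C (yy eR eC Z u v (Sum.inr (Sum.inr ω), i) k) * X k :
      MvPolynomial (Kc G B Ω Rw Cl) S) =
      ((∑ i', C (u ω (eR i) i') * X (Sum.inr (Sum.inr (Sum.inr (Sum.inl i'))))) +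
            ∑ x : B × Cl, C (v ω (eR i) x.2) * X (Sum.inr (Sum.inr (Sum.inr (Sum.inr x))))) := by
    intro i
    rw [Fintype.sum_sum_type, Fintype.sum_sum_type, Fintype.sum_sum_type, Fintype.sum_sum_type]
    have z1 : (∑ j : G × Rw, C (yy eR eC Z u v (Sum.inr (Sum.inr ω), i) (Sum.inl j)) *
        X (Sum.inl j) : MvPolynomial (Kc G B Ω Rw Cl) S) = 0 := sum_eq_zero fun j _ => by
      show C (0 : S) * _ = 0
      rw [C_0, zero_mul]
    have z2 : (∑ j : Ω × Rw, C (yy eR eC Z u v (Sum.inr (Sum.inr ω), i)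
        (Sum.inr (Sum.inl j))) * X (Sum.inr (Sum.inl j)) :
          MvPolynomial (Kc G B Ω Rw Cl) S) = 0 :=
      sum_eq_zero fun j _ => by
        show C (0 : S) * _ = 0
        rw [C_0, zero_mul]
    have z3 : (∑ j : Cl, C (yy eR eC Z u v (Sum.inr (Sum.inr ω), i)
        (Sum.inr (Sum.inr (Sum.inl j)))) *
        X (Sum.inr (Sum.inr (Sum.inl j))) : MvPolynomial (Kc G B Ω Rw Cl) S) = 0 :=
      sum_eq_zero fun j _ => by
        show C (0 : S) * _ = 0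
        rw [C_0, zero_mul]
    rw [z1, z2, z3, zero_add, zero_add, zero_add]
    rfl
  rw [prod_congr rfl fun i _ => e1 i, prod_congr rfl fun i _ => e2 i]
  congr 1
  · exact Equiv.prod_comp eR fun i => (X (Sum.inr (Sum.inl (ω, i))) :
      MvPolynomial (Kc G B Ω Rw Cl) S)
  · exact Equiv.prod_comp eR fun i =>
      ((∑ i', C (u ω i i') * X (Sum.inr (Sum.inr (Sum.inr (Sum.inl i'))))) +
            ∑ x : B × Cl, C (v ω i x.2) * X (Sum.inr (Sum.inr (Sum.inr (Sum.inr x)))) :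
        MvPolynomial (Kc G B Ω Rw Cl) S)

theorem blk_F1 (i : Rw) : ∑ k, C ((ff (Sum.inl i) k : S)) *
    (X k : MvPolynomial (Kc G B Ω Rw Cl) S) = ∑ γ, X (Sum.inl (γ, i)) := by
  rw [Fintype.sum_sum_type, Fintype.sum_prod_type]
  have z1 : (∑ j, C ((ff (G := G) (B := B) (Ω := Ω) (Cl := Cl) (Sum.inl i) (Sum.inr j) : S)) *
      (X (Sum.inr j) : MvPolynomial (Kc G B Ω Rw Cl) S)) = 0 := sum_eq_zero fun j _ => by
    show C (0 : S) * _ = 0
    rw [C_0, zero_mul]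
  rw [z1, add_zero]
  refine sum_congr rfl fun γ _ => ?_
  exact lf_single' (fun k => (Sum.inl (γ, k) : Kc G B Ω Rw Cl)) i

theorem blk_F2 (i : Rw) : ∑ k, C ((ff (Sum.inr i) k : S)) *
    (X k : MvPolynomial (Kc G B Ω Rw Cl) S) = ∑ ω, X (Sum.inr (Sum.inl (ω, i))) := by
  rw [Fintype.sum_sum_type, Fintype.sum_sum_type]
  have z1 : (∑ j, C ((ff (G := G) (B := B) (Ω := Ω) (Cl := Cl) (Sum.inr i) (Sum.inl j) : S)) *
      (X (Sum.inl j) : MvPolynomial (Kc G B Ω Rw Cl) S)) = 0 := sum_eq_zero fun j _ => by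
    show C (0 : S) * _ = 0
    rw [C_0, zero_mul]
  have z2 : (∑ j, C ((ff (G := G) (B := B) (Ω := Ω) (Cl := Cl) (Sum.inr i) (Sum.inr (Sum.inr j)) : S)) *
      (X (Sum.inr (Sum.inr j)) : MvPolynomial (Kc G B Ω Rw Cl) S)) = 0 :=
    sum_eq_zero fun j _ => by
      show C (0 : S) * _ = 0
      rw [C_0, zero_mul]
  rw [z1, z2, add_zero, zero_add]
  rw [Fintype.sum_prod_type]
  refine sum_congr rfl fun ω _ => ?_
  exact lf_single' (fun k => (Sum.inr (Sum.inl (ω, k)) : Kc G B Ω Rw Cl)) i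

theorem per_blk1 (hm : 2 ≤ m) (eR : Fin m ≃ Rw) (eC : Fin m ≃ Cl) (Z : G → B → Rw → Cl → S)
    (u : Ω → Rw → Rw → S) (v : Ω → Rw → Cl → S) :
    per (gt (hh (G := G) (B := B) (Ω := Ω) eR eC) (yy eR eC Z u v) ff) =
      (-4) ^ Fintype.card ((G ⊕ (B ⊕ Ω)) × Fin m) * top (Kc G B Ω Rw Cl) S
        (((∏ γ, (∏ i, X (Sum.inl (γ, i)) + ∏ i, (X (Sum.inr (Sum.inr (Sum.inr (Sum.inl i)))) +
            ∑ x : B × Cl, C (Z γ x.1 i x.2) * X (Sum.inr (Sum.inr (Sum.inr (Sum.inr x))))))) *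
          ((∏ β, (∏ k, X (Sum.inr (Sum.inr (Sum.inl k))) +
            ∏ k, X (Sum.inr (Sum.inr (Sum.inr (Sum.inr (β, k)))))))  *
          (∏ ω, (∏ i, X (Sum.inr (Sum.inl (ω, i))) +
            ∏ i, ((∑ i', C (u ω i i') * X (Sum.inr (Sum.inr (Sum.inr (Sum.inl i'))))) +
            ∑ x : B × Cl, C (v ω i x.2) * X (Sum.inr (Sum.inr (Sum.inr (Sum.inr x)))))))))
         * ((∏ i, ∑ γ, X (Sum.inl (γ, i))) * ∏ i, ∑ ω, X (Sum.inr (Sum.inl (ω, i))))) := by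
  rw [per_gt hm, Fintype.prod_sum_type, Fintype.prod_sum_type, Fintype.prod_sum_type]
  rw [prod_congr rfl fun γ _ => blk_G eR eC Z u v γ, prod_congr rfl fun β _ => blk_B eR eC Z u v β,
    prod_congr rfl fun ω _ => blk_Ω eR eC Z u v ω, prod_congr rfl fun i _ => blk_F1 i,
    prod_congr rfl fun i _ => blk_F2 i]

end Pool.Agent.V7H84.SL
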