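import Pool.Agent.V7H84.SL.Blk

/-!
# Elimination of the selector variables
-/

set_option autoImplicit false
set_option linter.unusedSectionVars false
set_option synthInstance.maxSize 2000

universe u

namespace Pool.Agent.V7H84.SL

open MvPolynomial Finset

variable {G B Ω Rw Cl : Type} [Fintype G] [DecidableEq G] [Fintype B] [DecidableEq B]
  [Fintype Ω] [DecidableEq Ω] [Fintype Rw] [DecidableEq Rw] [Fintype Cl] [DecidableEq Cl]
  {S : Type u} [CommRing S]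

/-- The columns after the first elimination. -/
abbrev K1 (B Ω Rw Cl : Type) : Type := (Ω × Rw) ⊕ (Cl ⊕ (Rw ⊕ (B × Cl)))

theorem elim1 (hR : 1 ≤ Fintype.card Rw) (Z : G → B → Rw → Cl → S) (u : Ω → Rw → Rw → S)
    (v : Ω → Rw → Cl → S) :
    top (Kc G B Ω Rw Cl) S
        (((∏ γ, (∏ i, X (Sum.inl (γ, i)) + ∏ i, (X (Sum.inr (Sum.inr (Sum.inr (Sum.inl i)))) +
            ∑ x : B × Cl, C (Z γ x.1 i x.2) * X (Sum.inr (Sum.inr (Sum.inr (Sum.inr x))))))) *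
          ((∏ β, (∏ k, X (Sum.inr (Sum.inr (Sum.inl k))) +
            ∏ k, X (Sum.inr (Sum.inr (Sum.inr (Sum.inr (β, k)))))))  *
          (∏ ω, (∏ i, X (Sum.inr (Sum.inl (ω, i))) +
            ∏ i, ((∑ i', C (u ω i i') * X (Sum.inr (Sum.inr (Sum.inr (Sum.inl i'))))) +
            ∑ x : B × Cl, C (v ω i x.2) * X (Sum.inr (Sum.inr (Sum.inr (Sum.inr x)))))))))
         * ((∏ i, ∑ γ, X (Sum.inl (γ, i))) * ∏ i, ∑ ω, X (Sum.inr (Sum.inl (ω, i))))) =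
    top (K1 B Ω Rw Cl) S
        ((∑ γ, ∏ i, (X (Sum.inr (Sum.inr (Sum.inl i))) +
            ∑ x : B × Cl, C (Z γ x.1 i x.2) * X (Sum.inr (Sum.inr (Sum.inr x))))) *
          ((∏ β, (∏ k, X (Sum.inr (Sum.inl k)) + ∏ k, X (Sum.inr (Sum.inr (Sum.inr (β, k))))))  *
          ((∏ ω, (∏ i, X (Sum.inl (ω, i)) +
            ∏ i, ((∑ i', C (u ω i i') * X (Sum.inr (Sum.inr (Sum.inl i')))) +
            ∑ x : B × Cl, C (v ω i x.2) * X (Sum.inr (Sum.inr (Sum.inr x)))))) *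
          ∏ i, ∑ ω, X (Sum.inl (ω, i))))) := by
  rw [top_elim _ ((∏ γ, (∏ i, X (γ, i) + C (∏ i, (X (Sum.inr (Sum.inr (Sum.inl i))) +
            ∑ x : B × Cl, C (Z γ x.1 i x.2) * X (Sum.inr (Sum.inr (Sum.inr x))))))) *
              ∏ i, ∑ γ, X (γ, i))
    ((∏ β, (∏ k, X (Sum.inr (Sum.inl k)) + ∏ k, X (Sum.inr (Sum.inr (Sum.inr (β, k))))))  *
          ((∏ ω, (∏ i, X (Sum.inl (ω, i)) +
            ∏ i, ((∑ i', C (u ω i i') * X (Sum.inr (Sum.inr (Sum.inl i')))) +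
            ∑ x : B × Cl, C (v ω i x.2) * X (Sum.inr (Sum.inr (Sum.inr x)))))) *
          ∏ i, ∑ ω, X (Sum.inl (ω, i)))), sel_own hR]
  simp only [map_mul, map_prod, map_add, map_sum, sumAlgEquiv_X_inl, sumAlgEquiv_X_inr,
    sumAlgEquiv_C_inl]
  ring

theorem elim2 (hR : 1 ≤ Fintype.card Rw) (Z : G → B → Rw → Cl → S) (u : Ω → Rw → Rw → S)
    (v : Ω → Rw → Cl → S) :
    top (K1 B Ω Rw Cl) S
        ((∑ γ, ∏ i, (X (Sum.inr (Sum.inr (Sum.inl i))) +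
            ∑ x : B × Cl, C (Z γ x.1 i x.2) * X (Sum.inr (Sum.inr (Sum.inr x))))) *
          ((∏ β, (∏ k, X (Sum.inr (Sum.inl k)) + ∏ k, X (Sum.inr (Sum.inr (Sum.inr (β, k))))))  *
          ((∏ ω, (∏ i, X (Sum.inl (ω, i)) +
            ∏ i, ((∑ i', C (u ω i i') * X (Sum.inr (Sum.inr (Sum.inl i')))) +
            ∑ x : B × Cl, C (v ω i x.2) * X (Sum.inr (Sum.inr (Sum.inr x)))))) *
          ∏ i, ∑ ω, X (Sum.inl (ω, i))))) =
    top (Cl ⊕ (Rw ⊕ (B × Cl))) S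
        ((∏ β, (∏ k, X (Sum.inl k) + ∏ k, X (Sum.inr (Sum.inr (β, k))))) *
        ((∑ γ, ∏ i, (X (Sum.inr (Sum.inl i)) +
            ∑ x : B × Cl, C (Z γ x.1 i x.2) * X (Sum.inr (Sum.inr x)))) *
          ∑ ω, ∏ i, ((∑ i', C (u ω i i') * X (Sum.inr (Sum.inl i'))) +
            ∑ x : B × Cl, C (v ω i x.2) * X (Sum.inr (Sum.inr x))))) := by
  rw [top_elim _ ((∏ ω, (∏ i, X (ω, i) + C (∏ i, ((∑ i', C (u ω i i') * X (Sum.inr (Sum.inl i'))) +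
            ∑ x : B × Cl, C (v ω i x.2) * X (Sum.inr (Sum.inr x)))))) *
              ∏ i, ∑ ω, X (ω, i))
    ((∏ β, (∏ k, X (Sum.inl k) + ∏ k, X (Sum.inr (Sum.inr (β, k))))) *
        (∑ γ, ∏ i, (X (Sum.inr (Sum.inl i)) +
            ∑ x : B × Cl, C (Z γ x.1 i x.2) * X (Sum.inr (Sum.inr x))))), sel_own hR]
  · congr 1
    ring
  simp only [map_mul, map_prod, map_add, map_sum, sumAlgEquiv_X_inl, sumAlgEquiv_X_inr,
    sumAlgEquiv_C_inl]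
  ring

theorem elim3 (hC : 1 ≤ Fintype.card Cl) (Z : G → B → Rw → Cl → S) (u : Ω → Rw → Rw → S)
    (v : Ω → Rw → Cl → S) :
    top (Cl ⊕ (Rw ⊕ (B × Cl))) S
        ((∏ β, (∏ k, X (Sum.inl k) + ∏ k, X (Sum.inr (Sum.inr (β, k))))) *
        ((∑ γ, ∏ i, (X (Sum.inr (Sum.inl i)) +
            ∑ x : B × Cl, C (Z γ x.1 i x.2) * X (Sum.inr (Sum.inr x)))) *
          ∑ ω, ∏ i, ((∑ i', C (u ω i i') * X (Sum.inr (Sum.inl i'))) +
            ∑ x : B × Cl, C (v ω i x.2) * X (Sum.inr (Sum.inr x))))) =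
    top (Rw ⊕ (B × Cl)) S ((∑ β : B, ∏ β' ∈ univ \ {β}, ∏ k, X (Sum.inr (β', k))) *
        ((∑ γ, ∏ i, (X (Sum.inl i) +
            ∑ x : B × Cl, C (Z γ x.1 i x.2) * X (Sum.inr x))) *
          ∑ ω, ∏ i, ((∑ i', C (u ω i i') * X (Sum.inl i')) +
            ∑ x : B × Cl, C (v ω i x.2) * X (Sum.inr x)))) := by
  rw [top_elim _ (∏ β, (∏ k, X k + C (∏ k, X (Sum.inr (β, k)))))
    ((∑ γ, ∏ i, (X (Sum.inl i) +
            ∑ x : B × Cl, C (Z γ x.1 i x.2) * X (Sum.inr x))) *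
          ∑ ω, ∏ i, ((∑ i', C (u ω i i') * X (Sum.inl i')) +
            ∑ x : B × Cl, C (v ω i x.2) * X (Sum.inr x))), sel_com hC]
  simp only [map_mul, map_prod, map_add, map_sum, sumAlgEquiv_X_inl, sumAlgEquiv_X_inr,
    sumAlgEquiv_C_inl]

end Pool.Agent.V7H84.SL
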