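import Pool.Agent.V7H84.SL.Blk2

/-!
# The permanent is a sum over triples of groups
-/

set_option autoImplicit false
set_option linter.unusedSectionVars false
set_option synthInstance.maxSize 2000

universe u

namespace Pool.Agent.V7H84.SL

open MvPolynomial Finset

variable {G B Ω Rw Cl : Type} [Fintype G] [DecidableEq G] [Fintype B] [DecidableEq B]
  [Fintype Ω] [DecidableEq Ω] [Fintype Rw] [DecidableEq Rw] [Fintype Cl] [DecidableEq Cl]
  {m : ℕ} [NeZero m] {S : Type u} [CommRing S]

theorem elim4 (Z : B → Rw → Cl → S) (u : Rw → Rw → S) (v : Rw → Cl → S) (β : B) :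
    top (Rw ⊕ (B × Cl)) S ((∏ β' ∈ univ \ {β}, ∏ k, X (Sum.inr (β', k))) *
        ((∏ i, (X (Sum.inl i) + ∑ x : B × Cl, C (Z x.1 i x.2) * X (Sum.inr x))) *
          ∏ i, ((∑ i', C (u i i') * X (Sum.inl i')) +
            ∑ x : B × Cl, C (v i x.2) * X (Sum.inr x)))) =
    top (Rw ⊕ Cl) S ((∏ i, (X (Sum.inl i) + ∑ k, C (Z β i k) * X (Sum.inr k))) *
          ∏ i, ((∑ i', C (u i i') * X (Sum.inl i')) + ∑ k, C (v i k) * X (Sum.inr k))) := by
  classical
  obtain ⟨ρ, hρ1, hρ2, hρ3⟩ : ∃ ρ : Rw ⊕ (B × Cl) → Option (Rw ⊕ Cl),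
      (∀ i, ρ (Sum.inl i) = some (Sum.inl i)) ∧ (∀ k, ρ (Sum.inr (β, k)) = some (Sum.inr k)) ∧
      ∀ β' k, β' ≠ β → ρ (Sum.inr (β', k)) = none :=
    ⟨Sum.elim (fun i => some (Sum.inl i)) (fun x => if x.1 = β then some (Sum.inr x.2) else none),
      fun i => rfl, fun k => if_pos rfl, fun β' k h => if_neg h⟩
  have h4 := top_rs (S := S) (Sum.map id fun k : Cl => ((β, k) : B × Cl)) ρ (by
    rintro (i | ⟨β', k⟩) y
    · rw [hρ1]
      rcases y with j | k'
      · constructor
        · intro h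
          have h' := Sum.inl.inj (Option.some.inj h)
          rw [h']; rfl
        · intro h
          have h' : j = i := Sum.inl.inj h
          rw [h']
      · constructor
        · intro h
          exact absurd (Option.some.inj h) (by simp)
        · intro h
          exact absurd h (by simp)
    · by_cases hb : β' = β
      · rw [hb, hρ2]
        rcases y with j | k'
        · constructor
          · intro h
            exact absurd (Option.some.inj h) (by simp)
          · intro h
            exact absurd h (by simp)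
        · constructor
          · intro h
            have h' := Sum.inr.inj (Option.some.inj h)
            rw [h']; rfl
          · intro h
            have h' : ((β, k') : B × Cl) = (β, k) := Sum.inr.inj h
            rw [(Prod.mk.inj h').2]
      · rw [hρ3 β' k hb]
        constructor
        · intro h
          exact absurd h (by simp)
        · rcases y with j | k'
          · intro h
            exact absurd h (by simp)
          · intro h
            have h' : ((β, k') : B × Cl) = (β', k) := Sum.inr.inj h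
            exact absurd (Prod.mk.inj h').1.symm hb)
    ((∏ i, (X (Sum.inl i) + ∑ x : B × Cl, C (Z x.1 i x.2) * X (Sum.inr x))) *
          ∏ i, ((∑ i', C (u i i') * X (Sum.inl i')) +
            ∑ x : B × Cl, C (v i x.2) * X (Sum.inr x)))
  have h5 : (∏ x, (ρ x).elim (X x) (fun _ => 1) : MvPolynomial (Rw ⊕ (B × Cl)) S) =
      ∏ β' ∈ univ \ {β}, ∏ k, X (Sum.inr (β', k)) := by
    rw [Fintype.prod_sum_type, Fintype.prod_prod_type]
    have h6 : ∏ i, (ρ (Sum.inl i)).elim (X (Sum.inl i) : MvPolynomial (Rw ⊕ (B × Cl)) S)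
        (fun _ => 1) = 1 := prod_eq_one fun i _ => by rw [hρ1]; rfl
    rw [h6, one_mul, ← prod_subset (subset_univ (univ \ {β}))]
    · refine prod_congr rfl fun β' hβ' => prod_congr rfl fun k _ => ?_
      have h7 : β' ≠ β := by
        intro h7
        rw [mem_sdiff, mem_singleton] at hβ'
        exact hβ'.2 h7
      rw [hρ3 β' k h7]
      rfl
    · intro β' _ hβ'
      have h7 : β' = β := by
        by_contra h7
        apply hβ'
        rw [mem_sdiff, mem_singleton]
        exact ⟨mem_univ _, h7⟩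
      refine prod_eq_one fun k _ => ?_
      rw [h7, hρ2]
      rfl
  rw [h5] at h4
  rw [mul_comm (∏ β' ∈ univ \ {β}, _), h4, map_mul, map_prod, map_prod]
  have h7 : ∀ w : B × Cl → S, aeval (fun x => (ρ x).elim (0 : MvPolynomial (Rw ⊕ Cl) S) X)
      (∑ x : B × Cl, C (w x) * X (Sum.inr x) : MvPolynomial (Rw ⊕ (B × Cl)) S) =
        ∑ k, C (w (β, k)) * X (Sum.inr k) := by
    intro w
    rw [map_sum, Fintype.sum_prod_type, sum_eq_single β]
    · refine sum_congr rfl fun k _ => ?_
      rw [map_mul, aeval_X, hρ2]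
      congr 1
      exact (aeval _).commutes _
    · intro β' _ hne
      refine sum_eq_zero fun k _ => ?_
      rw [map_mul, aeval_X, hρ3 β' k hne]
      exact mul_zero _
    · intro h; exact absurd (mem_univ _) h
  have h8 : ∀ i : Rw, aeval (fun x => (ρ x).elim (0 : MvPolynomial (Rw ⊕ Cl) S) X)
      (X (Sum.inl i) : MvPolynomial (Rw ⊕ (B × Cl)) S) =
        (X (Sum.inl i) : MvPolynomial (Rw ⊕ Cl) S) := by
    intro i
    rw [aeval_X, hρ1]
    rfl
  congr 2
  · refine prod_congr rfl fun i _ => ?_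
    rw [map_add, h8, h7 fun x => Z x.1 i x.2]
  · refine prod_congr rfl fun i _ => ?_
    rw [map_add, h7 fun x => v i x.2, map_sum]
    congr 1
    refine sum_congr rfl fun i' _ => ?_
    rw [map_mul, h8]
    congr 1
    exact (aeval _).commutes _

/-- **The permanent of the block matrix.** -/
theorem per_blk (hm : 2 ≤ m) (eR : Fin m ≃ Rw) (eC : Fin m ≃ Cl) (Z : G → B → Rw → Cl → S)
    (u : Ω → Rw → Rw → S) (v : Ω → Rw → Cl → S) :
    per (gt (hh (G := G) (B := B) (Ω := Ω) eR eC) (yy eR eC Z u v) ff) =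
      (-4) ^ Fintype.card ((G ⊕ (B ⊕ Ω)) × Fin m) * ∑ γ, ∑ β, ∑ ω, top (Rw ⊕ Cl) S
        ((∏ i, (X (Sum.inl i) + ∑ k, C (Z γ β i k) * X (Sum.inr k))) *
          ∏ i, ((∑ i', C (u ω i i') * X (Sum.inl i')) + ∑ k, C (v ω i k) * X (Sum.inr k))) := by
  have hR : 1 ≤ Fintype.card Rw := by
    rw [← Fintype.card_congr eR, Fintype.card_fin]; omega
  have hC : 1 ≤ Fintype.card Cl := by
    rw [← Fintype.card_congr eC, Fintype.card_fin]; omega
  rw [per_blk1 hm, elim1 hR, elim2 hR, elim3 hC]
  congr 1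
  rw [sum_mul_sum, sum_mul_sum, map_sum, sum_comm]
  have h1 : ∀ β : B, top (Rw ⊕ (B × Cl)) S (∑ γ, (∏ β' ∈ univ \ {β}, ∏ k, X (Sum.inr (β', k))) *
      ∑ ω, (∏ i, (X (Sum.inl i) + ∑ x : B × Cl, C (Z γ x.1 i x.2) * X (Sum.inr x))) *
        ∏ i, ((∑ i', C (u ω i i') * X (Sum.inl i')) + ∑ x : B × Cl, C (v ω i x.2) *
          X (Sum.inr x))) = ∑ γ, ∑ ω, top (Rw ⊕ Cl) S
        ((∏ i, (X (Sum.inl i) + ∑ k, C (Z γ β i k) * X (Sum.inr k))) *
          ∏ i, ((∑ i', C (u ω i i') * X (Sum.inl i')) +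
            ∑ k, C (v ω i k) * X (Sum.inr k))) := by
    intro β
    rw [map_sum]
    refine sum_congr rfl fun γ _ => ?_
    rw [mul_sum, map_sum]
    refine sum_congr rfl fun ω _ => ?_
    exact elim4 (Z γ) (u ω) (v ω) β
  rw [sum_congr rfl fun β _ => h1 β]

end Pool.Agent.V7H84.SL
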