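import Pool.Agent.V7H84.SL.Gad

/-!
# A permanent which is the top coefficient of a product of sums of two products of linear forms
-/

set_option autoImplicit false
set_option linter.unusedSectionVars false

universe u

namespace Pool.Agent.V7H84.SL

open MvPolynomial Finset

section

variable {S : Type u} [CommRing S]

/-- The cyclic chain with individual weights. -/
theorem chainH {m : ℕ} [NeZero m] (hm : 2 ≤ m) (h Y : Fin m → S) :
    top (Fin m) S (∏ i : Fin m, (C (h i) * X i + C (Y i) * X (i + 1))) =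
      ∏ i, h i + ∏ i, Y i := by
  classical
  have h10 : ∀ i : Fin m, i + 1 ≠ i := by
    intro i hi
    have h1 : (1 : Fin m) = 0 := by simpa using hi
    have h2 := congrArg Fin.val h1
    rw [Fin.val_one', Fin.val_zero, Nat.mod_eq_of_lt (by omega)] at h2
    exact one_ne_zero h2
  have h1 : ∀ i : Fin m, (C (h i) * X i + C (Y i) * X (i + 1) : MvPolynomial (Fin m) S) =
      ∑ j, C ((if j = i then h i else 0) + if j = i + 1 then Y i else 0) * X j := by
    intro i
    have h2 : ∀ j, (C ((if j = i then h i else 0) + if j = i + 1 then Y i else 0) * X j :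
        MvPolynomial (Fin m) S) = (if j = i then C (h i) * X j else 0) +
          if j = i + 1 then C (Y i) * X j else 0 := by
      intro j
      rw [map_add, add_mul]
      split_ifs <;> simp
    rw [sum_congr rfl fun j _ => h2 j, sum_add_distrib, sum_ite_eq', sum_ite_eq',
      if_pos (mem_univ _), if_pos (mem_univ _)]
  rw [prod_congr rfl fun i _ => h1 i, top_prod_linear]
  let e1 : Fin m ≃ Fin m := Equiv.refl _
  let e2 : Fin m ≃ Fin m := Equiv.addRight 1
  have hne : e1 ≠ e2 := by
    intro he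
    have := congrArg (fun e : Fin m ≃ Fin m => e 0) he
    exact h10 0 this.symm
  rw [sum_eq_add e1 e2 hne]
  · congr 1
    · refine prod_congr rfl fun i _ => ?_
      show ((if i = i then h i else 0) + if i = i + 1 then Y i else 0) = h i
      rw [if_pos rfl, if_neg (fun hh => h10 i hh.symm), add_zero]
    · refine prod_congr rfl fun i _ => ?_
      show ((if i + 1 = i then h i else 0) + if i + 1 = i + 1 then Y i else 0) = Y i
      rw [if_neg (h10 i), if_pos rfl, zero_add]
  · intro e _ he
    by_contra hcon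
    have h3 : ∀ i, e i = i ∨ e i = i + 1 := by
      intro i
      by_contra hc
      push Not at hc
      apply hcon
      refine prod_eq_zero (mem_univ i) ?_
      rw [if_neg hc.1, if_neg hc.2, add_zero]
    by_cases h4 : ∀ i, e i = i
    · exact he.1 (Equiv.ext h4)
    · push Not at h4
      obtain ⟨i, hi⟩ := h4
      apply he.2
      have hof : ∀ k : ℕ, Fin.ofNat m (k + 1) = Fin.ofNat m k + 1 := by
        intro k
        apply Fin.ext
        simp [Fin.val_add]
      have h5 : ∀ k : ℕ, e (i + Fin.ofNat m k) = i + Fin.ofNat m k + 1 := by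
        intro k
        induction k with
        | zero =>
          have h50 : Fin.ofNat m 0 = 0 := rfl
          rw [h50, add_zero]
          exact (h3 i).resolve_left hi
        | succ k ih =>
          rcases h3 (i + Fin.ofNat m (k + 1)) with h6 | h6
          · exfalso
            rw [hof, ← add_assoc, ← ih] at h6
            exact h10 _ (by rw [← ih]; exact e.injective h6)
          · exact h6
      refine Equiv.ext fun j => ?_
      have h6 := h5 (j - i).val
      have h7 : Fin.ofNat m (j - i).val = j - i := by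
        apply Fin.ext
        show (j - i).val % m = (j - i).val
        exact Nat.mod_eq_of_lt (j - i).isLt
      rw [h7, add_sub_cancel] at h6
      exact h6
  · intro hh; exact absurd (mem_univ _) hh
  · intro hh; exact absurd (mem_univ _) hh

end

variable {G κ Fl : Type} [Fintype G] [DecidableEq G] [Fintype κ] [DecidableEq κ]
  [Fintype Fl] [DecidableEq Fl] {m : ℕ} [NeZero m] {S : Type u} [CommRing S]

/-- The matrix: `m` pairs of linear forms for each group, and some more rows. -/
def gt (h y : G × Fin m → κ → S) (f : Fl → κ → S) : ((G × Fin m) × Fin 4) ⊕ Fl →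
    ((G × Fin m) × Fin 2) ⊕ ((G × Fin m) ⊕ κ) → S
  | Sum.inl (p, r), Sum.inl (p', v) =>
      if p' = p then (if v = 0 then 1 else ![1, 1, -1, -1] r) else 0
  | Sum.inl (p, r), Sum.inr (Sum.inl p') =>
      ![(if p' = p then 1 else 0) + (if p' = nx p then 1 else 0), 0,
        (if p' = p then 1 else 0) - (if p' = nx p then 1 else 0), 0] r
  | Sum.inl (p, r), Sum.inr (Sum.inr k) => ![0, h p k + y p k, 0, y p k - h p k] r
  | Sum.inr _, Sum.inl _ => 0
  | Sum.inr _, Sum.inr (Sum.inl _) => 0
  | Sum.inr i, Sum.inr (Sum.inr k) => f i k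

/-- The linear forms in the remaining columns. -/
noncomputable def elt (h y : G × Fin m → κ → S) (p : G × Fin m) :
    Fin 4 → MvPolynomial ((G × Fin m) ⊕ κ) S :=
  ![X (Sum.inl p) + X (Sum.inl (nx p)),
    (∑ k, C (h p k) * X (Sum.inr k)) + ∑ k, C (y p k) * X (Sum.inr k),
    X (Sum.inl p) - X (Sum.inl (nx p)),
    (∑ k, C (y p k) * X (Sum.inr k)) - ∑ k, C (h p k) * X (Sum.inr k)]

theorem row_elt (h y : G × Fin m → κ → S) (f : Fl → κ → S) (p : G × Fin m) (r : Fin 4) :
    ∑ j, C (gt h y f (Sum.inl (p, r)) (Sum.inr j)) * X j = elt h y p r := by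
  rw [Fintype.sum_sum_type]
  unfold elt
  have h1 : ∀ q : G × Fin m, (∑ p' : G × Fin m, C (if p' = q then (1 : S) else 0) *
      (X (Sum.inl p') : MvPolynomial ((G × Fin m) ⊕ κ) S)) = X (Sum.inl q) := by
    intro q
    rw [sum_eq_single q]
    · rw [if_pos rfl, C_1, one_mul]
    · intro p' _ hne; rw [if_neg hne, C_0, zero_mul]
    · intro h; exact absurd (mem_univ _) h
  fin_cases r
  · show (∑ p' : G × Fin m, C ((if p' = p then (1 : S) else 0) +
      (if p' = nx p then (1 : S) else 0)) * X (Sum.inl p')) +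
        ∑ k : κ, C (0 : S) * X (Sum.inr k) = _
    simp only [map_add, add_mul, sum_add_distrib, h1, C_0, zero_mul, sum_const_zero, add_zero]
    rfl
  · show (∑ p' : G × Fin m, C (0 : S) * X (Sum.inl p')) +
        ∑ k : κ, C (h p k + y p k) * X (Sum.inr k) = _
    simp only [C_0, zero_mul, sum_const_zero, zero_add, map_add, add_mul, sum_add_distrib]
    rfl
  · show (∑ p' : G × Fin m, C ((if p' = p then (1 : S) else 0) -
      (if p' = nx p then (1 : S) else 0)) * X (Sum.inl p')) +
        ∑ k : κ, C (0 : S) * X (Sum.inr k) = _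
    simp only [map_sub, sub_mul, sum_sub_distrib, h1, C_0, zero_mul, sum_const_zero, add_zero]
    rfl
  · show (∑ p' : G × Fin m, C (0 : S) * X (Sum.inl p')) +
        ∑ k : κ, C (y p k - h p k) * X (Sum.inr k) = _
    simp only [C_0, zero_mul, sum_const_zero, zero_add, map_sub, sub_mul, sum_sub_distrib]
    rfl

theorem row_xt (h y : G × Fin m → κ → S) (f : Fl → κ → S) (p : G × Fin m) (r : Fin 4) :
    sumAlgEquiv S _ _ (∑ j, C (gt h y f (Sum.inl (p, r)) j) * X j) =
      rename (fun v => (p, v)) (X 0 + C (C (![1, 1, -1, -1] r)) * X 1 + C (elt h y p r)) := by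
  rw [split_row, row_elt, map_add, map_add, map_mul, rename_X, rename_X, rename_C, rename_C]
  have h2 : ∑ j, C (C (gt h y f (Sum.inl (p, r)) (Sum.inl j))) * X j =
      (X (p, 0) + C (C (![1, 1, -1, -1] r)) * X (p, 1) :
        MvPolynomial ((G × Fin m) × Fin 2) (MvPolynomial ((G × Fin m) ⊕ κ) S)) := by
    rw [Fintype.sum_prod_type, sum_eq_single p]
    · rw [Fin.sum_univ_two]
      show C (C (if p = p then (if (0 : Fin 2) = 0 then (1 : S) else ![1, 1, -1, -1] r) else 0)) *
        X (p, 0) + C (C (if p = p then (if (1 : Fin 2) = 0 then (1 : S) else ![1, 1, -1, -1] r)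
          else 0)) * X (p, 1) = _
      simp only [↓reduceIte, one_ne_zero, C_1, one_mul]
    · intro p' _ hne
      refine sum_eq_zero fun v _ => ?_
      show C (C (if p' = p then (if v = 0 then (1 : S) else ![1, 1, -1, -1] r) else 0)) *
        X (p', v) = 0
      rw [if_neg hne, C_0, C_0, zero_mul]
    · intro h; exact absurd (mem_univ _) h
  rw [h2]

theorem row_ft (h y : G × Fin m → κ → S) (f : Fl → κ → S) (i : Fl) :
    sumAlgEquiv S _ _ (∑ j, C (gt h y f (Sum.inr i) j) * X j) =
      C (∑ k, C (f i k) * X (Sum.inr k)) := by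
  rw [split_row, Fintype.sum_sum_type]
  show (∑ j, C (C (0 : S)) * X j) + C ((∑ p' : G × Fin m, C (0 : S) * X (Sum.inl p')) +
        ∑ k : κ, C (f i k) * X (Sum.inr k)) = _
  simp only [C_0, zero_mul, sum_const_zero, zero_add]

theorem stage1t {P : Type} [Fintype P] [DecidableEq P] (s : Fin 4 → S) (hs : s = ![1, 1, -1, -1])
    (ℓ : P → Fin 4 → S) (H : S) :
    top (P × Fin 2) S ((∏ p : P, ∏ r : Fin 4, rename (fun v => (p, v))
      (X 0 + C (s r) * X 1 + C (ℓ p r))) * C H) =
      (∏ p : P, (2 * ℓ p 2 * ℓ p 3 - 2 * ℓ p 0 * ℓ p 1)) * H := by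
  have h1 := stage1 s hs ℓ H 1
  rw [pow_one, pow_one] at h1
  exact h1

theorem stage2t (hm : 2 ≤ m) (h Y : G × Fin m → S) :
    top (G × Fin m) S (∏ p, (C (h p) * X p + C (Y p) * X (nx p))) =
      ∏ γ, (∏ i, h (γ, i) + ∏ i, Y (γ, i)) := by
  have h1 : ∏ p : G × Fin m, (C (h p) * X p + C (Y p) * X (nx p) :
      MvPolynomial (G × Fin m) S) = ∏ γ : G, rename (fun i => (γ, i))
        (∏ i : Fin m, (C (h (γ, i)) * X i + C (Y (γ, i)) * X (i + 1))) := by
    rw [Fintype.prod_prod_type]
    refine prod_congr rfl fun γ _ => ?_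
    rw [map_prod]
    refine prod_congr rfl fun i _ => ?_
    rw [map_add, map_mul, map_mul, rename_C, rename_C, rename_X, rename_X]
    rfl
  rw [h1, top_prod_rename, prod_congr rfl fun γ _ => chainH hm _ _]

/-- The permanent of the matrix. -/
theorem per_gt (hm : 2 ≤ m) (h y : G × Fin m → κ → S) (f : Fl → κ → S) :
    per (gt h y f) = (-4) ^ Fintype.card (G × Fin m) *
      top κ S ((∏ γ, (∏ i, (∑ k, C (h (γ, i) k) * X k) + ∏ i, ∑ k, C (y (γ, i) k) * X k)) *
        ∏ i, ∑ k, C (f i k) * X k) := by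
  -- stage 1
  have t1 : per (gt h y f) = top ((G × Fin m) ⊕ κ) S
      ((∏ p : G × Fin m, (2 * elt h y p 2 * elt h y p 3 - 2 * elt h y p 0 * elt h y p 1)) *
        ∏ i, ∑ k, C (f i k) * X (Sum.inr k)) := by
    rw [per, ← top_prod_linear, top_sum, map_prod, Fintype.prod_sum_type, Fintype.prod_prod_type,
      prod_congr rfl fun p _ => prod_congr rfl fun r _ => row_xt h y f p r,
      prod_congr rfl fun i _ => row_ft h y f i, ← map_prod]
    rw [stage1t (fun r => C (![1, 1, -1, -1] r)) (by
      funext r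
      fin_cases r <;> simp)]
  -- stage 2
  rw [t1]
  have e2 : ∀ p : G × Fin m, 2 * elt h y p 2 * elt h y p 3 - 2 * elt h y p 0 * elt h y p 1 =
      C (-4 : S) * ((∑ k, C (h p k) * X (Sum.inr k)) * X (Sum.inl p) +
        (∑ k, C (y p k) * X (Sum.inr k)) * X (Sum.inl (nx p))) := by
    intro p
    show 2 * (X (Sum.inl p) - X (Sum.inl (nx p))) * ((∑ k, C (y p k) * X (Sum.inr k)) -
      ∑ k, C (h p k) * X (Sum.inr k)) - 2 * (X (Sum.inl p) + X (Sum.inl (nx p))) *
      ((∑ k, C (h p k) * X (Sum.inr k)) + ∑ k, C (y p k) * X (Sum.inr k)) = _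
    have h4 : (C (-4 : S) : MvPolynomial ((G × Fin m) ⊕ κ) S) = -4 := by
      rw [map_neg, map_ofNat]
    rw [h4]
    ring
  have e3 : ∀ p : G × Fin m, sumAlgEquiv S (G × Fin m) κ
      ((∑ k, C (h p k) * X (Sum.inr k)) * X (Sum.inl p) +
        (∑ k, C (y p k) * X (Sum.inr k)) * X (Sum.inl (nx p))) =
      C (∑ k, C (h p k) * X k) * X p + C (∑ k, C (y p k) * X k) * X (nx p) := by
    intro p
    simp only [map_add, map_sum, map_mul, sumAlgEquiv_C_inl, sumAlgEquiv_X_inl,
      sumAlgEquiv_X_inr]
  have e4 : sumAlgEquiv S (G × Fin m) κ (∏ i, ∑ k, C (f i k) * X (Sum.inr k)) =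
      C (∏ i, ∑ k, C (f i k) * X k) := by
    simp only [map_prod, map_sum, map_mul, sumAlgEquiv_C_inl, sumAlgEquiv_X_inr]
  rw [prod_congr rfl fun p _ => e2 p, prod_mul_distrib, prod_const, ← map_pow, card_univ,
    mul_assoc, top_C_mul, top_sum, map_mul (sumAlgEquiv S (G × Fin m) κ), map_prod,
    prod_congr rfl fun p _ => e3 p, e4, top_mul_C, stage2t hm]

end Pool.Agent.V7H84.SL
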