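import Pool.Agent.V7H84.SL.Fun2

/-!
# From the generic permanent to many permanents of blocks
-/

set_option autoImplicit false
set_option linter.unusedSectionVars false
set_option synthInstance.maxSize 2000

universe u

namespace Pool.Agent.V7H84.SL

open MvPolynomial Finset

section

variable {K : Type u} [CommRing K] {G κ Fl : Type} [Fintype G] [DecidableEq G] [Fintype κ]
  [DecidableEq κ] [Fintype Fl] [DecidableEq Fl] {m : ℕ} [NeZero m]

theorem deg_zero {σ : Type} : (0 : MvPolynomial σ K).totalDegree ≤ 1 := by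
  rw [totalDegree_zero]; norm_num

theorem deg_one {σ : Type} : (1 : MvPolynomial σ K).totalDegree ≤ 1 := by
  rw [totalDegree_one]; norm_num

theorem deg_ite {σ : Type} {p : Prop} [Decidable p] {a b : MvPolynomial σ K}
    (ha : a.totalDegree ≤ 1) (hb : b.totalDegree ≤ 1) :
    (if p then a else b).totalDegree ≤ 1 := by
  split_ifs
  · exact ha
  · exact hb

theorem pad_degR {I J P σ : Type} [DecidableEq P] (M : I → J → MvPolynomial σ K)
    (hM : ∀ i j, (M i j).totalDegree ≤ 1) (r : I ⊕ P) (c : J ⊕ P) :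
    (pad M r c).totalDegree ≤ 1 := by
  rcases r with i | p <;> rcases c with j | p'
  · exact hM i j
  · exact deg_zero
  · exact deg_zero
  · exact deg_ite deg_one deg_zero

theorem aeval_permanentR {n : ℕ} {σ : Type} (φ : Fin n × Fin n → MvPolynomial σ K) :
    aeval φ (Matrix.permanent (Matrix.of fun i j : Fin n => (X (i, j) :
      MvPolynomial (Fin n × Fin n) K))) = per fun i j : Fin n => φ (j, i) := by
  rw [Matrix.permanent, per, map_sum]
  refine sum_congr rfl fun σ _ => ?_
  rw [map_prod]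
  refine prod_congr rfl fun i _ => ?_
  rw [Matrix.of_apply, aeval_X]

theorem gt_deg {σ : Type} (h y : G × Fin m → κ → MvPolynomial σ K) (f : Fl → κ → MvPolynomial σ K)
    (hh : ∀ p k, (h p k).totalDegree ≤ 1) (hy : ∀ p k, (y p k).totalDegree ≤ 1)
    (hf : ∀ i k, (f i k).totalDegree ≤ 1)
    (r : ((G × Fin m) × Fin 4) ⊕ Fl) (c : ((G × Fin m) × Fin 2) ⊕ ((G × Fin m) ⊕ κ)) :
    (gt h y f r c).totalDegree ≤ 1 := by
  have h1' : (-1 : MvPolynomial σ K).totalDegree ≤ 1 := by rw [totalDegree_neg]; exact deg_one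
  rcases r with ⟨p, r⟩ | i
  · rcases c with ⟨p', v⟩ | p' | k
    · show (if p' = p then (if v = 0 then (1 : MvPolynomial σ K) else ![1, 1, -1, -1] r)
        else 0).totalDegree ≤ 1
      refine deg_ite (deg_ite deg_one ?_) deg_zero
      fin_cases r
      · exact deg_one
      · exact deg_one
      · exact h1'
      · exact h1'
    · fin_cases r
      · exact (totalDegree_add _ _).trans (max_le (deg_ite deg_one deg_zero)
          (deg_ite deg_one deg_zero))
      · exact deg_zero
      · exact (totalDegree_sub _ _).trans (max_le (deg_ite deg_one deg_zero)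
          (deg_ite deg_one deg_zero))
      · exact deg_zero
    · fin_cases r
      · exact deg_zero
      · exact (totalDegree_add _ _).trans (max_le (hh p k) (hy p k))
      · exact deg_zero
      · exact (totalDegree_sub _ _).trans (max_le (hy p k) (hh p k))
  · rcases c with ⟨p', v⟩ | p' | k
    · exact deg_zero
    · exact deg_zero
    · exact hf i k

end

section

variable {K : Type u} [CommRing K] {G B Ω Rw Cl : Type} [Fintype G] [DecidableEq G] [Fintype B]
  [DecidableEq B] [Fintype Ω] [DecidableEq Ω] [Fintype Rw] [DecidableEq Rw] [Fintype Cl]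
  [DecidableEq Cl] {m : ℕ} [NeZero m] {σ : Type}

theorem hh_deg (eR : Fin m ≃ Rw) (eC : Fin m ≃ Cl) (p : (G ⊕ (B ⊕ Ω)) × Fin m)
    (k : Kc G B Ω Rw Cl) : (hh (S := MvPolynomial σ K) eR eC p k).totalDegree ≤ 1 := by
  obtain ⟨γ | β | ω, i⟩ := p
  · exact deg_ite deg_one deg_zero
  · exact deg_ite deg_one deg_zero
  · exact deg_ite deg_one deg_zero

theorem yy_deg (eR : Fin m ≃ Rw) (eC : Fin m ≃ Cl) (Z : G → B → Rw → Cl → MvPolynomial σ K)
    (u : Ω → Rw → Rw → MvPolynomial σ K) (v : Ω → Rw → Cl → MvPolynomial σ K)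
    (hZ : ∀ γ β i k, (Z γ β i k).totalDegree ≤ 1) (hu : ∀ ω i i', (u ω i i').totalDegree ≤ 1)
    (hv : ∀ ω i k, (v ω i k).totalDegree ≤ 1) (p : (G ⊕ (B ⊕ Ω)) × Fin m)
    (k : Kc G B Ω Rw Cl) : (yy eR eC Z u v p k).totalDegree ≤ 1 := by
  obtain ⟨γ | β | ω, i⟩ := p
  · rcases k with k | k | k | k | k
    · exact deg_zero
    · exact deg_zero
    · exact deg_zero
    · exact deg_ite deg_one deg_zero
    · exact hZ _ _ _ _
  · exact deg_ite deg_one deg_zero
  · rcases k with k | k | k | k | k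
    · exact deg_zero
    · exact deg_zero
    · exact deg_zero
    · exact hu _ _ _
    · exact hv _ _ _

theorem ff_deg (i : Rw ⊕ Rw) (k : Kc G B Ω Rw Cl) :
    (ff i k : MvPolynomial σ K).totalDegree ≤ 1 := by
  rcases i with i | i
  · rcases k with k | k
    · exact deg_ite deg_one deg_zero
    · exact deg_zero
  · rcases k with k | k | k
    · exact deg_zero
    · exact deg_ite deg_one deg_zero
    · exact deg_zero

end

section

variable {K : Type u} [CommRing K] {I D N XC : Type} [Fintype I] [DecidableEq I] [Fintype D]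
  [DecidableEq D] [Fintype N] [DecidableEq N] [Fintype XC] [DecidableEq XC] {σ : Type}

theorem uf_deg (δ s : D) (i i' : I ⊕ (D ⊕ N)) :
    (uf (MvPolynomial σ K) δ s i i').totalDegree ≤ 1 := by
  rcases i with i | i | i
  · exact deg_ite deg_one deg_zero
  · exact deg_ite (deg_ite deg_one deg_zero) deg_zero
  · exact deg_zero

theorem vf_deg (E : I ⊕ N ≃ XC) (w : MvPolynomial σ K) (hw : w.totalDegree ≤ 1) (s : D)
    (i : I ⊕ (D ⊕ N)) (k : XC ⊕ D) : (vf E w s i k).totalDegree ≤ 1 := by
  rcases i with i | i | i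
  · exact deg_ite hw deg_zero
  · exact deg_ite deg_zero (deg_ite deg_one deg_zero)
  · exact deg_ite deg_one deg_zero

end

theorem card_Kc (G B Ω Rw Cl : Type) [Fintype G] [Fintype B] [Fintype Ω] [Fintype Rw]
    [Fintype Cl] : Fintype.card (Kc G B Ω Rw Cl) = Fintype.card G * Fintype.card Rw +
      (Fintype.card Ω * Fintype.card Rw + (Fintype.card Cl + (Fintype.card Rw +
        Fintype.card B * Fintype.card Cl))) := by
  rw [Fintype.card_sum, Fintype.card_sum, Fintype.card_sum, Fintype.card_sum,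
    Fintype.card_prod, Fintype.card_prod, Fintype.card_prod]

/-- The permanent and ring homomorphisms. -/
theorem map_per {I J : Type} [Fintype I] [DecidableEq I] [Fintype J] [DecidableEq J]
    {S S' : Type*} [CommRing S] [CommRing S'] (φ : S →+* S') (M : I → J → S) :
    φ (per M) = per fun i j => φ (M i j) := by
  rw [per, per, map_sum]
  refine sum_congr rfl fun e _ => ?_
  rw [map_prod]

section

variable {K : Type u} [CommRing K] [Nontrivial K]

/-- The index set of the outputs. -/
abbrev Tt (g r : ℕ) : Type := (Fin g × Fin g) × (Fin r × Fin r)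

/-- The matrix of the variables. -/
noncomputable def Zm {g r : ℕ} {σ : Type} (zx : Fin g → Fin g → Fin r → Fin (r + r) → MvPolynomial σ K)
    (γ β : Fin g) : Fin r ⊕ (Fin r ⊕ Fin r) → Fin (r + r) ⊕ Fin r →
      MvPolynomial (σ ⊕ Tt g r) K :=
  Sum.elim (fun i => Sum.elim (fun j => rename Sum.inl (zx γ β i j)) (fun _ => 0))
    (Sum.elim (fun d => Sum.elim (fun _ => 0) (fun s => X (Sum.inr ((γ, β), (d, s)))))
      (fun _ _ => 0))

theorem Zm_deg {g r : ℕ} {σ : Type}
    (zx : Fin g → Fin g → Fin r → Fin (r + r) → MvPolynomial σ K)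
    (hz : ∀ γ β i j, (zx γ β i j).totalDegree ≤ 1) (γ β : Fin g)
    (i : Fin r ⊕ (Fin r ⊕ Fin r)) (k : Fin (r + r) ⊕ Fin r) :
    (Zm zx γ β i k).totalDegree ≤ 1 := by
  rcases i with i | i | i
  · rcases k with k | k
    · exact (totalDegree_rename_le _ _).trans (hz _ _ _ _)
    · exact deg_zero
  · rcases k with k | k
    · exact deg_zero
    · show (X (Sum.inr ((γ, β), (i, k))) : MvPolynomial (σ ⊕ Tt g r) K).totalDegree ≤ 1
      rw [totalDegree_X]
  · exact deg_zero

/-- The permanents of the blocks. -/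
noncomputable def qt {g r : ℕ} {σ : Type}
    (zx : Fin g → Fin g → Fin r → Fin (r + r) → MvPolynomial σ K)
    (E : Fin r → (Fin r ⊕ Fin r ≃ Fin (r + r))) (w : Fin r → Fin r → K) (t : Tt g r) :
    MvPolynomial σ K :=
  per fun i i' : Fin r => zx t.1.1 t.1.2 i (E t.2.1 (Sum.inl i')) +
    if i' = i then C (w t.2.1 t.2.2) else 0

/-- The sum of all blocks is a projection of the permanent. -/
theorem blk_id {n g r : ℕ} (hr : 1 ≤ r)
    (hn : 12 * r * (2 * g + r * r) + 6 * r ≤ n) {σ : Type}
    (zx : Fin g → Fin g → Fin r → Fin (r + r) → MvPolynomial σ K)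
    (hz : ∀ γ β i j, (zx γ β i j).totalDegree ≤ 1)
    (E : Fin r → (Fin r ⊕ Fin r ≃ Fin (r + r))) (w : Fin r → Fin r → K) :
    ∃ φ : Fin n × Fin n → MvPolynomial (σ ⊕ Tt g r) K, (∀ x, (φ x).totalDegree ≤ 1) ∧ ∃ N : ℕ,
      aeval φ (Matrix.permanent (Matrix.of fun i j : Fin n => (X (i, j) :
        MvPolynomial (Fin n × Fin n) K))) =
      C ((-4 : K) ^ N) * ∑ t : Tt g r, X (Sum.inr t) * rename Sum.inl (qt zx E w t) := by
  classical
  let G : Type := Fin g
  let B : Type := Fin g
  let Ω : Type := Fin r × Fin r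
  let Rw : Type := Fin r ⊕ (Fin r ⊕ Fin r)
  let Cl : Type := Fin (r + r) ⊕ Fin r
  haveI : NeZero (3 * r) := ⟨by omega⟩
  have hRw : Fintype.card Rw = 3 * r := by
    show Fintype.card (Fin r ⊕ (Fin r ⊕ Fin r)) = _
    rw [Fintype.card_sum, Fintype.card_sum, Fintype.card_fin]; ring
  have hCl : Fintype.card Cl = 3 * r := by
    show Fintype.card (Fin (r + r) ⊕ Fin r) = _
    rw [Fintype.card_sum, Fintype.card_fin, Fintype.card_fin]; ring
  let eR : Fin (3 * r) ≃ Rw := Fintype.equivOfCardEq (by rw [hRw, Fintype.card_fin])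
  let eC : Fin (3 * r) ≃ Cl := Fintype.equivOfCardEq (by rw [hCl, Fintype.card_fin])
  let u : Ω → Rw → Rw → MvPolynomial (σ ⊕ Tt g r) K := fun ω => uf _ ω.1 ω.2
  let v : Ω → Rw → Cl → MvPolynomial (σ ⊕ Tt g r) K := fun ω =>
    vf (E ω.1) (C (w ω.1 ω.2)) ω.2
  have hper := per_blk (G := G) (B := B) (by omega : 2 ≤ 3 * r) eR eC (Zm zx) u v
  set M0 := gt (hh (G := G) (B := B) (Ω := Ω) (S := MvPolynomial (σ ⊕ Tt g r) K) eR eC)
    (yy eR eC (Zm zx) u v) ff with hM0
  have hGr : Fintype.card (G ⊕ (B ⊕ Ω)) = 2 * g + r * r := by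
    show Fintype.card (Fin g ⊕ (Fin g ⊕ (Fin r × Fin r))) = _
    rw [Fintype.card_sum, Fintype.card_sum, Fintype.card_prod, Fintype.card_fin, Fintype.card_fin]
    ring
  have hR : Fintype.card ((((G ⊕ (B ⊕ Ω)) × Fin (3 * r)) × Fin 4) ⊕ (Rw ⊕ Rw)) =
      12 * r * (2 * g + r * r) + 6 * r := by
    rw [Fintype.card_sum, Fintype.card_sum, Fintype.card_prod, Fintype.card_prod, hGr, hRw,
      Fintype.card_fin, Fintype.card_fin]
    ring
  have hC : Fintype.card ((((G ⊕ (B ⊕ Ω)) × Fin (3 * r)) × Fin 2) ⊕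
      (((G ⊕ (B ⊕ Ω)) × Fin (3 * r)) ⊕ Kc G B Ω Rw Cl)) =
      12 * r * (2 * g + r * r) + 6 * r := by
    have hK : Fintype.card (Kc G B Ω Rw Cl) = g * (3 * r) + (r * r * (3 * r) + (3 * r +
        (3 * r + g * (3 * r)))) := by
      rw [card_Kc, hRw, hCl]
      show Fintype.card (Fin g) * (3 * r) + (Fintype.card (Fin r × Fin r) * (3 * r) + (3 * r +
        (3 * r + Fintype.card (Fin g) * (3 * r)))) = _
      rw [Fintype.card_prod, Fintype.card_fin, Fintype.card_fin]
    rw [Fintype.card_sum, Fintype.card_sum, Fintype.card_prod, Fintype.card_prod, hGr, hK,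
      Fintype.card_fin, Fintype.card_fin]
    ring
  obtain ⟨N0, hN0⟩ : ∃ N0, N0 = 12 * r * (2 * g + r * r) + 6 * r := ⟨_, rfl⟩
  rw [← hN0] at hR hC hn
  let P' : Type := Fin (n - N0)
  let e : Fin n ≃ ((((G ⊕ (B ⊕ Ω)) × Fin (3 * r)) × Fin 4) ⊕ (Rw ⊕ Rw)) ⊕ P' :=
    Fintype.equivOfCardEq (by
      rw [Fintype.card_sum, hR, Fintype.card_fin, Fintype.card_fin]; omega)
  let f : Fin n ≃ ((((G ⊕ (B ⊕ Ω)) × Fin (3 * r)) × Fin 2) ⊕
      (((G ⊕ (B ⊕ Ω)) × Fin (3 * r)) ⊕ Kc G B Ω Rw Cl)) ⊕ P' :=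
    Fintype.equivOfCardEq (by
      rw [Fintype.card_sum, hC, Fintype.card_fin, Fintype.card_fin]; omega)
  let φ : Fin n × Fin n → MvPolynomial (σ ⊕ Tt g r) K := fun x =>
    pad (P := P') M0 (e x.2) (f x.1)
  have hφ : ∀ x, (φ x).totalDegree ≤ 1 := fun x => pad_degR _ (fun a c => gt_deg _ _ _
    (hh_deg eR eC) (yy_deg eR eC _ _ _ (Zm_deg zx hz) (fun ω i i' => uf_deg _ _ _ _)
      (fun ω i k => vf_deg _ _ (by rw [totalDegree_C]; norm_num) _ _ _)) ff_deg a c) _ _
  have hval : ∑ γ : G, ∑ β : B, ∑ ω : Ω, top (Rw ⊕ Cl) (MvPolynomial (σ ⊕ Tt g r) K)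
        ((∏ i, (X (Sum.inl i) + ∑ k, C (Zm zx γ β i k) * X (Sum.inr k))) *
          ∏ i, ((∑ i', C (u ω i i') * X (Sum.inl i')) + ∑ k, C (v ω i k) * X (Sum.inr k))) =
      ∑ t : Tt g r, X (Sum.inr t) * rename Sum.inl (qt zx E w t) := by
    rw [Fintype.sum_prod_type, Fintype.sum_prod_type]
    refine sum_congr rfl fun γ _ => sum_congr rfl fun β _ => sum_congr rfl fun ω _ => ?_
    have h5 := fun_eval (E ω.1) (C (w ω.1 ω.2)) ω.1 ω.2 (Zm zx γ β) (fun _ _ => rfl)
      (fun _ _ => rfl) (fun _ _ => rfl)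
    refine h5.trans ?_
    show X (Sum.inr ((γ, β), (ω.1, ω.2))) * _ = _
    congr 1
    have h6 := map_per (rename Sum.inl : MvPolynomial σ K →ₐ[K]
      MvPolynomial (σ ⊕ Tt g r) K).toRingHom (fun i i' : Fin r =>
        zx γ β i (E ω.1 (Sum.inl i')) + if i' = i then C (w ω.1 ω.2) else 0)
    refine Eq.trans ?_ h6.symm
    congr 1
    funext i i'
    show rename Sum.inl (zx γ β i (E ω.1 (Sum.inl i'))) + (if i' = i then C (w ω.1 ω.2) else 0) =
      rename Sum.inl (zx γ β i (E ω.1 (Sum.inl i')) + if i' = i then C (w ω.1 ω.2) else 0)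
    rw [map_add]
    congr 1
    split_ifs
    · rw [rename_C]
    · rw [map_zero]
  refine ⟨φ, hφ, Fintype.card ((G ⊕ (B ⊕ Ω)) × Fin (3 * r)), ?_⟩
  rw [aeval_permanentR]
  show per (fun i j : Fin n => pad (P := P') M0 (e i) (f j)) = _
  rw [per_reindex e f (pad (P := P') M0), per_pad, hper, hval, map_pow, map_neg, map_ofNat]

end

/-! ### Partial derivatives -/

section

variable {K : Type u} [CommRing K]

/-- Partial derivatives of affine forms are constant. -/
theorem aff_pderivR {σ : Type} {f : MvPolynomial σ K} (hf : f.totalDegree ≤ 1) (i : σ) :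
    ∃ t : K, pderiv i f = C t := by
  classical
  refine ⟨coeff 0 (pderiv i f), ?_⟩
  ext m
  rw [coeff_C]
  split_ifs with h
  · rw [h]
  · rw [coeff_pderiv]
    by_contra hcon
    have h1 := le_totalDegree (mem_support_iff.2 (left_ne_zero_of_mul hcon))
    have h2 : ((m + Finsupp.single i 1).sum fun _ e => e) = (m + Finsupp.single i 1).degree := rfl
    rw [h2, map_add, Finsupp.degree_single] at h1
    have h3 : m.degree ≠ 0 := fun h0 => h ((Finsupp.degree_eq_zero_iff m).1 h0).symm
    omega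

/-- The chain rule. -/
theorem pderiv_chain {σ τ : Type} [Fintype σ] (φ : σ → MvPolynomial τ K) (i : τ)
    (f : MvPolynomial σ K) :
    pderiv i (aeval φ f) = ∑ x, pderiv i (φ x) * aeval φ (pderiv x f) := by
  classical
  induction f using MvPolynomial.induction_on with
  | C a =>
    have h1 : aeval φ (C a) = C a := (aeval φ).commutes a
    rw [h1, pderiv_C]
    symm
    refine sum_eq_zero fun x _ => ?_
    rw [pderiv_C, map_zero, mul_zero]
  | add f g hf hg =>
    rw [map_add, map_add, hf, hg, ← sum_add_distrib]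
    refine sum_congr rfl fun x _ => ?_
    rw [map_add, map_add, mul_add]
  | mul_X f j hf =>
    have hL : pderiv i (aeval φ f * φ j) =
        aeval φ f * pderiv i (φ j) + φ j * pderiv i (aeval φ f) := by
      rw [Derivation.leibniz]; rfl
    have hR : ∀ x, pderiv x (f * X j) = f * pderiv x (X j) + X j * pderiv x f := by
      intro x
      rw [Derivation.leibniz]; rfl
    rw [map_mul, aeval_X, hL, hf]
    have h1 : ∀ x, pderiv i (φ x) * aeval φ (pderiv x (f * X j)) =
        (if x = j then aeval φ f * pderiv i (φ j) else 0) +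
          φ j * (pderiv i (φ x) * aeval φ (pderiv x f)) := by
      intro x
      rw [hR, map_add, map_mul, map_mul, aeval_X]
      split_ifs with h
      · subst h
        rw [pderiv_X_self, map_one]; ring
      · rw [pderiv_X_of_ne (fun hh => h hh.symm), map_zero]; ring
    rw [sum_congr rfl fun x _ => h1 x, sum_add_distrib, sum_ite_eq', if_pos (mem_univ _),
      ← mul_sum]

theorem pderiv_rename_inl {σ τ : Type} (t : τ) (f : MvPolynomial σ K) :
    pderiv (Sum.inr t) (rename Sum.inl f : MvPolynomial (σ ⊕ τ) K) = 0 := by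
  classical
  induction f using MvPolynomial.induction_on with
  | C a => rw [rename_C, pderiv_C]
  | add f g hf hg => rw [map_add, map_add, hf, hg, add_zero]
  | mul_X f j hf =>
    rw [map_mul, Derivation.leibniz, hf, rename_X, pderiv_X_of_ne (by simp), smul_zero, smul_zero,
      add_zero]

end

section

variable {K : Type u} [CommRing K] [Nontrivial K]

/-- **The partial derivatives of the permanent at the points of an affine space.** -/
theorem grd_id {n g r : ℕ} (hr : 1 ≤ r)
    (hn : 12 * r * (2 * g + r * r) + 6 * r ≤ n) {σ : Type}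
    (zx : Fin g → Fin g → Fin r → Fin (r + r) → MvPolynomial σ K)
    (hz : ∀ γ β i j, (zx γ β i j).totalDegree ≤ 1)
    (E : Fin r → (Fin r ⊕ Fin r ≃ Fin (r + r))) (w : Fin r → Fin r → K) :
    ∃ φ : Fin n × Fin n → MvPolynomial σ K, (∀ x, (φ x).totalDegree ≤ 1) ∧
      ∃ c : Tt g r → Fin n × Fin n → K, ∃ N : ℕ, ∀ t,
      ∑ x, C (c t x) * aeval φ (pderiv x (Matrix.permanent (Matrix.of fun i j : Fin n =>
        (X (i, j) : MvPolynomial (Fin n × Fin n) K)))) = C ((-4 : K) ^ N) * qt zx E w t := by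
  classical
  obtain ⟨φ, hφ, N, h⟩ := blk_id hr hn zx hz E w
  choose c hc using fun (t : Tt g r) (x : Fin n × Fin n) => aff_pderivR (hφ x) (Sum.inr t)
  obtain ⟨θ, hθ⟩ : ∃ θ : MvPolynomial (σ ⊕ Tt g r) K →ₐ[K] MvPolynomial σ K,
    θ = aeval (Sum.elim X fun _ => 0) := ⟨_, rfl⟩
  have hθC : ∀ a : K, θ (C a) = C a := fun a => by rw [hθ]; exact (aeval _).commutes a
  have hθi : ∀ f : MvPolynomial σ K, θ (rename Sum.inl f) = f := by
    intro f
    rw [hθ, aeval_rename]
    have : (Sum.elim X (fun _ => 0) : σ ⊕ Tt g r → MvPolynomial σ K) ∘ Sum.inl = X := rfl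
    rw [this, aeval_X_left_apply]
  have hθ2 : ∀ (f : MvPolynomial (Fin n × Fin n) K), θ (aeval φ f) = aeval (fun x => θ (φ x)) f := by
    intro f
    rw [← AlgHom.comp_apply]
    congr 1
    apply MvPolynomial.algHom_ext
    intro x
    rw [AlgHom.comp_apply, aeval_X, aeval_X]
  refine ⟨fun x => θ (φ x), ?_, c, N, ?_⟩
  · intro x
    rw [hθ]
    have h1 : ∀ f : MvPolynomial (σ ⊕ Tt g r) K,
        (aeval (Sum.elim X fun _ => 0 : σ ⊕ Tt g r → MvPolynomial σ K) f).totalDegree ≤
          f.totalDegree := by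
      intro f
      rw [aeval_def, eval₂_eq]
      refine totalDegree_finsetSum_le fun m hm => ?_
      refine (totalDegree_mul _ _).trans ?_
      have h1 : (algebraMap K (MvPolynomial σ K) (coeff m f)).totalDegree = 0 := totalDegree_C _
      rw [h1, zero_add]
      refine (totalDegree_finsetProd _ _).trans ?_
      refine le_trans (sum_le_sum fun i _ => ?_) (le_totalDegree hm)
      refine (totalDegree_pow _ _).trans ?_
      calc m i * (Sum.elim X (fun _ => 0) i : MvPolynomial σ K).totalDegree ≤ m i * 1 := by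
            refine Nat.mul_le_mul_left _ ?_
            rcases i with i | i
            · show (X i : MvPolynomial σ K).totalDegree ≤ 1
              rw [totalDegree_X]
            · exact deg_zero
        _ = m i := mul_one _
    exact (h1 _).trans (hφ x)
  · intro t
    have h1 := congrArg (fun f => θ (pderiv (Sum.inr t) f)) h
    simp only [pderiv_chain φ (Sum.inr t)] at h1
    rw [map_sum, Derivation.leibniz, pderiv_C, smul_zero, add_zero, smul_eq_mul, map_mul, hθC,
      map_sum, map_sum, sum_eq_single t] at h1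
    · rw [Derivation.leibniz, pderiv_rename_inl, smul_zero, zero_add, pderiv_X_self, smul_eq_mul,
        mul_one, hθi] at h1
      rw [← h1]
      refine sum_congr rfl fun x _ => ?_
      rw [map_mul, hc, hθC, hθ2]
    · intro t' _ hne
      rw [Derivation.leibniz, pderiv_rename_inl, smul_zero, zero_add,
        pderiv_X_of_ne (fun hh => hne (Sum.inr.inj hh)), smul_zero, map_zero]
    · intro hh; exact absurd (mem_univ _) hh

end

end Pool.Agent.V7H84.SL
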