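import Pool.Agent.V7H84.SL.Hilb

/-!
# Computations with multiplications and divisions in a field

`Reach K r V W` says that the space `W` arises from the space `V` by adding, `r` times, the product
or the quotient of two elements which are already there.
-/

set_option autoImplicit false
set_option linter.unusedSectionVars false

universe u v w

namespace Pool.Agent.V7H84.SL

open Finset Module

section

variable {K : Type u} [Field K] {A : Type v} [CommRing A] [IsDomain A] [Algebra K A]

theorem US_step' {V : Submodule K A} (hV : V.FG) (h1 : (1 : A) ∈ V) {c g : A} (hg : g ≠ 0)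
    (hc : c ∈ V) (hc0 : c ≠ 0) (hcg : c * g ∈ V ^ 2) (t k : ℕ) (hk : k < t) :
    finrank K (US V g t (k + 1)) + finrank K (V ^ (t - k) : Submodule K A) ≤
      finrank K (US V g t k) + finrank K (V ^ (t - k + 1) : Submodule K A) := by
  obtain ⟨a, ha⟩ : ∃ a, t - k = a + 1 := ⟨t - k - 1, by omega⟩
  have ha' : t - (k + 1) = a := by omega
  rw [US_succ, ha, ha']
  have i1 := fd_pow hV a
  have i2 := fd_pow hV (a + 1)
  have i3 := fd_pow hV (a + 1 + 1)
  have i4 := fd_US hV g t k
  have h2 := Submodule.finrank_sup_add_finrank_inf_eq (US V g t k)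
    ((V ^ a).map (LinearMap.mulLeft K (g ^ (k + 1))))
  have h3 := Submodule.finrank_sup_add_finrank_inf_eq ((V ^ (a + 1)).map (LinearMap.mulLeft K c))
    ((V ^ a).map (LinearMap.mulLeft K (c * g)))
  have h4 : finrank K ((V ^ (a + 1)).map (LinearMap.mulLeft K c) ⊔
      (V ^ a).map (LinearMap.mulLeft K (c * g)) : Submodule K A) ≤
      finrank K (V ^ (a + 1 + 1) : Submodule K A) := by
    apply Submodule.finrank_mono
    refine sup_le ?_ ?_
    · rintro _ ⟨w, hw, rfl⟩
      rw [LinearMap.mulLeft_apply, mul_comm, pow_succ]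
      exact Submodule.mul_mem_mul hw hc
    · rintro _ ⟨w, hw, rfl⟩
      rw [LinearMap.mulLeft_apply, mul_comm]
      have : a + 1 + 1 = a + 2 := rfl
      rw [this, pow_add]
      exact Submodule.mul_mem_mul hw hcg
  have h5 : finrank K ((V ^ (a + 1)).map (LinearMap.mulLeft K c) ⊓
      (V ^ a).map (LinearMap.mulLeft K (c * g)) : Submodule K A) ≤
      finrank K (US V g t k ⊓ (V ^ a).map (LinearMap.mulLeft K (g ^ (k + 1))) :
        Submodule K A) := by
    have h6 : ((V ^ (a + 1)).map (LinearMap.mulLeft K c) ⊓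
      (V ^ a).map (LinearMap.mulLeft K (c * g)) : Submodule K A) ≤
        (V ^ (a + 1) ⊓ (V ^ a).map (LinearMap.mulLeft K g)).map (LinearMap.mulLeft K c) := by
      rintro x ⟨⟨y, hy, hyx⟩, z, hz, hzx⟩
      refine ⟨y, ⟨hy, z, hz, ?_⟩, hyx⟩
      rw [LinearMap.mulLeft_apply] at hyx hzx ⊢
      apply mul_left_cancel₀ hc0
      rw [hyx, ← hzx]
      ring
    refine (Submodule.finrank_mono h6).trans ?_
    rw [finrank_map_mul hc0]
    rw [← finrank_map_mul (pow_ne_zero k hg) (V ^ (a + 1) ⊓ (V ^ a).map (LinearMap.mulLeft K g))]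
    apply Submodule.finrank_mono
    rintro _ ⟨x, ⟨hx1, w, hw, rfl⟩, rfl⟩
    refine ⟨?_, w, hw, ?_⟩
    · refine term_le V g (le_refl k) ⟨_, ?_, rfl⟩
      rw [ha]
      exact hx1
    · simp only [LinearMap.mulLeft_apply]
      ring
  rw [finrank_map_mul (pow_ne_zero _ hg)] at h2
  rw [finrank_map_mul hc0, finrank_map_mul (mul_ne_zero hc0 hg)] at h3
  omega

/-- **The dimension of the powers at most doubles.** -/
theorem double' {V : Submodule K A} (hV : V.FG) (h1 : (1 : A) ∈ V) {c g : A}
    (hc : c ∈ V) (hc0 : c ≠ 0) (hcg : c * g ∈ V ^ 2) (t : ℕ) :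
    finrank K ((V ⊔ Submodule.span K {g}) ^ t : Submodule K A) ≤
      2 * finrank K (V ^ (t + 1) : Submodule K A) := by
  have hm : finrank K (V ^ t : Submodule K A) ≤ finrank K (V ^ (t + 1) : Submodule K A) := by
    have i1 := fd_pow hV (t + 1)
    exact Submodule.finrank_mono (pow_mono_of_one h1 (Nat.le_succ t))
  by_cases hg : g = 0
  · subst hg
    rw [Submodule.span_zero_singleton, sup_bot_eq]
    omega
  · have h2 : ∀ k ≤ t, finrank K (US V g t k) + finrank K (V ^ (t - k + 1) : Submodule K A) ≤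
        finrank K (V ^ t : Submodule K A) + finrank K (V ^ (t + 1) : Submodule K A) := by
      intro k
      induction k with
      | zero =>
        intro _
        have h3 : finrank K (US V g t 0) = finrank K (V ^ t : Submodule K A) := by
          unfold US
          rw [zero_add, range_one, sup_singleton, finrank_map_mul (pow_ne_zero 0 hg), Nat.sub_zero]
        rw [h3, Nat.sub_zero]
      | succ k ih =>
        intro hk
        have h3 := ih (by omega)
        have h4 := US_step' hV h1 hg hc hc0 hcg t k (by omega)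
        have h5 : t - (k + 1) + 1 = t - k := by omega
        rw [h5]
        omega
    have h3 := h2 t le_rfl
    have i1 := fd_US hV g t t
    have h4 := Submodule.finrank_mono (pow_le_US V g t)
    omega

end

section

variable {K : Type u} [Field K] {F : Type v} [Field F] [Algebra K F]

variable (K) in
/-- The element `g` is the product or the quotient of two elements of `V`. -/
def Gate (V : Submodule K F) (g : F) : Prop :=
  ∃ a ∈ V, ∃ c ∈ V, g = a * c ∨ (c ≠ 0 ∧ g * c = a)

variable (K) in
/-- The space `W` arises from `V` by `r` multiplications and divisions. -/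
def Reach : ℕ → Submodule K F → Submodule K F → Prop
  | 0, V, W => W = V
  | r + 1, V, W => ∃ W₀ g, Reach r V W₀ ∧ Gate K W₀ g ∧ W = W₀ ⊔ Submodule.span K {g}

theorem Reach.le : ∀ {r : ℕ} {V W : Submodule K F}, Reach K r V W → V ≤ W := by
  intro r
  induction r with
  | zero => intro V W h; exact le_of_eq (h : W = V).symm
  | succ r ih =>
    intro V W h
    obtain ⟨W₀, g, h1, -, rfl⟩ := h
    exact (ih h1).trans le_sup_left

theorem Reach.snoc {r : ℕ} {V W : Submodule K F} (h : Reach K r V W) {g : F} (hg : Gate K W g) :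
    Reach K (r + 1) V (W ⊔ Submodule.span K {g}) := ⟨W, g, h, hg, rfl⟩

theorem Gate.mono {V W : Submodule K F} (h : V ≤ W) {g : F} (hg : Gate K V g) : Gate K W g := by
  obtain ⟨a, ha, c, hc, h1⟩ := hg
  exact ⟨a, h ha, c, h hc, h1⟩

/-- The growth of the powers. -/
theorem Reach.hilb : ∀ {r : ℕ} {V W : Submodule K F}, Reach K r V W → V.FG → (1 : F) ∈ V →
    W.FG ∧ ∀ t, finrank K (W ^ t : Submodule K F) ≤
      2 ^ r * finrank K (V ^ (t + r) : Submodule K F) := by
  intro r
  induction r with
  | zero =>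
    intro V W h hV h1
    have h2 : W = V := h
    subst h2
    exact ⟨hV, fun t => by rw [pow_zero, one_mul, add_zero]⟩
  | succ r ih =>
    intro V W h hV h1
    obtain ⟨W₀, g, h2, ⟨a, ha, c, hc, h3⟩, rfl⟩ := h
    obtain ⟨h4, h5⟩ := ih h2 hV h1
    have h6 : (1 : F) ∈ W₀ := h2.le h1
    refine ⟨h4.sup (Submodule.fg_span_singleton g), fun t => ?_⟩
    have h7 : finrank K ((W₀ ⊔ Submodule.span K {g}) ^ t : Submodule K F) ≤
        2 * finrank K (W₀ ^ (t + 1) : Submodule K F) := by
      rcases h3 with h3 | ⟨h3, h3'⟩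
      · refine double' h4 h6 h6 one_ne_zero ?_ t
        rw [one_mul, h3, pow_two]
        exact Submodule.mul_mem_mul ha hc
      · refine double' h4 h6 hc h3 ?_ t
        rw [mul_comm, h3', pow_two, ← mul_one a]
        exact Submodule.mul_mem_mul ha h6
    refine h7.trans ?_
    calc 2 * finrank K (W₀ ^ (t + 1) : Submodule K F)
        ≤ 2 * (2 ^ r * finrank K (V ^ (t + 1 + r) : Submodule K F)) :=
          Nat.mul_le_mul_left _ (h5 (t + 1))
      _ = 2 ^ (r + 1) * finrank K (V ^ (t + (r + 1)) : Submodule K F) := by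
          rw [← mul_assoc, ← pow_succ', add_assoc, add_comm 1 r]

end

/-! ### Ring homomorphisms -/

section

variable {K : Type u} [Field K] {F : Type v} [Field F] [Algebra K F] {L : Type w} [Field L]
  {F' : Type w} [Field F'] [Algebra L F']

/-- Transport of a computation by a homomorphism of fields. -/
theorem Reach.push (Θ : F →+* F') (σ : K →+* L) (hΘ : ∀ (k : K) (x : F), Θ (k • x) = σ k • Θ x) :
    ∀ {r : ℕ} {V W : Submodule K F} {V' : Submodule L F'}, Reach K r V W → (∀ v ∈ V, Θ v ∈ V') →
      ∃ W', Reach L r V' W' ∧ ∀ w ∈ W, Θ w ∈ W' := by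
  intro r
  induction r with
  | zero =>
    intro V W V' h hV
    have h2 : W = V := h
    subst h2
    exact ⟨V', rfl, hV⟩
  | succ r ih =>
    intro V W V' h hV
    obtain ⟨W₀, g, h2, ⟨a, ha, c, hc, h3⟩, rfl⟩ := h
    obtain ⟨W', h4, h5⟩ := ih h2 hV
    refine ⟨_, h4.snoc (g := Θ g) ⟨Θ a, h5 a ha, Θ c, h5 c hc, ?_⟩, ?_⟩
    · rcases h3 with h3 | ⟨h3, h3'⟩
      · left; rw [h3, map_mul]
      · right
        exact ⟨(map_ne_zero Θ).2 h3, by rw [← map_mul, h3']⟩
    · intro x hx
      obtain ⟨y, hy, z, hz, rfl⟩ := Submodule.mem_sup.1 hx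
      obtain ⟨k, rfl⟩ := Submodule.mem_span_singleton.1 hz
      rw [map_add, hΘ]
      exact add_mem (Submodule.mem_sup_left (h5 y hy)) (Submodule.mem_sup_right
        (Submodule.smul_mem _ _ (Submodule.subset_span rfl)))

end

/-! ### The theorem of Baur and Strassen -/

section

variable {K : Type u} [Field K] {F : Type v} [Field F] [Algebra K F]

/-- The combinations of the differentials of the elements of `V` with coefficients in `W`. -/
def Rsp (W V : Submodule K F) : Submodule K (Derivation K F F → F) :=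
  Submodule.span K {ξ | ∃ w ∈ W, ∃ v ∈ V, ξ = fun D => w * D v}

theorem Rsp_mono {W W' V : Submodule K F} (h : W ≤ W') : Rsp W V ≤ Rsp W' V := by
  refine Submodule.span_mono ?_
  rintro ξ ⟨w, hw, v, hv, rfl⟩
  exact ⟨w, h hw, v, hv, rfl⟩

theorem mem_Rsp {W V : Submodule K F} {w v : F} (hw : w ∈ W) (hv : v ∈ V) :
    (fun D : Derivation K F F => w * D v) ∈ Rsp W V :=
  Submodule.subset_span ⟨w, hw, v, hv, rfl⟩

/-- Splitting off the last element. -/
theorem Rsp_split {W V : Submodule K F} {g : F} {ξ : Derivation K F F → F}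
    (h : ξ ∈ Rsp W (V ⊔ Submodule.span K {g})) :
    ∃ ξ' ∈ Rsp W V, ∃ l ∈ W, ξ = ξ' + fun D => l * D g := by
  refine Submodule.span_induction (p := fun ξ _ => ∃ ξ' ∈ Rsp W V, ∃ l ∈ W,
    ξ = ξ' + fun D => l * D g) ?_ ?_ ?_ ?_ h
  · rintro _ ⟨w, hw, v, hv, rfl⟩
    obtain ⟨y, hy, z, hz, rfl⟩ := Submodule.mem_sup.1 hv
    obtain ⟨k, rfl⟩ := Submodule.mem_span_singleton.1 hz
    refine ⟨fun D => w * D y, mem_Rsp hw hy, k • w, W.smul_mem k hw, ?_⟩
    funext D
    show w * D (y + k • g) = w * D y + k • w * D g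
    rw [map_add, D.map_smul, mul_add, mul_smul_comm, smul_mul_assoc]
  · exact ⟨0, zero_mem _, 0, zero_mem _, by funext D; simp⟩
  · rintro _ _ _ _ ⟨ξ₁, h1, l₁, hl₁, rfl⟩ ⟨ξ₂, h2, l₂, hl₂, rfl⟩
    refine ⟨ξ₁ + ξ₂, add_mem h1 h2, l₁ + l₂, add_mem hl₁ hl₂, ?_⟩
    funext D
    simp only [Pi.add_apply]
    ring
  · rintro k _ _ ⟨ξ₁, h1, l₁, hl₁, rfl⟩
    refine ⟨k • ξ₁, Submodule.smul_mem _ k h1, k • l₁, W.smul_mem k hl₁, ?_⟩
    funext D
    simp only [Pi.add_apply, Pi.smul_apply, smul_add, smul_mul_assoc]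

theorem bs_aux : ∀ {s : ℕ} {B V : Submodule K F}, Reach K s B V → ∀ {r : ℕ} {W : Submodule K F},
    Reach K r B W → V ≤ W → ∀ ξ ∈ Rsp W V, ∃ W', Reach K (r + 2 * s) B W' ∧ ξ ∈ Rsp W' B := by
  intro s
  induction s with
  | zero =>
    intro B V h r W hW hV ξ hξ
    have h2 : V = B := h
    subst h2
    exact ⟨W, hW, hξ⟩
  | succ s ih =>
    intro B V h r W hW hV ξ hξ
    obtain ⟨V₀, g, h2, ⟨a, ha, c, hc, h3⟩, rfl⟩ := h
    have hV₀ : V₀ ≤ W := le_sup_left.trans hV
    have hgW : g ∈ W := hV (Submodule.mem_sup_right (Submodule.subset_span rfl))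
    obtain ⟨ξ', hξ', l, hl, rfl⟩ := Rsp_split hξ
    have hcount : r + 2 * (s + 1) = (r + 1 + 1) + 2 * s := by ring
    rw [hcount]
    rcases h3 with h3 | ⟨h3, h3'⟩
    · -- a product
      have e1 := hW.snoc (g := l * a) ⟨l, hl, a, hV₀ ha, Or.inl rfl⟩
      have e2 := e1.snoc (g := l * c) ⟨l, Submodule.mem_sup_left hl, c,
        Submodule.mem_sup_left (hV₀ hc), Or.inl rfl⟩
      refine ih h2 e2 ((hV₀.trans le_sup_left).trans le_sup_left) _ ?_
      refine add_mem (Rsp_mono (le_sup_left.trans le_sup_left) hξ') ?_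
      have h4 : (fun D : Derivation K F F => l * D g) =
          (fun D => (l * a) * D c) + fun D => (l * c) * D a := by
        funext D
        simp only [Pi.add_apply]
        rw [h3, D.leibniz, smul_eq_mul, smul_eq_mul]
        ring
      rw [h4]
      exact add_mem (mem_Rsp (Submodule.mem_sup_left (Submodule.mem_sup_right
        (Submodule.subset_span rfl))) hc) (mem_Rsp (Submodule.mem_sup_right
          (Submodule.subset_span rfl)) ha)
    · -- a quotient
      have e1 := hW.snoc (g := l / c) ⟨l, hl, c, hV₀ hc, Or.inr ⟨h3, div_mul_cancel₀ l h3⟩⟩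
      have e2 := e1.snoc (g := l / c * g) ⟨l / c, Submodule.mem_sup_right
        (Submodule.subset_span rfl), g, Submodule.mem_sup_left hgW, Or.inl rfl⟩
      refine ih h2 e2 ((hV₀.trans le_sup_left).trans le_sup_left) _ ?_
      refine add_mem (Rsp_mono (le_sup_left.trans le_sup_left) hξ') ?_
      have h4 : (fun D : Derivation K F F => l * D g) =
          (fun D => (l / c) * D a) + (-1 : K) • fun D => (l / c * g) * D c := by
        funext D
        show l * D g = l / c * D a + (-1 : K) • (l / c * g * D c)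
        have h5 : D a = g * D c + c * D g := by
          rw [← h3', D.leibniz, smul_eq_mul, smul_eq_mul]
        rw [h5, neg_smul, one_smul]
        field_simp
        ring
      rw [h4]
      exact add_mem (mem_Rsp (Submodule.mem_sup_left (Submodule.mem_sup_right
        (Submodule.subset_span rfl))) ha) (Submodule.smul_mem _ _ (mem_Rsp
          (Submodule.mem_sup_right (Submodule.subset_span rfl)) hc))

/-- **The theorem of Baur and Strassen**: all values of derivations which are constant on the
affine forms can be computed with three times as many multiplications and divisions. -/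
theorem Reach.gradient {s : ℕ} {B V : Submodule K F} (h : Reach K s B V) (h1 : (1 : F) ∈ B)
    {f : F} (hf : f ∈ V) : ∃ W, Reach K (3 * s) B W ∧ ∀ D : Derivation K F F,
      (∀ b ∈ B, ∃ k : K, D b = algebraMap K F k) → D f ∈ W := by
  obtain ⟨W, hW, hξ⟩ := bs_aux h h le_rfl (fun D => 1 * D f) (mem_Rsp (h.le h1) hf)
  have hcount : 3 * s = s + 2 * s := by ring
  rw [hcount]
  refine ⟨W, hW, fun D hD => ?_⟩
  have key : ∀ ξ ∈ Rsp W B, ξ D ∈ W := by
    intro ξ hξ
    refine Submodule.span_induction (p := fun ξ _ => ξ D ∈ W) ?_ ?_ ?_ ?_ hξ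
    · rintro _ ⟨w, hw, v, hv, rfl⟩
      obtain ⟨k, hk⟩ := hD v hv
      show w * D v ∈ W
      rw [hk, mul_comm, ← Algebra.smul_def]
      exact W.smul_mem k hw
    · exact zero_mem W
    · intro x y _ _ hx hy
      exact add_mem hx hy
    · intro k x _ hx
      exact W.smul_mem k hx
  have h2 := key _ hξ
  rwa [one_mul] at h2

end

/-! ### Derivations of fraction fields -/

section

variable {K : Type u} [Field K] {A : Type v} [CommRing A] [IsDomain A] [Algebra K A]
  {F : Type v} [Field F] [Algebra K F] [Algebra A F] [IsScalarTower K A F] [IsFractionRing A F]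

/-- Extension of a derivation to the field of fractions. -/
theorem exists_der (D₀ : Derivation K A A) : ∃ D : Derivation K F F,
    ∀ a, D (algebraMap A F a) = algebraMap A F (D₀ a) := by
  let φ : A →+* TrivSqZeroExt F F :=
    { toFun := fun a => TrivSqZeroExt.inl (algebraMap A F a) +
        TrivSqZeroExt.inr (algebraMap A F (D₀ a))
      map_one' := by
        rw [map_one, D₀.map_one_eq_zero, map_zero, TrivSqZeroExt.inr_zero, add_zero,
          TrivSqZeroExt.inl_one]
      map_zero' := by
        rw [map_zero, map_zero, map_zero, TrivSqZeroExt.inr_zero, add_zero,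
          TrivSqZeroExt.inl_zero]
      map_add' := by
        intro x y
        rw [map_add, map_add, map_add, TrivSqZeroExt.inl_add, TrivSqZeroExt.inr_add]
        ring
      map_mul' := by
        intro x y
        rw [D₀.leibniz, smul_eq_mul, smul_eq_mul, map_add, map_mul, map_mul, map_mul]
        refine TrivSqZeroExt.ext ?_ ?_
        · simp only [TrivSqZeroExt.fst_add, TrivSqZeroExt.fst_inl, TrivSqZeroExt.fst_inr,
            TrivSqZeroExt.fst_mul, add_zero]
        · simp only [TrivSqZeroExt.snd_add, TrivSqZeroExt.snd_inl, TrivSqZeroExt.snd_inr,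
            TrivSqZeroExt.snd_mul, TrivSqZeroExt.fst_add, TrivSqZeroExt.fst_inl,
            TrivSqZeroExt.fst_inr, zero_add, add_zero, smul_eq_mul,
            MulOpposite.smul_eq_mul_unop, MulOpposite.unop_op]
          ring }
  have hφ : ∀ y : nonZeroDivisors A, IsUnit (φ y) := by
    intro y
    rw [TrivSqZeroExt.isUnit_iff_isUnit_fst]
    have h1 : TrivSqZeroExt.fst (φ y) = algebraMap A F y := by
      show TrivSqZeroExt.fst (TrivSqZeroExt.inl (algebraMap A F y) +
        TrivSqZeroExt.inr (algebraMap A F (D₀ y))) = _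
      simp
    rw [h1]
    exact IsLocalization.map_units F y
  let ψ : F →+* TrivSqZeroExt F F := IsLocalization.lift hφ
  have hψ : ∀ a, ψ (algebraMap A F a) = φ a := fun a => IsLocalization.lift_eq hφ a
  have hfst : ∀ x, TrivSqZeroExt.fst (ψ x) = x := by
    have h1 : ((TrivSqZeroExt.fstHom F F F : TrivSqZeroExt F F →ₐ[F] F) :
        TrivSqZeroExt F F →+* F).comp ψ = RingHom.id F := by
      apply IsLocalization.ringHom_ext (nonZeroDivisors A)
      ext a
      rw [RingHom.comp_apply, RingHom.comp_apply, RingHom.comp_apply, hψ]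
      show TrivSqZeroExt.fst (TrivSqZeroExt.inl (algebraMap A F a) +
        TrivSqZeroExt.inr (algebraMap A F (D₀ a))) = _
      simp
    intro x
    exact congrArg (fun f : F →+* F => f x) h1
  have hmul : ∀ x y, TrivSqZeroExt.snd (ψ (x * y)) =
      x * TrivSqZeroExt.snd (ψ y) + y * TrivSqZeroExt.snd (ψ x) := by
    intro x y
    rw [map_mul, TrivSqZeroExt.snd_mul, hfst, hfst, smul_eq_mul, MulOpposite.smul_eq_mul_unop,
      MulOpposite.unop_op]
    ring
  let D : F →ₗ[K] F :=
    { toFun := fun x => TrivSqZeroExt.snd (ψ x)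
      map_add' := by
        intro x y
        rw [map_add, TrivSqZeroExt.snd_add]
      map_smul' := by
        intro k x
        rw [Algebra.smul_def, hmul, RingHom.id_apply, IsScalarTower.algebraMap_apply K A F, hψ]
        have h1 : TrivSqZeroExt.snd (φ (algebraMap K A k)) = 0 := by
          show TrivSqZeroExt.snd (TrivSqZeroExt.inl (algebraMap A F (algebraMap K A k)) +
            TrivSqZeroExt.inr (algebraMap A F (D₀ (algebraMap K A k)))) = _
          rw [D₀.map_algebraMap, map_zero]
          simp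
        rw [h1, mul_zero, add_zero, ← IsScalarTower.algebraMap_apply K A F, ← Algebra.smul_def] }
  refine ⟨Derivation.mk' D fun a b => hmul a b, fun a => ?_⟩
  show TrivSqZeroExt.snd (ψ (algebraMap A F a)) = _
  rw [hψ]
  show TrivSqZeroExt.snd (TrivSqZeroExt.inl (algebraMap A F a) +
    TrivSqZeroExt.inr (algebraMap A F (D₀ a))) = _
  rw [TrivSqZeroExt.snd_add, TrivSqZeroExt.snd_inl, TrivSqZeroExt.snd_inr, zero_add]

end

end Pool.Agent.V7H84.SL
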