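import Pool.Agent.V7H84.SL.Eps
import Pool.Agent.V7H84.SL.Rch

/-!
# The degree bound for computations with divisions over `K(ε)`
-/

set_option autoImplicit false

universe u v

namespace Pool.Agent.V7H84.SL

open MvPolynomial Finset Module

section

variable {K : Type u} [Field K]

theorem Bp_map {A : Type v} [CommRing A] [Algebra K A] {σ : Type} (π : MvPolynomial σ K →ₐ[K] A) :
    Bp π = (Bp (AlgHom.id K (MvPolynomial σ K))).map π.toLinearMap := by
  unfold Bp
  rw [Submodule.map_span, Set.image_insert_eq]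
  congr 1
  congr 1
  · exact (map_one π).symm
  · ext x
    constructor
    · rintro ⟨i, rfl⟩
      exact ⟨_, ⟨i, rfl⟩, rfl⟩
    · rintro ⟨_, ⟨i, rfl⟩, rfl⟩
      exact ⟨i, rfl⟩

theorem finrank_Bp_pow' {A : Type v} [CommRing A] [Algebra K A] {σ : Type} [Fintype σ]
    [DecidableEq σ] (π : MvPolynomial σ K →ₐ[K] A) (d : ℕ) :
    finrank K (Bp π ^ d : Submodule K A) ≤ (Vt σ d).card := by
  have h1 : Bp π ^ d = (Bp (AlgHom.id K (MvPolynomial σ K)) ^ d).map π.toLinearMap := by
    rw [Bp_map π]
    exact (Submodule.map_pow _ π d).symm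
  rw [h1]
  have i1 := fd_pow (Bp_fg (AlgHom.id K (MvPolynomial σ K))) d
  exact (Submodule.finrank_map_le _ _).trans (finrank_Bp_pow d)

theorem mem_Bp_pow' {A : Type v} [CommRing A] [Algebra K A] {σ : Type} [Fintype σ]
    (π : MvPolynomial σ K →ₐ[K] A) {f : MvPolynomial σ K} {d : ℕ}
    (hf : f.totalDegree ≤ d) : π f ∈ Bp π ^ d := by
  have h1 : Bp π ^ d = (Bp (AlgHom.id K (MvPolynomial σ K)) ^ d).map π.toLinearMap := by
    rw [Bp_map π]
    exact (Submodule.map_pow _ π d).symm
  rw [h1]
  exact ⟨f, mem_Bp_pow hf, rfl⟩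

/-- **The degree bound** for spaces of bounded growth over `K(ε)` which contain equations with
isolated zeros at `ε = 0`. -/
theorem bezG [Infinite K] {r : ℕ} {σ : Type} [Fintype σ] {A : Type u} [CommRing A] [IsDomain A]
    [Algebra (FractionRing (Polynomial K)) A]
    (π : MvPolynomial σ (FractionRing (Polynomial K)) →ₐ[FractionRing (Polynomial K)] A)
    (hπ : Function.Injective π) {W : Submodule (FractionRing (Polynomial K)) A}
    (hBW : Bp π ≤ W) (hfg : W.FG)
    (hh : ∀ t, finrank (FractionRing (Polynomial K))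
      (W ^ t : Submodule (FractionRing (Polynomial K)) A) ≤
        2 ^ r * finrank (FractionRing (Polynomial K))
          (Bp π ^ (t + r) : Submodule (FractionRing (Polynomial K)) A))
    {S : Finset (σ → K)} (w : σ → MvPolynomial σ (Polynomial K))
    (hw : ∀ i, π (map (algebraMap (Polynomial K) (FractionRing (Polynomial K))) (w i)) ∈ W)
    (h0 : ∀ p ∈ S, ∀ i, eval p (map (ez K) (w i)) = 0)
    (hsurj : ∀ p ∈ S, ∀ u : σ → K, ∃ v, ∀ i, dl p (map (ez K) (w i)) v = u i) :
    S.card ≤ 2 ^ r := by
  classical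
  choose e he using fun p : σ → K => exists_interp S p
  obtain ⟨d0, hd0⟩ : ∃ d0, ∀ p ∈ S, (e p).totalDegree ≤ d0 :=
    ⟨S.sup fun p => (e p).totalDegree, fun p hp =>
      Finset.le_sup (f := fun p => (e p).totalDegree) hp⟩
  have main : ∀ t, S.card * (Vt σ t).card ≤ 2 ^ r * (Vt σ (t + (d0 + r))).card := by
    intro t
    let ι : Finset ((σ → K) × (σ → ℕ)) := S ×ˢ Vt σ t
    let E : ι → MvPolynomial σ (Polynomial K) := fun x =>
      map Polynomial.C (e x.1.1) * ∏ i, w i ^ x.1.2 i
    have hmem : ∀ x : ι, x.1.1 ∈ S ∧ x.1.2 ∈ Vt σ t := fun x => mem_product.1 x.2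
    have hE : ∀ x, map (ez K) (E x) = e x.1.1 * ∏ i, (map (ez K) (w i)) ^ x.1.2 i := by
      intro x
      show map (ez K) (map Polynomial.C (e x.1.1) * ∏ i, w i ^ x.1.2 i) = _
      rw [map_mul, map_prod, MvPolynomial.map_map]
      congr 1
      · have h1 : (ez K).comp Polynomial.C = RingHom.id K := by
          ext a
          exact Polynomial.eval_C
        rw [h1, map_id]
      · refine prod_congr rfl fun i _ => ?_
        rw [map_pow]
    have hli0 : LinearIndependent K fun x => map (ez K) (E x) := by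
      rw [Fintype.linearIndependent_iff]
      intro a ha
      let c : (σ → K) → MvPolynomial σ K := fun p => ∑ α ∈ Vt σ t,
        if hx : (⟨p, α⟩ : (σ → K) × (σ → ℕ)) ∈ ι then
          monomial (Finsupp.equivFunOnFinite.symm α) (a ⟨⟨p, α⟩, hx⟩) else 0
      have hsum : ∑ p ∈ S, e p * MvPolynomial.aeval (fun i => map (ez K) (w i)) (c p) = 0 := by
        rw [← ha]
        have h1 : ∑ x : ι, a x • map (ez K) (E x) =
            ∑ x ∈ ι, if hx : x ∈ ι then a ⟨x, hx⟩ • map (ez K) (E ⟨x, hx⟩) else 0 := by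
          rw [← sum_coe_sort ι]
          refine sum_congr rfl fun x _ => ?_
          rw [dif_pos x.2]
        rw [h1]
        show _ = ∑ x ∈ S ×ˢ Vt σ t, _
        rw [sum_product]
        refine sum_congr rfl fun p hp => ?_
        show e p * MvPolynomial.aeval (fun i => map (ez K) (w i)) (∑ α ∈ Vt σ t, _) = _
        rw [map_sum, mul_sum]
        refine sum_congr rfl fun α hα => ?_
        have hx : (⟨p, α⟩ : (σ → K) × (σ → ℕ)) ∈ ι := mem_product.2 ⟨hp, hα⟩
        rw [dif_pos hx, dif_pos hx, aeval_monomial, hE]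
        rw [Finsupp.prod_fintype _ _ (fun i => pow_zero _), Algebra.smul_def]
        simp only [Finsupp.equivFunOnFinite_symm_apply_apply]
        ring
      have hz := indep (S := S) e (fun p _ => (he p).1) (fun p _ p' hp' hne => (he p).2 p' hp' hne)
        (fun _ i => map (ez K) (w i)) (fun p hp p' hp' i => h0 p' hp' i)
        (fun p hp => hsurj p hp) c hsum
      intro x
      obtain ⟨hx1, hx2⟩ := hmem x
      have h3 := congrArg (coeff (Finsupp.equivFunOnFinite.symm x.1.2)) (hz x.1.1 hx1)
      rw [coeff_zero] at h3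
      rw [← h3]
      show _ = coeff _ (∑ α ∈ Vt σ t, _)
      rw [coeff_sum, sum_eq_single x.1.2]
      · have hx : (⟨x.1.1, x.1.2⟩ : (σ → K) × (σ → ℕ)) ∈ ι := x.2
        rw [dif_pos hx, coeff_monomial, if_pos rfl]
      · intro α _ hne
        split_ifs with hx
        · rw [coeff_monomial, if_neg]
          intro h4
          exact hne (Finsupp.equivFunOnFinite.symm.injective h4)
        · exact coeff_zero _
      · intro h4; exact absurd hx2 h4
    have hli := (li_lift E hli0).map' π.toLinearMap (LinearMap.ker_eq_bot.2 hπ)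
    have hspan : Submodule.span (FractionRing (Polynomial K)) (Set.range fun x =>
        π (map (algebraMap (Polynomial K) (FractionRing (Polynomial K))) (E x))) ≤
          W ^ (t + d0) := by
      rw [Submodule.span_le]
      rintro _ ⟨x, rfl⟩
      obtain ⟨hx1, hx2⟩ := hmem x
      show π (map (algebraMap (Polynomial K) (FractionRing (Polynomial K)))
        (map Polynomial.C (e x.1.1) * ∏ i, w i ^ x.1.2 i)) ∈ W ^ (t + d0)
      rw [map_mul, map_mul, map_prod, map_prod, add_comm t d0, pow_add]
      refine Submodule.mul_mem_mul ?_ ?_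
      · refine pow_le_pow_left' hBW d0 (mem_Bp_pow' π ?_)
        exact (totalDegree_map_le' _ _).trans ((totalDegree_map_le' _ _).trans (hd0 _ hx1))
      · rw [mem_Vt] at hx2
        refine pow_mono_of_one (hBW (one_mem_Bp _)) hx2 ?_
        simp only [map_pow]
        exact prod_mem_pow _ _ hw _ _
    have i1 := fd_pow hfg (t + d0)
    have h4 := Submodule.finrank_mono hspan
    have h5 : (Set.range fun x => π (map (algebraMap (Polynomial K)
        (FractionRing (Polynomial K))) (E x))) = Set.range (π.toLinearMap ∘ fun x =>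
          map (algebraMap (Polynomial K) (FractionRing (Polynomial K))) (E x)) := rfl
    rw [h5, finrank_span_eq_card hli, Fintype.card_coe, card_product] at h4
    refine h4.trans ((hh (t + d0)).trans (Nat.mul_le_mul_left _ ?_))
    rw [add_assoc]
    exact finrank_Bp_pow' _ _
  by_contra hcon
  push Not at hcon
  have iter : ∀ k : ℕ, S.card ^ k ≤ (2 ^ r) ^ k * (Vt σ (k * (d0 + r))).card := by
    intro k
    induction k with
    | zero =>
      rw [pow_zero, pow_zero, one_mul]
      refine Nat.succ_le_of_lt (card_pos.2 ?_)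
      exact ⟨fun _ => 0, mem_Vt.2 (by simp)⟩
    | succ k ih =>
      calc S.card ^ (k + 1) = S.card * S.card ^ k := by rw [pow_succ, mul_comm]
        _ ≤ S.card * ((2 ^ r) ^ k * (Vt σ (k * (d0 + r))).card) := Nat.mul_le_mul_left _ ih
        _ = (2 ^ r) ^ k * (S.card * (Vt σ (k * (d0 + r))).card) := by ring
        _ ≤ (2 ^ r) ^ k * (2 ^ r * (Vt σ (k * (d0 + r) + (d0 + r))).card) :=
            Nat.mul_le_mul_left _ (main _)
        _ = (2 ^ r) ^ (k + 1) * (Vt σ ((k + 1) * (d0 + r))).card := by
            rw [pow_succ, Nat.succ_mul]; ring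
  exact growth _ _ (d0 + r) (Fintype.card σ) hcon fun k =>
    (iter k).trans (Nat.mul_le_mul_left _ (card_Vt_le _))

end

end Pool.Agent.V7H84.SL
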