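import Pool.Agent.V7H84.SL.Hilb2
import Pool.Agent.V7H84.SL.Rch

/-!
# Computations in fields of rational functions
-/

set_option autoImplicit false
set_option linter.unusedSectionVars false

universe u v w

namespace Pool.Agent.V7H84.SL

open MvPolynomial Finset Module

/-- The polynomials as rational functions. -/
noncomputable def pf (K : Type u) [Field K] (τ : Type) :
    MvPolynomial τ K →ₐ[K] FractionRing (MvPolynomial τ K) :=
  IsScalarTower.toAlgHom K (MvPolynomial τ K) (FractionRing (MvPolynomial τ K))

theorem pf_apply (K : Type u) [Field K] (τ : Type) (f : MvPolynomial τ K) :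
    pf K τ f = algebraMap (MvPolynomial τ K) (FractionRing (MvPolynomial τ K)) f := rfl

theorem pf_injective (K : Type u) [Field K] (τ : Type) : Function.Injective (pf K τ) :=
  IsFractionRing.injective (MvPolynomial τ K) (FractionRing (MvPolynomial τ K))

/-- Transport of a computation of rational functions. -/
theorem push_frac {K : Type u} [Field K] {L : Type w} [Field L] (l : K →+* L) {τ τ' : Type}
    (Φ : MvPolynomial τ K →+* MvPolynomial τ' L) (hC : ∀ k, Φ (C k) = C (l k))
    (hX : ∀ i, (Φ (X i)).totalDegree ≤ 1) (hinj : Function.Injective Φ) {r : ℕ}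
    {W : Submodule K (FractionRing (MvPolynomial τ K))} (h : Reach K r (Bp (pf K τ)) W) :
    ∃ W' : Submodule L (FractionRing (MvPolynomial τ' L)), Reach L r (Bp (pf L τ')) W' ∧
      ∀ f, pf K τ f ∈ W → pf L τ' (Φ f) ∈ W' := by
  let Ψ : MvPolynomial τ K →+* FractionRing (MvPolynomial τ' L) :=
    (algebraMap (MvPolynomial τ' L) (FractionRing (MvPolynomial τ' L))).comp Φ
  have hΨ : Function.Injective Ψ :=
    (IsFractionRing.injective (MvPolynomial τ' L) (FractionRing (MvPolynomial τ' L))).comp hinj
  let Θ : FractionRing (MvPolynomial τ K) →+* FractionRing (MvPolynomial τ' L) :=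
    IsFractionRing.lift hΨ
  have hΘ : ∀ f, Θ (pf K τ f) = pf L τ' (Φ f) := fun f => IsFractionRing.lift_algebraMap hΨ f
  have hsm : ∀ (k : K) (x : FractionRing (MvPolynomial τ K)), Θ (k • x) = l k • Θ x := by
    intro k x
    have h1 : k • x = pf K τ (C k) * x := by
      rw [Algebra.smul_def]; rfl
    have h2 : l k • Θ x = pf L τ' (C (l k)) * Θ x := by
      rw [Algebra.smul_def]; rfl
    rw [h1, h2, map_mul, hΘ, hC]
  obtain ⟨W', h1, h2⟩ := h.push Θ l hsm (V' := Bp (pf L τ')) (by
    intro v hv
    refine Submodule.span_induction (p := fun v _ => Θ v ∈ Bp (pf L τ')) ?_ ?_ ?_ ?_ hv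
    · rintro x (rfl | ⟨i, rfl⟩)
      · rw [map_one]; exact one_mem_Bp _
      · show Θ (pf K τ (X i)) ∈ _
        rw [hΘ]
        exact aff_mem_Bp _ (hX i)
    · rw [map_zero]; exact zero_mem _
    · intro x y _ _ hx hy
      rw [map_add]
      exact add_mem hx hy
    · intro k x _ hx
      rw [hsm]
      exact Submodule.smul_mem _ _ hx)
  exact ⟨W', h1, fun f hf => by rw [← hΘ]; exact h2 _ hf⟩

/-- The gradient of a rational computation of a polynomial. -/
theorem grad_frac {K : Type u} [Field K] {τ : Type} {s : ℕ}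
    {W : Submodule K (FractionRing (MvPolynomial τ K))} (h : Reach K s (Bp (pf K τ)) W)
    {P : MvPolynomial τ K} (hP : pf K τ P ∈ W) :
    ∃ W' : Submodule K (FractionRing (MvPolynomial τ K)), Reach K (3 * s) (Bp (pf K τ)) W' ∧
      ∀ x, pf K τ (pderiv x P) ∈ W' := by
  classical
  obtain ⟨W', h1, h2⟩ := h.gradient (one_mem_Bp _) hP
  refine ⟨W', h1, fun x => ?_⟩
  obtain ⟨D, hD⟩ := exists_der (F := FractionRing (MvPolynomial τ K))
    (pderiv x : Derivation K (MvPolynomial τ K) (MvPolynomial τ K))
  have h3 := h2 D (by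
    intro b hb
    refine Submodule.span_induction (p := fun b _ => ∃ k : K, D b = algebraMap K _ k)
      ?_ ?_ ?_ ?_ hb
    · rintro y (rfl | ⟨i, rfl⟩)
      · exact ⟨0, by rw [D.map_one_eq_zero, map_zero]⟩
      · refine ⟨(Pi.single x 1 : τ → K) i, ?_⟩
        show D (algebraMap _ _ (X i)) = _
        rw [hD, pderiv_X]
        rw [IsScalarTower.algebraMap_apply K (MvPolynomial τ K)
          (FractionRing (MvPolynomial τ K))]
        congr 1
        by_cases hxi : i = x
        · subst hxi
          rw [Pi.single_eq_same, Pi.single_eq_same, map_one]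
        · rw [Pi.single_eq_of_ne hxi, Pi.single_eq_of_ne hxi, map_zero]
    · exact ⟨0, by rw [map_zero, map_zero]⟩
    · rintro y z _ _ ⟨k, hk⟩ ⟨k', hk'⟩
      exact ⟨k + k', by rw [map_add, hk, hk', map_add]⟩
    · rintro a y _ ⟨k, hk⟩
      exact ⟨a * k, by rw [D.map_smul, hk, Algebra.smul_def, map_mul]⟩)
  have h4 : D (pf K τ P) = pf K τ (pderiv x P) := hD P
  rw [h4] at h3
  exact h3

/-- A sequence of multiplications and divisions. -/
theorem reach_of_seq {K : Type u} [Field K] {F : Type v} [Field F] [Algebra K F]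
    (V : Submodule K F) {s : ℕ} (g : Fin s → F)
    (h : ∀ i, ∃ a ∈ V ⊔ Submodule.span K (g '' {j | j < i}),
      ∃ c ∈ V ⊔ Submodule.span K (g '' {j | j < i}), g i = a * c ∨ (c ≠ 0 ∧ g i * c = a)) :
    Reach K s V (V ⊔ Submodule.span K (Set.range g)) := by
  have key : ∀ k ≤ s, Reach K k V (V ⊔ Submodule.span K (g '' {j | j.val < k})) := by
    intro k
    induction k with
    | zero =>
      intro _
      have h1 : (g '' {j : Fin s | j.val < 0}) = ∅ := by
        rw [Set.image_eq_empty]
        ext j
        simp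
      show V ⊔ Submodule.span K (g '' {j : Fin s | j.val < 0}) = V
      rw [h1, Submodule.span_empty, sup_bot_eq]
    | succ k ih =>
      intro hk
      obtain ⟨i, hi⟩ : ∃ i : Fin s, i = ⟨k, hk⟩ := ⟨_, rfl⟩
      have h1 := ih (Nat.le_of_succ_le hk)
      have hset : {j : Fin s | j < i} = {j : Fin s | j.val < k} := by
        ext j
        show j < i ↔ j.val < k
        rw [hi]
        exact Iff.rfl
      have h3 := h i
      rw [hset] at h3
      have h2 := h1.snoc h3
      have h4 : V ⊔ Submodule.span K (g '' {j : Fin s | j.val < k + 1}) =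
          V ⊔ Submodule.span K (g '' {j : Fin s | j.val < k}) ⊔ Submodule.span K {g i} := by
        have h5 : (g '' {j : Fin s | j.val < k + 1}) =
            (g '' {j : Fin s | j.val < k}) ∪ {g i} := by
          ext y
          constructor
          · rintro ⟨j, hj, rfl⟩
            rcases Nat.lt_succ_iff_lt_or_eq.1 hj with hj | hj
            · exact Or.inl ⟨j, hj, rfl⟩
            · right
              have : j = i := by rw [hi]; exact Fin.ext hj
              rw [this]
              rfl
          · rintro (⟨j, hj, rfl⟩ | hy)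
            · exact ⟨j, Nat.lt_succ_of_lt hj, rfl⟩
            · rw [Set.mem_singleton_iff] at hy
              rw [hy]
              exact ⟨i, by rw [hi]; exact Nat.lt_succ_self k, rfl⟩
        rw [h5, Submodule.span_union, sup_assoc]
      rw [h4]
      exact h2
  have h6 := key s le_rfl
  have h7 : (g '' {j : Fin s | j.val < s}) = Set.range g := by
    ext y
    constructor
    · rintro ⟨j, -, rfl⟩; exact ⟨j, rfl⟩
    · rintro ⟨j, rfl⟩; exact ⟨j, j.2, rfl⟩
  rw [h7] at h6
  exact h6

end Pool.Agent.V7H84.SL
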