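import Pool.Agent.V7H84.SL.Sys
import Pool.Agent.V7H84.SL.Eps2
import Pool.Agent.V7H84.SL.Frc

/-!
# The lower bound for one choice of the parameters
-/

set_option autoImplicit false
set_option linter.unusedSectionVars false

universe u

namespace Pool.Agent.V7H84.SL

open MvPolynomial Finset Module

section

variable {R : Type u} [CommRing R]

/-- Substitutions which agree modulo `a`. -/
theorem aeval_mod {σ τ : Type} (a : R) (ψ ψ' : σ → MvPolynomial τ R)
    (h : ∀ x, ∃ u, ψ x = ψ' x + C a * u) (f : MvPolynomial σ R) :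
    ∃ U, aeval ψ f = aeval ψ' f + C a * U := by
  induction f using MvPolynomial.induction_on with
  | C b =>
    refine ⟨0, ?_⟩
    have h1 : aeval ψ (C b) = C b := (aeval ψ).commutes b
    have h2 : aeval ψ' (C b) = C b := (aeval ψ').commutes b
    rw [h1, h2, mul_zero, add_zero]
  | add f g hf hg =>
    obtain ⟨U, hU⟩ := hf
    obtain ⟨U', hU'⟩ := hg
    exact ⟨U + U', by rw [map_add, map_add, hU, hU']; ring⟩
  | mul_X f i hf =>
    obtain ⟨U, hU⟩ := hf
    obtain ⟨u, hu⟩ := h i
    exact ⟨U * ψ' i + aeval ψ' f * u + C a * U * u, by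
      rw [map_mul, map_mul, aeval_X, aeval_X, hU, hu]; ring⟩

end

section

variable {L : Type u} [Field L]

/-- A substitution which is injective because it contains free variables. -/
theorem inj_subst {σ τ : Type} (φ : τ → MvPolynomial σ L) (e : L) (he : e ≠ 0) :
    Function.Injective (aeval (R := L) fun x : τ => (rename Sum.inl (φ x) + C e * X (Sum.inr x) :
      MvPolynomial (σ ⊕ τ) L)) := by
  let ρ : MvPolynomial (σ ⊕ τ) L →ₐ[L] MvPolynomial τ L :=
    aeval (Sum.elim (fun _ => 0) fun x => C e⁻¹ * (X x - C (constantCoeff (φ x))))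
  have h1 : ∀ f : MvPolynomial σ L, ρ (rename Sum.inl f) = C (constantCoeff f) := by
    intro f
    show aeval _ (rename Sum.inl f) = _
    rw [aeval_rename]
    have : (Sum.elim (fun _ => 0) (fun x => C e⁻¹ * (X x - C (constantCoeff (φ x)))) :
      σ ⊕ τ → MvPolynomial τ L) ∘ Sum.inl = fun _ => 0 := rfl
    rw [this, aeval_zero']
    rfl
  have h2 : ρ.comp (aeval (R := L) fun x : τ => (rename Sum.inl (φ x) + C e * X (Sum.inr x) :
      MvPolynomial (σ ⊕ τ) L)) = AlgHom.id L _ := by
    apply MvPolynomial.algHom_ext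
    intro x
    rw [AlgHom.comp_apply, aeval_X, map_add, h1, map_mul]
    have h3 : ρ (C e) = C e := ρ.commutes e
    have h4 : ρ (X (Sum.inr x)) = C e⁻¹ * (X x - C (constantCoeff (φ x))) := aeval_X _ _
    rw [h3, h4, ← mul_assoc, ← map_mul, mul_inv_cancel₀ he, C_1, one_mul, AlgHom.id_apply]
    ring
  intro f g hfg
  have h3 := congrArg ρ hfg
  rw [← AlgHom.comp_apply, ← AlgHom.comp_apply, h2] at h3
  exact h3

end

section

variable {K : Type u} [Field K]

theorem dl_lin {σ : Type} [Fintype σ] (p v : σ → K) (a b : K) (f : MvPolynomial σ K) :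
    dl p (C a * f - C b) v = a * dl p f v := by
  rw [dl_apply, dl_apply, mul_sum]
  refine sum_congr rfl fun i _ => ?_
  rw [map_sub, pderiv_C, Derivation.leibniz, pderiv_C, smul_zero, add_zero, sub_zero, smul_eq_mul,
    map_mul, eval_C]
  ring

theorem dl_X {σ : Type} [Fintype σ] (p v : σ → K) (i : σ) : dl p (X i) v = v i := by
  rw [← snd_dn]
  have : dn p v (X i) = TrivSqZeroExt.inl (p i) + TrivSqZeroExt.inr (v i) := aeval_X _ _
  rw [this, TrivSqZeroExt.snd_add, TrivSqZeroExt.snd_inl, TrivSqZeroExt.snd_inr, zero_add]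

/-- The points. -/
noncomputable def pts {g r n : ℕ} (ξ : Fin r → K)
    (π : (Fin g × Fin g) × Fin r → Equiv.Perm (Fin r)) : Tt g r ⊕ (Fin n × Fin n) → K :=
  Sum.elim (fun y => ξ (π (y.1, y.2.2) y.2.1)) fun _ => 0

theorem pts_injective {g r n : ℕ} (ξ : Fin r → K) (hξ : Function.Injective ξ) :
    Function.Injective (pts (g := g) (n := n) ξ) := by
  intro π π' h
  funext x
  ext i
  have h1 := congrFun h (Sum.inl (x.1, (i, x.2)))
  exact congrArg Fin.val (hξ h1)

/-- **The lower bound for one choice of the parameters.** -/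
theorem core [Infinite K] (h2 : (2 : K) ≠ 0) {n g r M : ℕ} (hr : 1 ≤ r)
    (hn : 12 * r * (2 * g + r * r) + 6 * r ≤ n) (hM : r * (r * r) < M)
    (H : MvPolynomial (Fin n × Fin n) (Polynomial K)) {s : ℕ}
    {W : Submodule (FractionRing (Polynomial K))
      (FractionRing (MvPolynomial (Fin n × Fin n) (FractionRing (Polynomial K))))}
    (hW : Reach (FractionRing (Polynomial K)) s
      (Bp (pf (FractionRing (Polynomial K)) (Fin n × Fin n))) W)
    (hP : pf (FractionRing (Polynomial K)) (Fin n × Fin n)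
      (map (algebraMap (Polynomial K) (FractionRing (Polynomial K)))
        (Matrix.permanent (Matrix.of fun i j : Fin n => (X (i, j) :
          MvPolynomial (Fin n × Fin n) (Polynomial K))) + C (Polynomial.X ^ M) * H)) ∈ W) :
    r.factorial ^ (g * g * r) ≤ 2 ^ (3 * s) := by
  classical
  obtain ⟨P₀, hP₀⟩ : ∃ P₀, P₀ = Matrix.permanent (Matrix.of fun i j : Fin n => (X (i, j) :
    MvPolynomial (Fin n × Fin n) (Polynomial K))) := ⟨_, rfl⟩
  rw [← hP₀] at hP
  -- generic elements of the ground field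
  let emb := Infinite.natEmbedding K
  let ξ : Fin r → K := fun i => emb i.val
  have hξ : Function.Injective ξ := fun i j h => Fin.ext (emb.injective h)
  -- the identity
  choose E hE using fun δ : Fin r => exists_win δ
  obtain ⟨φ, hφ, c, N, hid⟩ := grd_id (K := Polynomial K) (g := g) hr hn
    (fun γ β i j => zR (K := K) γ β i j) (fun γ β i j => zR_deg γ β i j) E (wR ξ)
  rw [← hP₀] at hid
  -- the gradient
  obtain ⟨W₁, hW₁, hgr⟩ := grad_frac hW hP
  -- the substitution
  let ψ : Fin n × Fin n → MvPolynomial (Tt g r ⊕ (Fin n × Fin n)) (Polynomial K) := fun x =>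
    rename Sum.inl (φ x) + C (Polynomial.X ^ M) * X (Sum.inr x)
  obtain ⟨ι, hι⟩ : ∃ ι, ι = algebraMap (Polynomial K) (FractionRing (Polynomial K)) := ⟨_, rfl⟩
  have hιi : Function.Injective ι := by
    rw [hι]; exact IsFractionRing.injective (Polynomial K) _
  have hιne : ∀ a, a ≠ 0 → ι a ≠ 0 := fun a ha h => ha (hιi (by rw [h, map_zero]))
  have hXne : ∀ k : ℕ, (Polynomial.X : Polynomial K) ^ k ≠ 0 := fun k =>
    pow_ne_zero _ Polynomial.X_ne_zero
  let ψL : Fin n × Fin n → MvPolynomial (Tt g r ⊕ (Fin n × Fin n)) (FractionRing (Polynomial K)) :=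
    fun x => rename Sum.inl (map ι (φ x)) + C (ι (Polynomial.X ^ M)) * X (Sum.inr x)
  have hψL : ∀ x, ψL x = map ι (ψ x) := by
    intro x
    show rename Sum.inl (map ι (φ x)) + C (ι (Polynomial.X ^ M)) * X (Sum.inr x) =
      map ι (rename Sum.inl (φ x) + C (Polynomial.X ^ M) * X (Sum.inr x))
    rw [map_add, map_mul, map_C, map_X, map_rename]
  have hsub : ∀ f : MvPolynomial (Fin n × Fin n) (Polynomial K),
      aeval ψL (map ι f) = map ι (aeval ψ f) := by
    intro f
    induction f using MvPolynomial.induction_on with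
    | C a =>
      have e1 : aeval ψ (C a) = C a := (aeval ψ).commutes a
      have e2 : aeval ψL (C (ι a)) = C (ι a) := (aeval ψL).commutes _
      rw [map_C, e1, e2, map_C]
    | add f g hf hg => rw [map_add, map_add, hf, hg, map_add, map_add]
    | mul_X f x hf => rw [map_mul, map_mul, hf, map_X, aeval_X, map_mul, aeval_X, map_mul, hψL]
  obtain ⟨W₂, hW₂, hpush⟩ := push_frac (RingHom.id (FractionRing (Polynomial K)))
    (aeval (R := FractionRing (Polynomial K)) ψL : MvPolynomial (Fin n × Fin n)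
      (FractionRing (Polynomial K)) →+* MvPolynomial (Tt g r ⊕ (Fin n × Fin n))
        (FractionRing (Polynomial K)))
    (fun k => (aeval ψL).commutes k) (by
      intro x
      show (aeval ψL (X x)).totalDegree ≤ 1
      rw [aeval_X, hψL]
      refine (totalDegree_map_le' _ _).trans ((totalDegree_add _ _).trans (max_le ?_ ?_))
      · exact (totalDegree_rename_le _ _).trans (hφ x)
      · refine (totalDegree_mul _ _).trans ?_
        rw [totalDegree_C, totalDegree_X])
    (inj_subst (fun x => map ι (φ x)) _ (hιne _ (hXne M))) hW₁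
  -- the equations
  have hd : ∀ t : Tt g r, r * t.2.1.val ^ 2 < M := by
    intro t
    refine lt_of_le_of_lt (Nat.mul_le_mul_left _ ?_) hM
    have := t.2.1.2
    rw [pow_two]
    exact Nat.mul_le_mul this.le this.le
  have hQ : ∀ t : Tt g r, ∃ U, ∑ x, C (c t x) * aeval ψ (pderiv x (P₀ + C (Polynomial.X ^ M) * H)) =
      rename Sum.inl (C ((-4 : Polynomial K) ^ N) * (C (Polynomial.X ^ (r * t.2.1.val ^ 2)) *
        per (bm ξ t))) + C (Polynomial.X ^ M) * U := by
    intro t
    have h3 : ∀ x, ∃ U, aeval ψ (pderiv x (P₀ + C (Polynomial.X ^ M) * H)) =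
        rename Sum.inl (aeval φ (pderiv x P₀)) + C (Polynomial.X ^ M) * U := by
      intro x
      obtain ⟨U, hU⟩ := aeval_mod (Polynomial.X ^ M) ψ (fun x => rename Sum.inl (φ x))
        (fun x => ⟨X (Sum.inr x), rfl⟩) (pderiv x P₀)
      have e1 : aeval ψ (C (Polynomial.X ^ M)) = C (Polynomial.X ^ M) := (aeval ψ).commutes _
      have e2 : aeval (fun x => (rename Sum.inl (φ x) : MvPolynomial (Tt g r ⊕ (Fin n × Fin n))
          (Polynomial K))) (pderiv x P₀) = rename Sum.inl (aeval φ (pderiv x P₀)) := by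
        rw [← AlgHom.comp_apply]
        congr 1
        apply MvPolynomial.algHom_ext
        intro y
        rw [AlgHom.comp_apply, aeval_X, aeval_X]
      refine ⟨U + aeval ψ (pderiv x H), ?_⟩
      rw [map_add, Derivation.leibniz, pderiv_C, smul_zero, add_zero, smul_eq_mul, map_add,
        map_mul, e1, hU, e2]
      ring
    choose U hU using h3
    refine ⟨∑ x, C (c t x) * U x, ?_⟩
    have h4 := congrArg (rename Sum.inl : MvPolynomial (Tt g r) (Polynomial K) →
      MvPolynomial (Tt g r ⊕ (Fin n × Fin n)) (Polynomial K)) (hid t)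
    rw [qt_eq ξ E hE t, map_sum] at h4
    rw [← h4, mul_sum, ← sum_add_distrib]
    refine sum_congr rfl fun x _ => ?_
    rw [hU, map_mul, rename_C]
    ring
  choose U hU using hQ
  let c' : Fin r → K := fun s => ∏ i, (ξ i + ξ s)
  let w : Tt g r ⊕ (Fin n × Fin n) → MvPolynomial (Tt g r ⊕ (Fin n × Fin n)) (Polynomial K) :=
    Sum.elim (fun t => rename Sum.inl (C ((-4 : Polynomial K) ^ N) * per (bm ξ t)) +
      C (Polynomial.X ^ (M - r * t.2.1.val ^ 2)) * U t -
        C ((-4 : Polynomial K) ^ N * Polynomial.C (c' t.2.2))) fun x => X (Sum.inr x)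
  have hwQ : ∀ t : Tt g r, C (Polynomial.X ^ (r * t.2.1.val ^ 2)) * w (Sum.inl t) =
      (∑ x, C (c t x) * aeval ψ (pderiv x (P₀ + C (Polynomial.X ^ M) * H))) -
        C (Polynomial.X ^ (r * t.2.1.val ^ 2) * ((-4 : Polynomial K) ^ N *
          Polynomial.C (c' t.2.2))) := by
    intro t
    rw [hU]
    show C (Polynomial.X ^ (r * t.2.1.val ^ 2)) * (rename Sum.inl (C ((-4 : Polynomial K) ^ N) *
      per (bm ξ t)) + C (Polynomial.X ^ (M - r * t.2.1.val ^ 2)) * U t -
        C ((-4 : Polynomial K) ^ N * Polynomial.C (c' t.2.2))) = _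
    have e1 : (C (Polynomial.X ^ M) : MvPolynomial (Tt g r ⊕ (Fin n × Fin n)) (Polynomial K)) =
        C (Polynomial.X ^ (r * t.2.1.val ^ 2)) * C (Polynomial.X ^ (M - r * t.2.1.val ^ 2)) := by
      rw [← map_mul, ← pow_add, Nat.add_sub_cancel' (hd t).le]
    rw [e1]
    simp only [map_mul, rename_C]
    ring
  have hwW : ∀ i, pf (FractionRing (Polynomial K)) _ (map ι (w i)) ∈ W₂ := by
    rintro (t | x)
    · have h3 := congrArg (map ι) (hwQ t)
      rw [map_mul, map_C, map_sub, map_sum, map_C] at h3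
      have h4 : map ι (w (Sum.inl t)) = C (ι (Polynomial.X ^ (r * t.2.1.val ^ 2)))⁻¹ *
          ((∑ x, map ι (C (c t x) * aeval ψ (pderiv x (P₀ + C (Polynomial.X ^ M) * H)))) -
            C (ι (Polynomial.X ^ (r * t.2.1.val ^ 2) * ((-4 : Polynomial K) ^ N *
              Polynomial.C (c' t.2.2))))) := by
        rw [← h3, ← mul_assoc, ← map_mul, inv_mul_cancel₀ (hιne _ (hXne _)), C_1, one_mul]
      rw [h4, ← smul_eq_C_mul, map_smul, map_sub, map_sum]
      refine Submodule.smul_mem _ _ (sub_mem (Submodule.sum_mem _ fun x _ => ?_) ?_)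
      · rw [map_mul, map_C, ← smul_eq_C_mul, map_smul, ← hsub]
        refine Submodule.smul_mem _ _ ?_
        refine hpush _ ?_
        have h5 := hgr x
        rw [← hι] at h5
        have h6 : pderiv x (map ι (P₀ + C (Polynomial.X ^ M) * H)) =
            map ι (pderiv x (P₀ + C (Polynomial.X ^ M) * H)) := pderiv_map
        rw [h6] at h5
        exact h5
      · refine hW₂.le (aff_mem_Bp _ ?_)
        rw [totalDegree_C]; exact Nat.zero_le _
    · show pf _ _ (map ι (X (Sum.inr x))) ∈ W₂
      rw [map_X]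
      exact hW₂.le (X_mem_Bp _ _)
  -- the values at zero
  have hw0 : ∀ t : Tt g r, map (ez K) (w (Sum.inl t)) = C ((-4 : K) ^ N) *
      (∏ i, (X (Sum.inl (t.1, (i, t.2.1))) + C (ξ t.2.2))) - C ((-4 : K) ^ N * c' t.2.2) := by
    intro t
    show map (ez K) (rename Sum.inl (C ((-4 : Polynomial K) ^ N) * per (bm ξ t)) +
      C (Polynomial.X ^ (M - r * t.2.1.val ^ 2)) * U t -
        C ((-4 : Polynomial K) ^ N * Polynomial.C (c' t.2.2))) = _
    have e1 : ez K ((-4 : Polynomial K) ^ N) = (-4 : K) ^ N := by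
      rw [map_pow, map_neg, map_ofNat]
    have e2 : ez K (Polynomial.X ^ (M - r * t.2.1.val ^ 2)) = 0 := by
      rw [map_pow]
      have : ez K Polynomial.X = 0 := Polynomial.eval_X
      rw [this]
      exact zero_pow (by have := hd t; omega)
    have e3 : ez K (Polynomial.C (c' t.2.2)) = c' t.2.2 := Polynomial.eval_C
    rw [map_sub, map_add, map_mul (map (ez K)), map_C, map_C, e2, C_0, zero_mul, add_zero,
      map_rename, map_mul (map (ez K)), map_C, e1, bm_zero, map_mul (ez K), e1, e3, map_mul,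
      rename_C, map_prod]
    congr 2
    refine prod_congr rfl fun i _ => ?_
    rw [map_add, rename_X, rename_C]
  have hw0' : ∀ x : Fin n × Fin n, map (ez K) (w (Sum.inr x)) =
      (X (Sum.inr x) : MvPolynomial (Tt g r ⊕ (Fin n × Fin n)) K) := fun x => map_X _ _
  have h4ne : (-4 : K) ^ N ≠ 0 := by
    refine pow_ne_zero _ (neg_ne_zero.2 ?_)
    have : (4 : K) = 2 * 2 := by norm_num
    rw [this]
    exact mul_ne_zero h2 h2
  -- conclusion
  obtain ⟨hfg, hh⟩ := hW₂.hilb (Bp_fg _) (one_mem_Bp _)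
  rw [hι] at hwW
  have hS := bezG (pf (FractionRing (Polynomial K)) (Tt g r ⊕ (Fin n × Fin n))) (pf_injective _ _)
    hW₂.le hfg hh (S := univ.image (pts (g := g) (n := n) ξ)) w hwW
    (by
      intro p hp i
      obtain ⟨π, -, rfl⟩ := mem_image.1 hp
      rcases i with t | x
      · rw [hw0, map_sub, map_mul, eval_C, eval_C, map_prod, sub_eq_zero]
        congr 1
        show ∏ i, eval (pts ξ π) (X (Sum.inl (t.1, (i, t.2.1))) + C (ξ t.2.2)) =
          ∏ i, (ξ i + ξ t.2.2)
        rw [← Equiv.prod_comp (π (t.1, t.2.1)) fun i => (ξ i + ξ t.2.2)]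
        refine prod_congr rfl fun i _ => ?_
        rw [map_add, eval_X, eval_C]
        rfl
      · rw [hw0', eval_X]
        rfl)
    (by
      intro p hp
      obtain ⟨π, -, rfl⟩ := mem_image.1 hp
      let T : (Tt g r ⊕ (Fin n × Fin n) → K) →ₗ[K] (Tt g r ⊕ (Fin n × Fin n) → K) :=
        LinearMap.pi fun i => dl (pts ξ π) (map (ez K) (w i))
      have hT : Function.Injective T := by
        rw [injective_iff_map_eq_zero]
        intro v hv
        have hv1 : ∀ i, dl (pts ξ π) (map (ez K) (w i)) v = 0 := fun i => congrFun hv i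
        funext y
        rcases y with ⟨cc, i, δ⟩ | x
        · have h5 := interp (fun i => ξ (π (cc, δ) i)) ξ (fun i => v (Sum.inl (cc, (i, δ))))
            (fun i j h => (π (cc, δ)).injective (hξ h)) hξ (by
              intro s
              have h6 := hv1 (Sum.inl (cc, (δ, s)))
              rw [hw0, dl_lin] at h6
              have h7 := (mul_eq_zero.1 h6).resolve_left h4ne
              rw [dl_prod (pts ξ π) v (fun i => Sum.inl (cc, (i, δ))) (ξ s)] at h7
              exact h7)
          exact congrFun h5 i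
        · have h5 := hv1 (Sum.inr x)
          rw [hw0', dl_X] at h5
          exact h5
      intro u
      obtain ⟨v, hv⟩ := LinearMap.injective_iff_surjective.1 hT u
      exact ⟨v, fun i => congrFun hv i⟩)
  rw [card_image_of_injective _ (pts_injective ξ hξ), card_univ, Fintype.card_fun,
    Fintype.card_perm, Fintype.card_fin, Fintype.card_prod, Fintype.card_prod, Fintype.card_fin,
    Fintype.card_fin] at hS
  exact hS

end

end Pool.Agent.V7H84.SL
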