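import Mathlib

/-!
# First order neighbourhoods of points

`dn p v f` is the value of the polynomial `f` at `p + ε v` in the dual numbers and `un p v f` is its
restriction to the line `p + X v`.
-/

set_option autoImplicit false

universe u

namespace Pool.Agent.V7H84.SL

open MvPolynomial Finset

variable {K : Type u} [Field K] {σ : Type} [Fintype σ]

omit [Fintype σ] in
/-- The value at `p + ε v`. -/
noncomputable def dn (p v : σ → K) : MvPolynomial σ K →ₐ[K] DualNumber K :=
  aeval fun i => TrivSqZeroExt.inl (p i) + TrivSqZeroExt.inr (v i)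

omit [Fintype σ] in
/-- The restriction to the line `p + X v`. -/
noncomputable def un (p v : σ → K) : MvPolynomial σ K →ₐ[K] Polynomial K :=
  aeval fun i => Polynomial.C (p i) + Polynomial.C (v i) * Polynomial.X

/-- The differential of `f` at `p`. -/
noncomputable def dl (p : σ → K) (f : MvPolynomial σ K) : (σ → K) →ₗ[K] K :=
  ∑ i, eval p (pderiv i f) • LinearMap.proj i

theorem dl_apply (p v : σ → K) (f : MvPolynomial σ K) :
    dl p f v = ∑ i, eval p (pderiv i f) * v i := by
  unfold dl
  rw [LinearMap.sum_apply]
  rfl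

omit [Fintype σ] in
theorem fst_dn (p v : σ → K) (f : MvPolynomial σ K) :
    TrivSqZeroExt.fst (dn p v f) = eval p f := by
  have h : (TrivSqZeroExt.fstHom K K K).comp (dn p v) = aeval p := by
    ext i
    simp [dn]
  have h1 := congrArg (fun g : MvPolynomial σ K →ₐ[K] K => g f) h
  simpa [aeval_eq_eval] using h1

theorem snd_dn (p v : σ → K) (f : MvPolynomial σ K) :
    TrivSqZeroExt.snd (dn p v f) = dl p f v := by
  classical
  rw [dl_apply]
  induction f using MvPolynomial.induction_on with
  | C a =>
    have h1 : dn p v (C a) = algebraMap K _ a := (dn p v).commutes a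
    rw [h1]
    simp [TrivSqZeroExt.algebraMap_eq_inl]
  | add f g hf hg =>
    rw [map_add, TrivSqZeroExt.snd_add, hf, hg, ← sum_add_distrib]
    refine sum_congr rfl fun i _ => ?_
    rw [map_add, map_add, add_mul]
  | mul_X f j hf =>
    have h1 : dn p v (X j) = TrivSqZeroExt.inl (p j) + TrivSqZeroExt.inr (v j) := aeval_X _ _
    have h2 : ∀ i, eval p (pderiv i (f * X j)) * v i =
        eval p (pderiv i f) * v i * p j + eval p f * (if j = i then v i else 0) := by
      intro i
      rw [Derivation.leibniz, pderiv_X, smul_eq_mul, smul_eq_mul, map_add, map_mul, map_mul,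
        eval_X, Pi.single_apply]
      by_cases hij : i = j
      · subst hij; rw [if_pos rfl, if_pos rfl, map_one]; ring
      · rw [if_neg (fun h => hij h.symm), if_neg (fun h => hij h.symm), map_zero]; ring
    rw [map_mul, TrivSqZeroExt.snd_mul, hf, fst_dn, h1, sum_congr rfl fun i _ => h2 i,
      sum_add_distrib, ← mul_sum, sum_ite_eq, if_pos (mem_univ j), ← sum_mul]
    simp only [TrivSqZeroExt.snd_add, TrivSqZeroExt.snd_inl, TrivSqZeroExt.snd_inr, zero_add,
      smul_eq_mul, TrivSqZeroExt.fst_add, TrivSqZeroExt.fst_inl, TrivSqZeroExt.fst_inr, add_zero,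
      MulOpposite.smul_eq_mul_unop, MulOpposite.unop_op]
    ring

omit [Fintype σ] in
theorem un_dn (p v : σ → K) (f : MvPolynomial σ K) :
    dn p v f = TrivSqZeroExt.inl ((un p v f).coeff 0) + TrivSqZeroExt.inr ((un p v f).coeff 1) := by
  have h1 : ∀ P : Polynomial K, Polynomial.aeval (DualNumber.eps : DualNumber K) P =
      TrivSqZeroExt.inl (P.coeff 0) + TrivSqZeroExt.inr (P.coeff 1) := by
    intro P
    induction P using Polynomial.induction_on' with
    | add P Q hP hQ =>
      rw [map_add, hP, hQ, Polynomial.coeff_add, Polynomial.coeff_add, TrivSqZeroExt.inl_add,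
        TrivSqZeroExt.inr_add]
      ring
    | monomial n a =>
      rw [Polynomial.aeval_monomial, Polynomial.coeff_monomial, Polynomial.coeff_monomial]
      rcases n with _ | _ | n
      · rw [if_pos rfl, if_neg (by omega), pow_zero, mul_one, TrivSqZeroExt.algebraMap_eq_inl]
        simp
      · rw [if_neg (by omega), if_pos (by omega), zero_add, pow_one,
          TrivSqZeroExt.algebraMap_eq_inl]
        ext <;> simp [DualNumber.eps, -DualNumber.inr_eq_smul_eps]
      · rw [if_neg (by omega), if_neg (by omega)]
        have : (DualNumber.eps : DualNumber K) ^ (n + 1 + 1) = 0 := by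
          rw [pow_succ, pow_succ, mul_assoc, DualNumber.eps_mul_eps, mul_zero]
        rw [this, mul_zero]
        simp
  rw [← h1]
  have h2 : (Polynomial.aeval (DualNumber.eps : DualNumber K)).comp (un p v) = dn p v := by
    ext i
    · simp [dn, un, DualNumber.eps, -DualNumber.inr_eq_smul_eps, TrivSqZeroExt.algebraMap_eq_inl]
    · simp [dn, un, DualNumber.eps, -DualNumber.inr_eq_smul_eps, TrivSqZeroExt.algebraMap_eq_inl]
  rw [← h2]
  rfl

omit [Fintype σ] in
theorem un_coeff_zero (p v : σ → K) (f : MvPolynomial σ K) : (un p v f).coeff 0 = eval p f := by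
  have := congrArg TrivSqZeroExt.fst (un_dn p v f)
  rw [fst_dn] at this
  simpa using this.symm

theorem un_coeff_one (p v : σ → K) (f : MvPolynomial σ K) : (un p v f).coeff 1 = dl p f v := by
  have := congrArg TrivSqZeroExt.snd (un_dn p v f)
  rw [snd_dn] at this
  simpa using this.symm

omit [Fintype σ] in
theorem dn_zero_iff [Fintype σ] (p v : σ → K) (f : MvPolynomial σ K) :
    dn p v f = 0 ↔ eval p f = 0 ∧ dl p f v = 0 := by
  constructor
  · intro h
    have h1 := fst_dn p v f
    have h2 := snd_dn p v f
    rw [h] at h1 h2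
    exact ⟨by simpa using h1.symm, by simpa using h2.symm⟩
  · rintro ⟨h1, h2⟩
    rw [← fst_dn p v f] at h1
    rw [← snd_dn p v f] at h2
    exact TrivSqZeroExt.ext (by simpa using h1) (by simpa using h2)

end Pool.Agent.V7H84.SL
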