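import Pool.Agent.V7H84.SL.Hilb2

/-!
# Independence over `K(ε)` and at `ε = 0`
-/

set_option autoImplicit false

universe u v

namespace Pool.Agent.V7H84.SL

open MvPolynomial Finset Module

section

variable {K : Type u} [Field K]

variable (K) in
/-- The value at `ε = 0`. -/
noncomputable def ez : Polynomial K →+* K := Polynomial.evalRingHom 0

theorem li_ring {ι : Type*} [Fintype ι] {σ : Type} (E : ι → MvPolynomial σ (Polynomial K))
    (h : LinearIndependent K fun x => map (ez K) (E x)) : LinearIndependent (Polynomial K) E := by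
  rw [Fintype.linearIndependent_iff] at h ⊢
  intro b hb
  have key : ∀ n : ℕ, ∀ x, (Polynomial.X : Polynomial K) ^ n ∣ b x := by
    intro n
    induction n with
    | zero => intro x; rw [pow_zero]; exact one_dvd _
    | succ n ih =>
      choose b' hb' using ih
      have h1 : (Polynomial.X : Polynomial K) ^ n • ∑ x, b' x • E x = 0 := by
        rw [← hb, smul_sum]
        refine sum_congr rfl fun x _ => ?_
        rw [hb' x, smul_smul]
      have h2 : ∑ x, b' x • E x = 0 := by
        rcases smul_eq_zero.1 h1 with h3 | h3
        · exact absurd h3 (pow_ne_zero n Polynomial.X_ne_zero)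
        · exact h3
      have h3 : ∑ x, ez K (b' x) • map (ez K) (E x) = 0 := by
        have h4 := congrArg (map (ez K)) h2
        rw [map_sum, map_zero] at h4
        rw [← h4]
        refine sum_congr rfl fun x _ => ?_
        rw [smul_eq_C_mul, smul_eq_C_mul, map_mul, map_C]
      intro x
      have h4 := h (fun x => ez K (b' x)) h3 x
      have h5 : (Polynomial.X : Polynomial K) ∣ b' x := by
        rw [Polynomial.X_dvd_iff, Polynomial.coeff_zero_eq_eval_zero]
        exact h4
      rw [hb' x, pow_succ]
      exact mul_dvd_mul_left _ h5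
  intro x
  ext d
  rw [Polynomial.coeff_zero]
  exact Polynomial.X_pow_dvd_iff.1 (key (d + 1) x) d (Nat.lt_succ_self d)

theorem li_lift {ι : Type*} [Fintype ι] {σ : Type} (E : ι → MvPolynomial σ (Polynomial K))
    (h : LinearIndependent K fun x => map (ez K) (E x)) :
    LinearIndependent (FractionRing (Polynomial K))
      fun x => map (algebraMap (Polynomial K) (FractionRing (Polynomial K))) (E x) := by
  have h1 := li_ring E h
  have h2 := h1.map' (mapAlgHom (σ := σ)
    (Algebra.ofId (Polynomial K) (FractionRing (Polynomial K)))).toLinearMap (by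
      rw [LinearMap.ker_eq_bot]
      exact map_injective _ (IsFractionRing.injective (Polynomial K) _))
  exact (LinearIndependent.iff_fractionRing (Polynomial K) (FractionRing (Polynomial K))).1 h2

theorem prod_mem_pow {A : Type v} [CommRing A] [Algebra K A] {σ : Type} (W : Submodule K A)
    (f : σ → A) (hf : ∀ i, f i ∈ W) (α : σ → ℕ) (s : Finset σ) :
    ∏ i ∈ s, f i ^ α i ∈ W ^ (∑ i ∈ s, α i) := by
  classical
  induction s using Finset.induction_on with
  | empty => rw [prod_empty, sum_empty, pow_zero]; exact Submodule.one_le.1 le_rfl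
  | insert i s hi ih =>
    rw [prod_insert hi, sum_insert hi, pow_add]
    exact Submodule.mul_mem_mul (Submodule.pow_mem_pow _ (hf i) _) ih

theorem mem_Bp_pow {σ : Type} [Fintype σ] {f : MvPolynomial σ K} {d : ℕ}
    (hf : f.totalDegree ≤ d) : f ∈ Bp (AlgHom.id K (MvPolynomial σ K)) ^ d := by
  classical
  rw [f.as_sum]
  refine Submodule.sum_mem _ fun m hm => ?_
  have h1 := (le_totalDegree hm).trans hf
  rw [Finsupp.sum_fintype _ _ (fun _ => rfl)] at h1
  refine pow_mono_of_one (one_mem_Bp _) h1 ?_
  rw [monomial_eq, Finsupp.prod_fintype _ _ (fun i => pow_zero _), ← smul_eq_C_mul]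
  exact Submodule.smul_mem _ _ (prod_mem_pow _ _ (fun i => X_mem_Bp (AlgHom.id K _) i) _ _)

theorem totalDegree_Bp_pow {σ : Type} (d : ℕ) : ∀ {f : MvPolynomial σ K},
    f ∈ Bp (AlgHom.id K (MvPolynomial σ K)) ^ d → f.totalDegree ≤ d := by
  induction d with
  | zero =>
    intro f hf
    rw [pow_zero] at hf
    obtain ⟨c, rfl⟩ := Submodule.mem_one.1 hf
    rw [show algebraMap K (MvPolynomial σ K) c = C c from rfl, totalDegree_C]
  | succ d ih =>
    intro f hf
    rw [pow_succ] at hf
    refine Submodule.mul_induction_on hf ?_ ?_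
    · intro x hx y hy
      refine (totalDegree_mul _ _).trans (Nat.add_le_add (ih hx) ?_)
      refine Submodule.span_induction (p := fun y _ => y.totalDegree ≤ 1) ?_ ?_ ?_ ?_ hy
      · rintro z (rfl | ⟨i, rfl⟩)
        · rw [totalDegree_one]; exact Nat.zero_le _
        · show (X i : MvPolynomial σ K).totalDegree ≤ 1
          rw [totalDegree_X]
      · rw [totalDegree_zero]; exact Nat.zero_le _
      · intro x y _ _ hx hy
        exact (totalDegree_add x y).trans (max_le hx hy)
      · intro t x _ hx
        exact (totalDegree_smul_le t x).trans hx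
    · intro x y hx hy
      exact (totalDegree_add x y).trans (max_le hx hy)

theorem finrank_Bp_pow {σ : Type} [Fintype σ] [DecidableEq σ] (d : ℕ) :
    finrank K (Bp (AlgHom.id K (MvPolynomial σ K)) ^ d : Submodule K (MvPolynomial σ K)) ≤
      (Vt σ d).card := by
  classical
  have h1 : (Bp (AlgHom.id K (MvPolynomial σ K)) ^ d : Submodule K (MvPolynomial σ K)) ≤
      Submodule.span K (((Vt σ d).image fun α =>
        monomial (Finsupp.equivFunOnFinite.symm α) (1 : K) : Finset (MvPolynomial σ K)) :
          Set _) := by
    intro f hf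
    rw [coe_image]
    exact mem_span_mon _ _ (totalDegree_Bp_pow d hf)
  exact (Submodule.finrank_mono h1).trans ((finrank_span_finset_le_card _).trans card_image_le)

theorem totalDegree_map_le' {R R' : Type*} [CommSemiring R] [CommSemiring R'] {σ : Type}
    (φ : R →+* R') (f : MvPolynomial σ R) : (map φ f).totalDegree ≤ f.totalDegree := by
  rw [totalDegree, totalDegree]
  exact Finset.sup_mono (support_map_subset φ f)

end

end Pool.Agent.V7H84.SL
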