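import Pool.Agent.V7H84.SL.Blk3

/-!
# The functionals
-/

set_option autoImplicit false
set_option linter.unusedSectionVars false
set_option synthInstance.maxSize 2000

universe u

namespace Pool.Agent.V7H84.SL

open MvPolynomial Finset

variable {I D N XC : Type} [Fintype I] [DecidableEq I] [Fintype D] [DecidableEq D] [Fintype N]
  [DecidableEq N] [Fintype XC] [DecidableEq XC] {S : Type u} [CommRing S]

/-- The coefficients of the functional at the variables of the rows. -/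
def uf (S : Type u) [CommRing S] (δ s : D) : I ⊕ (D ⊕ N) → I ⊕ (D ⊕ N) → S :=
  Sum.elim (fun i i' => if i' = Sum.inl i then 1 else 0)
    (Sum.elim (fun s' i' => if s' = s then (if i' = Sum.inr (Sum.inl δ) then 1 else 0) else 0)
      (fun _ _ => 0))

/-- The coefficients of the functional at the variables of the columns. -/
def vf (E : I ⊕ N ≃ XC) (w : S) (s : D) : I ⊕ (D ⊕ N) → XC ⊕ D → S :=
  Sum.elim (fun i k => if k = Sum.inl (E (Sum.inl i)) then w else 0)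
    (Sum.elim (fun s' k => if s' = s then 0 else (if k = Sum.inr s' then 1 else 0))
      (fun n k => if k = Sum.inl (E (Sum.inr n)) then 1 else 0))

theorem fun_rows (Z : I ⊕ (D ⊕ N) → XC ⊕ D → S) (h1 : ∀ i s, Z (Sum.inl i) (Sum.inr s) = 0)
    (h2 : ∀ d j, Z (Sum.inr (Sum.inl d)) (Sum.inl j) = 0) (h3 : ∀ n k, Z (Sum.inr (Sum.inr n)) k = 0) :
    (∏ i, (X (Sum.inl i) + ∑ k, C (Z i k) * X (Sum.inr k)) :
      MvPolynomial ((I ⊕ (D ⊕ N)) ⊕ (XC ⊕ D)) S) =
    (∏ i : I, (X (Sum.inl (Sum.inl i)) + ∑ j, C (Z (Sum.inl i) (Sum.inl j)) *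
      X (Sum.inr (Sum.inl j)))) * ((∏ d : D, (X (Sum.inl (Sum.inr (Sum.inl d))) +
        ∑ s, C (Z (Sum.inr (Sum.inl d)) (Sum.inr s)) * X (Sum.inr (Sum.inr s)))) *
        ∏ n : N, X (Sum.inl (Sum.inr (Sum.inr n)))) := by
  rw [Fintype.prod_sum_type, Fintype.prod_sum_type]
  congr 1
  · refine prod_congr rfl fun i _ => ?_
    rw [Fintype.sum_sum_type]
    simp only [h1, C_0, zero_mul, sum_const_zero, add_zero]
  · congr 1
    · refine prod_congr rfl fun d _ => ?_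
      rw [Fintype.sum_sum_type]
      simp only [h2, C_0, zero_mul, sum_const_zero, zero_add]
    · refine prod_congr rfl fun n _ => ?_
      simp only [h3, C_0, zero_mul, sum_const_zero, add_zero]

theorem fun_cols (E : I ⊕ N ≃ XC) (w : S) (δ s : D) :
    (∏ i, ((∑ i', C (uf (I := I) (N := N) S δ s i i') * X (Sum.inl i')) +
      ∑ k, C (vf E w s i k) * X (Sum.inr k)) :
      MvPolynomial ((I ⊕ (D ⊕ N)) ⊕ (XC ⊕ D)) S) =
    (∏ i : I, (X (Sum.inl (Sum.inl i)) + C w * X (Sum.inr (Sum.inl (E (Sum.inl i)))))) *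
      ((X (Sum.inl (Sum.inr (Sum.inl δ))) * ∏ s' ∈ univ \ {s}, X (Sum.inr (Sum.inr s'))) *
        ∏ n : N, X (Sum.inr (Sum.inl (E (Sum.inr n))))) := by
  rw [Fintype.prod_sum_type, Fintype.prod_sum_type]
  have hL : ∀ x : I ⊕ (D ⊕ N), (∑ i', C (if i' = x then (1 : S) else 0) *
      (X (Sum.inl i') : MvPolynomial ((I ⊕ (D ⊕ N)) ⊕ (XC ⊕ D)) S)) = X (Sum.inl x) :=
    fun x => lf_single' (fun i' => (Sum.inl i' : (I ⊕ (D ⊕ N)) ⊕ (XC ⊕ D))) x
  have hR : ∀ (x : XC ⊕ D) (a : S), (∑ k, C (if k = x then a else 0) *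
      (X (Sum.inr k) : MvPolynomial ((I ⊕ (D ⊕ N)) ⊕ (XC ⊕ D)) S)) = C a * X (Sum.inr x) := by
    intro x a
    rw [sum_eq_single x]
    · rw [if_pos rfl]
    · intro k _ hk
      rw [if_neg hk, C_0, zero_mul]
    · intro h; exact absurd (mem_univ _) h
  congr 1
  · refine prod_congr rfl fun i _ => ?_
    exact congrArg₂ (· + ·) (hL (Sum.inl i)) (hR (Sum.inl (E (Sum.inl i))) w)
  · congr 1
    · rw [← mul_prod_erase univ _ (mem_univ s), ← sdiff_singleton_eq_erase]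
      congr 1
      · have e1 : (∑ i', C (uf (I := I) (N := N) S δ s (Sum.inr (Sum.inl s)) i') *
            X (Sum.inl i') : MvPolynomial ((I ⊕ (D ⊕ N)) ⊕ (XC ⊕ D)) S) =
            X (Sum.inl (Sum.inr (Sum.inl δ))) := by
          rw [← hL]
          refine sum_congr rfl fun i' _ => ?_
          show C (if s = s then (if i' = Sum.inr (Sum.inl δ) then (1 : S) else 0) else 0) * _ = _
          rw [if_pos rfl]
        have e2 : (∑ k, C (vf E w s (Sum.inr (Sum.inl s)) k) *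
            X (Sum.inr k) : MvPolynomial ((I ⊕ (D ⊕ N)) ⊕ (XC ⊕ D)) S) = 0 := by
          refine sum_eq_zero fun k _ => ?_
          show C (if s = s then (0 : S) else _) * _ = _
          rw [if_pos rfl, C_0, zero_mul]
        rw [e1, e2, add_zero]
      · refine prod_congr rfl fun s' hs' => ?_
        have hne : s' ≠ s := by
          intro h
          rw [mem_sdiff, mem_singleton] at hs'
          exact hs'.2 h
        have e1 : (∑ i', C (uf (I := I) (N := N) S δ s (Sum.inr (Sum.inl s')) i') *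
            X (Sum.inl i') : MvPolynomial ((I ⊕ (D ⊕ N)) ⊕ (XC ⊕ D)) S) = 0 := by
          refine sum_eq_zero fun i' _ => ?_
          show C (if s' = s then (if i' = Sum.inr (Sum.inl δ) then (1 : S) else 0) else 0) * _ = _
          rw [if_neg hne, C_0, zero_mul]
        have e2 : (∑ k, C (vf E w s (Sum.inr (Sum.inl s')) k) *
            X (Sum.inr k) : MvPolynomial ((I ⊕ (D ⊕ N)) ⊕ (XC ⊕ D)) S) =
            X (Sum.inr (Sum.inr s')) := by
          rw [← one_mul (X (Sum.inr (Sum.inr s'))), ← C_1, ← hR]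
          refine sum_congr rfl fun k _ => ?_
          show C (if s' = s then (0 : S) else (if k = Sum.inr s' then 1 else 0)) * _ = _
          rw [if_neg hne]
        rw [e1, e2, zero_add]
    · refine prod_congr rfl fun n _ => ?_
      have e1 : (∑ i', C (uf (I := I) (N := N) S δ s (Sum.inr (Sum.inr n)) i') *
          X (Sum.inl i') : MvPolynomial ((I ⊕ (D ⊕ N)) ⊕ (XC ⊕ D)) S) = 0 := by
        refine sum_eq_zero fun i' _ => ?_
        show C (0 : S) * _ = _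
        rw [C_0, zero_mul]
      have e2 : (∑ k, C (vf E w s (Sum.inr (Sum.inr n)) k) *
          X (Sum.inr k) : MvPolynomial ((I ⊕ (D ⊕ N)) ⊕ (XC ⊕ D)) S) =
          C 1 * X (Sum.inr (Sum.inl (E (Sum.inr n)))) := hR _ _
      rw [e1, e2, zero_add, C_1, one_mul]

/-- Elimination of the variables of the rows. -/
theorem fun_elim (E : I ⊕ N ≃ XC) (w : S) (δ s : D) (Z : I ⊕ (D ⊕ N) → XC ⊕ D → S)
    (h1 : ∀ i s, Z (Sum.inl i) (Sum.inr s) = 0)
    (h2 : ∀ d j, Z (Sum.inr (Sum.inl d)) (Sum.inl j) = 0)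
    (h3 : ∀ n k, Z (Sum.inr (Sum.inr n)) k = 0) :
    top ((I ⊕ (D ⊕ N)) ⊕ (XC ⊕ D)) S
      ((∏ i, (X (Sum.inl i) + ∑ k, C (Z i k) * X (Sum.inr k))) *
        ∏ i, ((∑ i', C (uf (I := I) (N := N) S δ s i i') * X (Sum.inl i')) +
          ∑ k, C (vf E w s i k) * X (Sum.inr k))) =
    top (XC ⊕ D) S (((∏ i : I, ((∑ j, C (Z (Sum.inl i) (Sum.inl j)) * X (Sum.inl j)) +
        C w * X (Sum.inl (E (Sum.inl i))))) *
        ∑ s', C (Z (Sum.inr (Sum.inl δ)) (Sum.inr s')) * X (Sum.inr s')) *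
        ((∏ n : N, X (Sum.inl (E (Sum.inr n)))) * ∏ s' ∈ univ \ {s}, X (Sum.inr s'))) := by
  classical
  rw [fun_rows Z h1 h2 h3, fun_cols E w δ s]
  obtain ⟨LX, hLX⟩ : ∃ LX : I → MvPolynomial (XC ⊕ D) S,
    LX = fun i => ∑ j, C (Z (Sum.inl i) (Sum.inl j)) * X (Sum.inl j) := ⟨_, rfl⟩
  obtain ⟨LY, hLY⟩ : ∃ LY : D → MvPolynomial (XC ⊕ D) S,
    LY = fun d => ∑ s', C (Z (Sum.inr (Sum.inl d)) (Sum.inr s')) * X (Sum.inr s') := ⟨_, rfl⟩
  obtain ⟨TX, hTX⟩ : ∃ TX : I → MvPolynomial (XC ⊕ D) S,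
    TX = fun i => C w * X (Sum.inl (E (Sum.inl i))) := ⟨_, rfl⟩
  let a : I ⊕ (D ⊕ N) → MvPolynomial (XC ⊕ D) S := Sum.elim (fun i => LX i * TX i)
    (Sum.elim (fun d => if d = δ then 0 else LY d) fun _ => 0)
  let b : I ⊕ (D ⊕ N) → MvPolynomial (XC ⊕ D) S := Sum.elim (fun i => LX i + TX i)
    (Sum.elim (fun d => if d = δ then LY d else 1) fun _ => 1)
  let c : I ⊕ (D ⊕ N) → MvPolynomial (XC ⊕ D) S := Sum.elim (fun _ => 1)
    (Sum.elim (fun d => if d = δ then 1 else 0) fun _ => 0)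
  rw [top_elim _ (∏ j, (C (a j) + C (b j) * X j + C (c j) * X j ^ 2))
    ((∏ n : N, X (Sum.inl (E (Sum.inr n)))) * ∏ s' ∈ univ \ {s}, X (Sum.inr s')), top_quad]
  · congr 2
    rw [Fintype.prod_sum_type, Fintype.prod_sum_type]
    show (∏ i, (LX i + TX i)) * ((∏ d, if d = δ then LY d else 1) * ∏ _n : N, 1) = _
    rw [prod_const_one, mul_one, prod_ite_eq', if_pos (mem_univ _), hLX, hLY, hTX]
  · have e1 : ∀ i : I, sumAlgEquiv S (I ⊕ (D ⊕ N)) (XC ⊕ D) (X (Sum.inl (Sum.inl i)) +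
        ∑ j, C (Z (Sum.inl i) (Sum.inl j)) * X (Sum.inr (Sum.inl j))) =
        X (Sum.inl i) + C (LX i) := by
      intro i
      rw [hLX]
      simp only [map_add, map_sum, map_mul, sumAlgEquiv_C_inl, sumAlgEquiv_X_inl,
        sumAlgEquiv_X_inr]
    have e2 : ∀ d : D, sumAlgEquiv S (I ⊕ (D ⊕ N)) (XC ⊕ D) (X (Sum.inl (Sum.inr (Sum.inl d))) +
        ∑ s, C (Z (Sum.inr (Sum.inl d)) (Sum.inr s)) * X (Sum.inr (Sum.inr s))) =
        X (Sum.inr (Sum.inl d)) + C (LY d) := by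
      intro d
      rw [hLY]
      simp only [map_add, map_sum, map_mul, sumAlgEquiv_C_inl, sumAlgEquiv_X_inl,
        sumAlgEquiv_X_inr]
    have e3 : ∀ i : I, sumAlgEquiv S (I ⊕ (D ⊕ N)) (XC ⊕ D) (X (Sum.inl (Sum.inl i)) +
        C w * X (Sum.inr (Sum.inl (E (Sum.inl i))))) = X (Sum.inl i) + C (TX i) := by
      intro i
      rw [hTX]
      simp only [map_add, map_mul, sumAlgEquiv_C_inl, sumAlgEquiv_X_inl,
        sumAlgEquiv_X_inr]
    simp only [map_mul (sumAlgEquiv S (I ⊕ (D ⊕ N)) (XC ⊕ D)),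
      map_prod (sumAlgEquiv S (I ⊕ (D ⊕ N)) (XC ⊕ D))]
    rw [prod_congr rfl fun i _ => e1 i, prod_congr rfl fun d _ => e2 d,
      prod_congr rfl fun i _ => e3 i]
    simp only [sumAlgEquiv_X_inl, sumAlgEquiv_X_inr]
    rw [Fintype.prod_sum_type, Fintype.prod_sum_type]
    have f1 : ∀ i : I, (C (a (Sum.inl i)) + C (b (Sum.inl i)) * X (Sum.inl i) +
        C (c (Sum.inl i)) * X (Sum.inl i) ^ 2 :
          MvPolynomial (I ⊕ (D ⊕ N)) (MvPolynomial (XC ⊕ D) S)) =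
        (X (Sum.inl i) + C (LX i)) * (X (Sum.inl i) + C (TX i)) := by
      intro i
      show C (LX i * TX i) + C (LX i + TX i) * X (Sum.inl i) + C 1 * X (Sum.inl i) ^ 2 = _
      rw [map_mul, map_add, C_1]
      ring
    have f2 : ∀ d : D, (C (a (Sum.inr (Sum.inl d))) + C (b (Sum.inr (Sum.inl d))) *
        X (Sum.inr (Sum.inl d)) + C (c (Sum.inr (Sum.inl d))) * X (Sum.inr (Sum.inl d)) ^ 2 :
          MvPolynomial (I ⊕ (D ⊕ N)) (MvPolynomial (XC ⊕ D) S)) =
        (X (Sum.inr (Sum.inl d)) + C (LY d)) *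
          (if d = δ then X (Sum.inr (Sum.inl d)) else 1) := by
      intro d
      show C (if d = δ then 0 else LY d) + C (if d = δ then LY d else 1) * _ +
        C (if d = δ then 1 else 0) * _ = _
      split_ifs with h
      · rw [C_0, C_1]; ring
      · rw [C_0, C_1]; ring
    have f3 : ∀ n : N, (C (a (Sum.inr (Sum.inr n))) + C (b (Sum.inr (Sum.inr n))) *
        X (Sum.inr (Sum.inr n)) + C (c (Sum.inr (Sum.inr n))) * X (Sum.inr (Sum.inr n)) ^ 2 :
          MvPolynomial (I ⊕ (D ⊕ N)) (MvPolynomial (XC ⊕ D) S)) = X (Sum.inr (Sum.inr n)) := by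
      intro n
      show C 0 + C 1 * _ + C 0 * _ = _
      rw [C_0, C_1]; ring
    rw [prod_congr rfl fun i _ => f1 i, prod_congr rfl fun d _ => f2 d,
      prod_congr rfl fun n _ => f3 n, prod_mul_distrib, prod_mul_distrib,
      prod_ite_eq', if_pos (mem_univ _), map_mul, map_prod, map_prod]
    ring

end Pool.Agent.V7H84.SL
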