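import Pool.Agent.V7H84.SL.Fun

/-!
# The values of the functionals
-/

set_option autoImplicit false
set_option linter.unusedSectionVars false
set_option synthInstance.maxSize 2000

universe u

namespace Pool.Agent.V7H84.SL

open MvPolynomial Finset

variable {I D N XC : Type} [Fintype I] [DecidableEq I] [Fintype D] [DecidableEq D] [Fintype N]
  [DecidableEq N] [Fintype XC] [DecidableEq XC] {S : Type u} [CommRing S]

/-- Restriction to the free columns. -/
theorem fun_rs (E : I ⊕ N ≃ XC) (w : S) (s : D) (LX : I → XC → S) (LY : D → S) :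
    top (XC ⊕ D) S (((∏ i : I, ((∑ j, C (LX i j) * X (Sum.inl j)) +
        C w * X (Sum.inl (E (Sum.inl i))))) * ∑ s', C (LY s') * X (Sum.inr s')) *
        ((∏ n : N, X (Sum.inl (E (Sum.inr n)))) * ∏ s' ∈ univ \ {s}, X (Sum.inr s'))) =
    top (I ⊕ Unit) S ((∏ i : I, ((∑ i', C (LX i (E (Sum.inl i'))) * X (Sum.inl i')) +
        C w * X (Sum.inl i))) * (C (LY s) * X (Sum.inr ()))) := by
  classical
  obtain ⟨ρ, hρ1, hρ2, hρ3, hρ4⟩ : ∃ ρ : XC ⊕ D → Option (I ⊕ Unit),
      (∀ i, ρ (Sum.inl (E (Sum.inl i))) = some (Sum.inl i)) ∧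
      (∀ n, ρ (Sum.inl (E (Sum.inr n))) = none) ∧ (ρ (Sum.inr s) = some (Sum.inr ())) ∧
      ∀ s', s' ≠ s → ρ (Sum.inr s') = none := by
    refine ⟨Sum.elim (fun j => (E.symm j).elim (fun i => some (Sum.inl i)) fun _ => none)
      (fun s' => if s' = s then some (Sum.inr ()) else none), ?_, ?_, ?_, ?_⟩
    · intro i
      rw [Sum.elim_inl, Equiv.symm_apply_apply]; rfl
    · intro n
      rw [Sum.elim_inl, Equiv.symm_apply_apply]; rfl
    · rw [Sum.elim_inr, if_pos rfl]
    · intro s' h
      rw [Sum.elim_inr, if_neg h]
  have h4 := top_rs (S := S) (Sum.elim (fun i : I => (Sum.inl (E (Sum.inl i)) : XC ⊕ D))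
    fun _ : Unit => Sum.inr s) ρ (by
    rintro (j | s') y
    · obtain ⟨z, rfl⟩ := E.surjective j
      rcases z with i | n
      · rw [hρ1]
        rcases y with i' | _
        · constructor
          · intro h
            have h' := Sum.inl.inj (Option.some.inj h)
            rw [h']; rfl
          · intro h
            have h' := Sum.inl.inj (E.injective (Sum.inl.inj h))
            rw [h']
        · constructor
          · intro h
            exact absurd (Option.some.inj h) (by simp)
          · intro h
            exact absurd h (by simp)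
      · rw [hρ2]
        constructor
        · intro h
          exact absurd h (by simp)
        · rcases y with i' | _
          · intro h
            have h' := E.injective (Sum.inl.inj h)
            exact absurd h' (by simp)
          · intro h
            exact absurd h (by simp)
    · by_cases hb : s' = s
      · rw [hb, hρ3]
        rcases y with i' | _
        · constructor
          · intro h
            exact absurd (Option.some.inj h) (by simp)
          · intro h
            exact absurd h (by simp)
        · constructor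
          · intro h; rfl
          · intro h; rfl
      · rw [hρ4 s' hb]
        constructor
        · intro h
          exact absurd h (by simp)
        · rcases y with i' | _
          · intro h
            exact absurd h (by simp)
          · intro h
            exact absurd (Sum.inr.inj h).symm hb)
    ((∏ i : I, ((∑ j, C (LX i j) * X (Sum.inl j)) +
        C w * X (Sum.inl (E (Sum.inl i))))) * ∑ s', C (LY s') * X (Sum.inr s'))
  have h5 : (∏ x, (ρ x).elim (X x) (fun _ => 1) : MvPolynomial (XC ⊕ D) S) =
      (∏ n : N, X (Sum.inl (E (Sum.inr n)))) * ∏ s' ∈ univ \ {s}, X (Sum.inr s') := by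
    rw [Fintype.prod_sum_type, ← E.prod_comp, Fintype.prod_sum_type]
    have h6 : ∏ i, (ρ (Sum.inl (E (Sum.inl i)))).elim
        (X (Sum.inl (E (Sum.inl i))) : MvPolynomial (XC ⊕ D) S)
        (fun _ => 1) = 1 := prod_eq_one fun i _ => by rw [hρ1]; rfl
    rw [h6, one_mul]
    congr 1
    · refine prod_congr rfl fun n _ => ?_
      rw [hρ2]; rfl
    · rw [← prod_subset (subset_univ (univ \ {s}))]
      · refine prod_congr rfl fun s' hs' => ?_
        have h7 : s' ≠ s := by
          intro h7
          rw [mem_sdiff, mem_singleton] at hs'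
          exact hs'.2 h7
        rw [hρ4 s' h7]
        rfl
      · intro s' _ hs'
        have h7 : s' = s := by
          by_contra h7
          apply hs'
          rw [mem_sdiff, mem_singleton]
          exact ⟨mem_univ _, h7⟩
        rw [h7, hρ3]
        rfl
  rw [h5] at h4
  rw [h4, map_mul, map_prod]
  have hC : ∀ c : S, aeval (fun x => (ρ x).elim (0 : MvPolynomial (I ⊕ Unit) S) X)
      (C c : MvPolynomial (XC ⊕ D) S) = C c := fun c => (aeval _).commutes _
  congr 2
  · refine prod_congr rfl fun i _ => ?_
    rw [map_add, map_sum, map_mul, aeval_X, hρ1, ← E.sum_comp, Fintype.sum_sum_type, hC]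
    congr 1
    rw [← add_zero (∑ i', C (LX i (E (Sum.inl i'))) * X (Sum.inl i'))]
    congr 1
    · refine sum_congr rfl fun i' _ => ?_
      rw [map_mul, hC, aeval_X, hρ1]; rfl
    · refine sum_eq_zero fun n _ => ?_
      rw [map_mul, aeval_X, hρ2]
      exact mul_zero _
  · rw [map_sum, sum_eq_single s]
    · rw [map_mul, hC, aeval_X, hρ3]; rfl
    · intro s' _ hne
      rw [map_mul, aeval_X, hρ4 s' hne]
      exact mul_zero _
    · intro h; exact absurd (mem_univ _) h

/-- The last elimination. -/
theorem fun_last (w z : S) (M : I → I → S) :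
    top (I ⊕ Unit) S ((∏ i : I, ((∑ i', C (M i i') * X (Sum.inl i')) +
        C w * X (Sum.inl i))) * (C z * X (Sum.inr ()))) =
      z * per fun i i' => M i i' + if i' = i then w else 0 := by
  classical
  rw [top_elim _ (∏ i : I, ∑ i', C (C (M i i' + if i' = i then w else 0)) * X i')
    (C z * X ()), top_prod_linear]
  · have h1 : (∑ e : I ≃ I, ∏ i, (C (M i (e i) + if e i = i then w else 0) :
        MvPolynomial Unit S)) = C (per fun i i' => M i i' + if i' = i then w else 0) := by
      rw [per, map_sum]
      refine sum_congr rfl fun e _ => ?_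
      rw [map_prod]
    rw [h1, top_C_mul, top_C_mul]
    have h2 : top Unit S (X ()) = 1 := by
      have := top_all (J := Unit) (S := S)
      rw [univ_unique, prod_singleton] at this
      exact this
    rw [h2, mul_one, mul_comm]
  · rw [map_mul, map_prod, map_mul, sumAlgEquiv_C_inl, sumAlgEquiv_X_inr, map_mul]
    congr 1
    refine prod_congr rfl fun i _ => ?_
    rw [map_add, map_sum, map_mul, sumAlgEquiv_C_inl, sumAlgEquiv_X_inl]
    have h2 : ∀ i', (C (C (M i i' + if i' = i then w else 0)) * X i' :
        MvPolynomial I (MvPolynomial Unit S)) = C (C (M i i')) * X i' +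
          (if i' = i then C (C w) * X i' else 0) := by
      intro i'
      rw [map_add, map_add, add_mul]
      split_ifs with h
      · rfl
      · rw [C_0, C_0, zero_mul]
    rw [sum_congr rfl fun i' _ => h2 i', sum_add_distrib, sum_ite_eq', if_pos (mem_univ _)]
    congr 1
    refine sum_congr rfl fun i' _ => ?_
    rw [map_mul, sumAlgEquiv_C_inl, sumAlgEquiv_X_inl]

/-- **The value of a functional.** -/
theorem fun_eval (E : I ⊕ N ≃ XC) (w : S) (δ s : D) (Z : I ⊕ (D ⊕ N) → XC ⊕ D → S)
    (h1 : ∀ i s, Z (Sum.inl i) (Sum.inr s) = 0)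
    (h2 : ∀ d j, Z (Sum.inr (Sum.inl d)) (Sum.inl j) = 0)
    (h3 : ∀ n k, Z (Sum.inr (Sum.inr n)) k = 0) :
    top ((I ⊕ (D ⊕ N)) ⊕ (XC ⊕ D)) S
      ((∏ i, (X (Sum.inl i) + ∑ k, C (Z i k) * X (Sum.inr k))) *
        ∏ i, ((∑ i', C (uf (I := I) (N := N) S δ s i i') * X (Sum.inl i')) +
          ∑ k, C (vf E w s i k) * X (Sum.inr k))) =
    Z (Sum.inr (Sum.inl δ)) (Sum.inr s) *
      per fun i i' => Z (Sum.inl i) (Sum.inl (E (Sum.inl i'))) + if i' = i then w else 0 := by
  rw [fun_elim E w δ s Z h1 h2 h3,
    fun_rs E w s (fun i j => Z (Sum.inl i) (Sum.inl j))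
      (fun s' => Z (Sum.inr (Sum.inl δ)) (Sum.inr s')),
    fun_last w _ fun i i' => Z (Sum.inl i) (Sum.inl (E (Sum.inl i')))]

end Pool.Agent.V7H84.SL
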