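import Pool.Agent.V7H84.SL.Top

/-!
# The parts of the gadget
-/

set_option autoImplicit false
set_option linter.unusedSectionVars false

universe u

namespace Pool.Agent.V7H84.SL

open MvPolynomial Finset

section

variable {S : Type u} [CommRing S]

theorem top2 (c : S) (i j : ℕ) :
    top (Fin 2) S (C c * (X 0 ^ i * X 1 ^ j)) = if i = 1 ∧ j = 1 then c else 0 := by
  rw [top_C_mul]
  have h1 : (X 0 ^ i * X 1 ^ j : MvPolynomial (Fin 2) S) =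
      monomial (Finsupp.single 0 i + Finsupp.single 1 j) 1 := by
    rw [X_pow_eq_monomial, X_pow_eq_monomial, monomial_mul, one_mul]
  rw [h1, top_apply, coeff_monomial]
  by_cases h : i = 1 ∧ j = 1
  · obtain ⟨rfl, rfl⟩ := h
    rw [if_pos, if_pos]
    · rw [mul_one]
    · exact ⟨rfl, rfl⟩
    · ext v
      fin_cases v <;> simp
  · rw [if_neg, if_neg h, mul_zero]
    intro h2
    apply h
    have h0 := DFunLike.congr_fun h2 0
    have h1 := DFunLike.congr_fun h2 1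
    simp at h0 h1
    exact ⟨h0, h1⟩

/-- The gadget with four rows and two columns. -/
theorem gad4 (a b d e : S) :
    top (Fin 2) S ((X 0 + X 1 + C a) * (X 0 + X 1 + C b) * (X 0 - X 1 + C d) *
      (X 0 - X 1 + C e)) = 2 * d * e - 2 * a * b := by
  have h : ((X 0 + X 1 + C a) * (X 0 + X 1 + C b) * (X 0 - X 1 + C d) *
      (X 0 - X 1 + C e) : MvPolynomial (Fin 2) S) =
      C 1 * (X 0 ^ 4 * X 1 ^ 0) + C (-2) * (X 0 ^ 2 * X 1 ^ 2) + C 1 * (X 0 ^ 0 * X 1 ^ 4) +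
      C (d + e) * (X 0 ^ 3 * X 1 ^ 0) + C (d + e) * (X 0 ^ 2 * X 1 ^ 1) +
      C (-(d + e)) * (X 0 ^ 1 * X 1 ^ 2) + C (-(d + e)) * (X 0 ^ 0 * X 1 ^ 3) +
      C (a + b) * (X 0 ^ 3 * X 1 ^ 0) + C (-(a + b)) * (X 0 ^ 2 * X 1 ^ 1) +
      C (-(a + b)) * (X 0 ^ 1 * X 1 ^ 2) + C (a + b) * (X 0 ^ 0 * X 1 ^ 3) +
      C (d * e) * (X 0 ^ 2 * X 1 ^ 0) + C (2 * (d * e)) * (X 0 ^ 1 * X 1 ^ 1) +
      C (d * e) * (X 0 ^ 0 * X 1 ^ 2) +
      C ((a + b) * (d + e)) * (X 0 ^ 2 * X 1 ^ 0) +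
      C (-((a + b) * (d + e))) * (X 0 ^ 0 * X 1 ^ 2) +
      C (a * b) * (X 0 ^ 2 * X 1 ^ 0) + C (-(2 * (a * b))) * (X 0 ^ 1 * X 1 ^ 1) +
      C (a * b) * (X 0 ^ 0 * X 1 ^ 2) +
      C ((a + b) * (d * e)) * (X 0 ^ 1 * X 1 ^ 0) + C ((a + b) * (d * e)) * (X 0 ^ 0 * X 1 ^ 1) +
      C (a * b * (d + e)) * (X 0 ^ 1 * X 1 ^ 0) +
      C (-(a * b * (d + e))) * (X 0 ^ 0 * X 1 ^ 1) +
      C (a * b * (d * e)) * (X 0 ^ 0 * X 1 ^ 0) := by
    simp only [map_add, map_sub, map_mul, map_neg, map_one, map_ofNat]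
    ring
  rw [h]
  simp only [LinearMap.map_add, top2]
  norm_num
  ring

/-- The next row of the group. -/
def nx {G : Type} {m : ℕ} [NeZero m] (p : G × Fin m) : G × Fin m := (p.1, p.2 + 1)

theorem split_row {J K' : Type} [Fintype J] [Fintype K'] (A : J ⊕ K' → S) :
    sumAlgEquiv S J K' (∑ j, C (A j) * X j) =
      ∑ j, C (C (A (Sum.inl j))) * X j + C (∑ j, C (A (Sum.inr j)) * X j) := by
  rw [Fintype.sum_sum_type]
  simp only [map_add, map_sum, map_mul, sumAlgEquiv_C_inl, sumAlgEquiv_X_inl, sumAlgEquiv_X_inr]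

section

variable {P : Type} [Fintype P] [DecidableEq P]

theorem stage1 (s : Fin 4 → S) (hs : s = ![1, 1, -1, -1]) (ℓ : P → Fin 4 → S) (H : S) (n : ℕ) :
    top (P × Fin 2) S ((∏ p : P, ∏ r : Fin 4, rename (fun v => (p, v))
      (X 0 + C (s r) * X 1 + C (ℓ p r))) * (C H) ^ n) =
      (∏ p : P, (2 * ℓ p 2 * ℓ p 3 - 2 * ℓ p 0 * ℓ p 1)) * H ^ n := by
  have h1 : ∀ p : P, ∏ r : Fin 4, rename (fun v => (p, v))
      (X 0 + C (s r) * X 1 + C (ℓ p r) : MvPolynomial (Fin 2) S) =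
      rename (fun v => (p, v)) ((X 0 + X 1 + C (ℓ p 0)) * (X 0 + X 1 + C (ℓ p 1)) *
        (X 0 - X 1 + C (ℓ p 2)) * (X 0 - X 1 + C (ℓ p 3))) := by
    intro p
    have h0 : s 0 = 1 := by rw [hs]; rfl
    have h1 : s 1 = 1 := by rw [hs]; rfl
    have h2 : s 2 = -1 := by rw [hs]; rfl
    have h3 : s 3 = -1 := by rw [hs]; rfl
    rw [Fin.prod_univ_four, h0, h1, h2, h3, ← map_mul, ← map_mul, ← map_mul, map_neg, C_1]
    ring_nf
  rw [prod_congr rfl fun p _ => h1 p, ← map_pow, top_mul_C, top_prod_rename,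
    prod_congr rfl fun p _ => gad4 _ _ _ _]

end

end

end Pool.Agent.V7H84.SL
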