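import Mathlib

/-!
# Powers of a space to which one element is added
-/

set_option autoImplicit false

universe u v

namespace Pool.Agent.V7H84.SL

open MvPolynomial Finset Module

section

variable {K : Type u} [Field K] {A : Type v} [CommRing A] [IsDomain A] [Algebra K A]

/-- The partial sums. -/
noncomputable def US (V : Submodule K A) (g : A) (t k : ℕ) : Submodule K A :=
  (range (k + 1)).sup fun j => (V ^ (t - j)).map (LinearMap.mulLeft K (g ^ j))

theorem term_le (V : Submodule K A) (g : A) {t k j : ℕ} (hj : j ≤ k) :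
    (V ^ (t - j)).map (LinearMap.mulLeft K (g ^ j)) ≤ US V g t k :=
  Finset.le_sup (f := fun j => (V ^ (t - j)).map (LinearMap.mulLeft K (g ^ j)))
    (mem_range.2 (Nat.lt_succ_of_le hj))

theorem US_succ (V : Submodule K A) (g : A) (t k : ℕ) :
    US V g t (k + 1) = US V g t k ⊔ (V ^ (t - (k + 1))).map (LinearMap.mulLeft K (g ^ (k + 1))) := by
  unfold US
  rw [range_add_one (n := k + 1), sup_insert, sup_comm]

theorem pow_le_US (V : Submodule K A) (g : A) (t : ℕ) :
    (V ⊔ Submodule.span K {g}) ^ t ≤ US V g t t := by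
  induction t with
  | zero =>
    refine le_trans ?_ (term_le V g (le_refl 0))
    rw [pow_zero, Nat.sub_zero, pow_zero, pow_zero]
    intro x hx
    exact ⟨x, hx, by simp⟩
  | succ t ih =>
    rw [pow_succ]
    refine (mul_le_mul' ih le_rfl).trans ?_
    rw [Submodule.mul_le]
    intro x hx y hy
    have h1 : ∀ y ∈ V, US V g t t ≤ (US V g (t + 1) (t + 1)).comap (LinearMap.mulRight K y) := by
      intro y hy
      refine Finset.sup_le fun j hj => ?_
      rintro _ ⟨w, hw, rfl⟩
      have hjt : j ≤ t := Nat.lt_succ_iff.1 (mem_range.1 hj)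
      refine term_le V g (hjt.trans (Nat.le_succ t)) ?_
      refine ⟨w * y, ?_, ?_⟩
      · have : t + 1 - j = (t - j) + 1 := by omega
        rw [this, pow_succ]
        exact Submodule.mul_mem_mul hw hy
      · simp only [LinearMap.mulLeft_apply, LinearMap.mulRight_apply]; ring
    have h2 : US V g t t ≤ (US V g (t + 1) (t + 1)).comap (LinearMap.mulRight K g) := by
      refine Finset.sup_le fun j hj => ?_
      rintro _ ⟨w, hw, rfl⟩
      have hjt : j ≤ t := Nat.lt_succ_iff.1 (mem_range.1 hj)
      refine term_le V g (Nat.succ_le_succ hjt) ?_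
      refine ⟨w, ?_, ?_⟩
      · have h3 : t + 1 - j.succ = t - j := by omega
        rw [h3]
        exact hw
      · simp only [LinearMap.mulLeft_apply, LinearMap.mulRight_apply, pow_succ]; ring
    obtain ⟨y1, hy1, y2, hy2, rfl⟩ := Submodule.mem_sup.1 hy
    obtain ⟨c, rfl⟩ := Submodule.mem_span_singleton.1 hy2
    rw [mul_add, mul_smul_comm]
    exact add_mem (h1 y1 hy1 hx) (Submodule.smul_mem _ _ (h2 hx))

theorem finrank_map_mul {g : A} (hg : g ≠ 0) (U : Submodule K A) :
    finrank K (U.map (LinearMap.mulLeft K g)) = finrank K U :=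
  (Submodule.equivMapOfInjective (LinearMap.mulLeft K g)
    (fun a b h => mul_left_cancel₀ hg h) U).finrank_eq.symm

theorem pow_mono_of_one {V : Submodule K A} (h1 : (1 : A) ∈ V) {a b : ℕ} (h : a ≤ b) :
    V ^ a ≤ V ^ b := by
  induction b, h using Nat.le_induction with
  | base => exact le_refl _
  | succ b _ ih =>
    refine ih.trans ?_
    intro x hx
    rw [pow_succ]
    rw [← mul_one x]
    exact Submodule.mul_mem_mul hx h1

theorem fd_pow {V : Submodule K A} (hV : V.FG) (t : ℕ) : FiniteDimensional K (V ^ t : Submodule K A) :=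
  Module.Finite.iff_fg.2 (hV.pow t)

theorem fd_US {V : Submodule K A} (hV : V.FG) (g : A) (t k : ℕ) :
    FiniteDimensional K (US V g t k) := by
  induction k with
  | zero =>
    unfold US
    rw [zero_add, range_one, sup_singleton]
    haveI := fd_pow hV (t - 0)
    infer_instance
  | succ k ih =>
    rw [US_succ]
    haveI := fd_pow hV (t - (k + 1))
    infer_instance

end

end Pool.Agent.V7H84.SL
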