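import Pool.Agent.V7H84.SL.Hilb
import Pool.Agent.V7H84.SL.Bez

/-!
# The space of affine forms
-/

set_option autoImplicit false

universe u v

namespace Pool.Agent.V7H84.SL

open MvPolynomial Finset Module

section

variable {K : Type u} [Field K] {A : Type v} [CommRing A] [Algebra K A]

/-- The affine forms. -/
noncomputable def Bp {σ : Type} (π : MvPolynomial σ K →ₐ[K] A) : Submodule K A :=
  Submodule.span K (insert 1 (Set.range fun i => π (X i)))

theorem one_mem_Bp {σ : Type} (π : MvPolynomial σ K →ₐ[K] A) : (1 : A) ∈ Bp π :=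
  Submodule.subset_span (Set.mem_insert _ _)

theorem X_mem_Bp {σ : Type} (π : MvPolynomial σ K →ₐ[K] A) (i : σ) : π (X i) ∈ Bp π :=
  Submodule.subset_span (Set.mem_insert_of_mem _ ⟨i, rfl⟩)

theorem aff_mem_Bp {σ : Type} (π : MvPolynomial σ K →ₐ[K] A) {f : MvPolynomial σ K}
    (hf : f.totalDegree ≤ 1) : π f ∈ Bp π := by
  classical
  rw [f.as_sum, map_sum]
  refine Submodule.sum_mem _ fun m hm => ?_
  have h1 := (le_totalDegree hm).trans hf
  have h2 : (m.sum fun _ e => e) = m.degree := rfl
  rw [h2] at h1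
  have h3 : monomial m (coeff m f) = coeff m f • monomial m (1 : K) := by
    rw [smul_monomial, smul_eq_mul, mul_one]
  rw [h3, map_smul]
  refine Submodule.smul_mem _ _ ?_
  rcases Nat.lt_or_ge m.degree 1 with h4 | h4
  · have h5 : m = 0 := (Finsupp.degree_eq_zero_iff m).1 (by omega)
    rw [h5]
    have h6 : (monomial 0 (1 : K) : MvPolynomial σ K) = 1 := rfl
    rw [h6, map_one]
    exact one_mem_Bp π
  · have h5 : m.degree = 1 := le_antisymm h1 h4
    obtain ⟨i, hi⟩ : ∃ i, m i ≠ 0 := by
      by_contra hcon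
      push Not at hcon
      have h6 : m = 0 := Finsupp.ext hcon
      rw [h6, map_zero] at h5
      exact absurd h5 (by norm_num)
    have h6 : Finsupp.single i 1 ≤ m := by
      rw [Finsupp.single_le_iff]
      omega
    have h7 : Finsupp.single i 1 + (m - Finsupp.single i 1) = m := add_tsub_cancel_of_le h6
    have h8 : m - Finsupp.single i 1 = 0 := by
      have h9 := congrArg Finsupp.degree h7
      rw [map_add, Finsupp.degree_single, h5] at h9
      exact (Finsupp.degree_eq_zero_iff _).1 (by omega)
    rw [h8, add_zero] at h7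
    rw [← h7]
    exact X_mem_Bp π i

theorem Bp_fg {σ : Type} [Fintype σ] (π : MvPolynomial σ K →ₐ[K] A) : (Bp π).FG :=
  Submodule.fg_span ((Set.finite_range _).insert _)

end

end Pool.Agent.V7H84.SL
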