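import Pool.Agent.V7H84.SL.Cmb
import Pool.Agent.V7H84.SL.Eps

/-!
# The system of equations and its degeneration
-/

set_option autoImplicit false
set_option linter.unusedSectionVars false

universe u

namespace Pool.Agent.V7H84.SL

open MvPolynomial Finset

/-! ### Permanents -/

section

variable {I : Type} [Fintype I] [DecidableEq I] {S : Type*} [CommRing S]

theorem per_scale (a b : I → S) (M N : I → I → S) (h : ∀ i j, a i * M i j = b j * N i j) :
    (∏ i, a i) * per M = (∏ i, b i) * per N := by
  rw [per, per, mul_sum, mul_sum]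
  refine sum_congr rfl fun e _ => ?_
  rw [← prod_mul_distrib, ← Equiv.prod_comp e b, ← prod_mul_distrib]
  exact prod_congr rfl fun i _ => h i (e i)

theorem per_diag (d : I → S) : (per fun i j : I => if j = i then d i else 0) = ∏ i, d i := by
  rw [per, sum_eq_single (Equiv.refl I)]
  · refine prod_congr rfl fun i _ => ?_
    rw [Equiv.refl_apply, if_pos rfl]
  · intro e _ he
    obtain ⟨i, hi⟩ : ∃ i, e i ≠ i := by
      by_contra hcon
      push Not at hcon
      exact he (Equiv.ext hcon)
    exact prod_eq_zero (mem_univ i) (if_neg hi)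
  · intro h; exact absurd (mem_univ _) h

end

/-! ### The window -/

/-- The shifted columns and the other columns. -/
theorem exists_win {r : ℕ} (δ : Fin r) : ∃ E : Fin r ⊕ Fin r ≃ Fin (r + r),
    ∀ i : Fin r, (E (Sum.inl i)).val = i.val + δ.val := by
  let f : Fin r ⊕ Fin r → Fin (r + r) := Sum.elim (fun i => ⟨i.val + δ.val, by omega⟩)
    (fun d => if d.val < δ.val then ⟨d.val, by omega⟩ else ⟨d.val + r, by omega⟩)
  have hf : Function.Injective f := by
    rintro (i | i) (j | j) h
    · have h1 : i.val + δ.val = j.val + δ.val := congrArg Fin.val h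
      have h2 : i = j := Fin.ext (by omega)
      rw [h2]
    · exfalso
      have h1 : i.val + δ.val = (if j.val < δ.val then (⟨j.val, by omega⟩ : Fin (r + r)) else
        ⟨j.val + r, by omega⟩).val := congrArg Fin.val h
      split_ifs at h1 with h2
      · simp only at h1; omega
      · simp only at h1; omega
    · exfalso
      have h1 : (if i.val < δ.val then (⟨i.val, by omega⟩ : Fin (r + r)) else
        ⟨i.val + r, by omega⟩).val = j.val + δ.val := congrArg Fin.val h
      split_ifs at h1 with h2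
      · simp only at h1; omega
      · simp only at h1; omega
    · have h1 : (if i.val < δ.val then (⟨i.val, by omega⟩ : Fin (r + r)) else
        ⟨i.val + r, by omega⟩).val = (if j.val < δ.val then (⟨j.val, by omega⟩ : Fin (r + r)) else
        ⟨j.val + r, by omega⟩).val := congrArg Fin.val h
      have h2 : i = j := by
        apply Fin.ext
        split_ifs at h1 with h2 h3 h3
        · simpa using h1
        · simp only at h1; omega
        · simp only at h1; omega
        · simp only at h1; omega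
      rw [h2]
  have hb : Function.Bijective f := (Fintype.bijective_iff_injective_and_card f).2 ⟨hf, by
    rw [Fintype.card_sum, Fintype.card_fin, Fintype.card_fin]⟩
  exact ⟨Equiv.ofBijective f hb, fun i => rfl⟩

/-! ### The system -/

section

variable {K : Type u} [Field K]

/-- The scaled variables. -/
noncomputable def zR {g r : ℕ} (γ β : Fin g) (i : Fin r) (j : Fin (r + r)) :
    MvPolynomial (Tt g r) (Polynomial K) :=
  if h : i.val ≤ j.val ∧ j.val < i.val + r then
    C (Polynomial.X ^ ((j.val - i.val) ^ 2)) * X ((γ, β), (i, ⟨j.val - i.val, by omega⟩)) else 0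

theorem zR_deg {g r : ℕ} (γ β : Fin g) (i : Fin r) (j : Fin (r + r)) :
    (zR (K := K) γ β i j).totalDegree ≤ 1 := by
  unfold zR
  split_ifs
  · refine (totalDegree_mul _ _).trans ?_
    rw [totalDegree_C, totalDegree_X]
  · exact deg_zero

/-- The weights. -/
noncomputable def wR {r : ℕ} (ω : Fin r → K) (δ s : Fin r) : Polynomial K :=
  Polynomial.X ^ (δ.val ^ 2) * Polynomial.C (ω s)

/-- The matrix after the rescaling. -/
noncomputable def bm {g r : ℕ} (ω : Fin r → K) (t : Tt g r) (i i' : Fin r) :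
    MvPolynomial (Tt g r) (Polynomial K) :=
  (if h : i.val ≤ i'.val + t.2.1.val ∧ i'.val + t.2.1.val < i.val + r then
    C (Polynomial.X ^ ((i'.val - i.val) ^ 2 + (i.val - i'.val) ^ 2)) *
      X (t.1, (i, ⟨i'.val + t.2.1.val - i.val, by omega⟩)) else 0) +
    if i' = i then C (Polynomial.C (ω t.2.2)) else 0

theorem arith {i i' δ : ℕ} (h : i ≤ i' + δ) :
    2 * δ * i + (i' + δ - i) ^ 2 = δ ^ 2 + 2 * δ * i' + ((i' - i) ^ 2 + (i - i') ^ 2) := by
  rcases Nat.le_total i i' with h1 | h1
  · obtain ⟨a, rfl⟩ := Nat.exists_eq_add_of_le h1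
    have e1 : i + a + δ - i = a + δ := by omega
    have e2 : i + a - i = a := by omega
    have e3 : i - (i + a) = 0 := by omega
    rw [e1, e2, e3]
    ring
  · obtain ⟨a, rfl⟩ := Nat.exists_eq_add_of_le h1
    obtain ⟨b, rfl⟩ : ∃ b, δ = a + b := ⟨δ - a, by omega⟩
    have e1 : i' + (a + b) - (i' + a) = b := by omega
    have e2 : i' - (i' + a) = 0 := by omega
    have e3 : i' + a - i' = a := by omega
    rw [e1, e2, e3]
    ring

theorem entry_scale {g r : ℕ} (ω : Fin r → K) (E : Fin r → (Fin r ⊕ Fin r ≃ Fin (r + r)))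
    (hE : ∀ δ i, (E δ (Sum.inl i)).val = i.val + δ.val) (t : Tt g r) (i i' : Fin r) :
    C (Polynomial.X ^ (2 * t.2.1.val * i.val)) * (zR t.1.1 t.1.2 i (E t.2.1 (Sum.inl i')) +
      if i' = i then C (wR ω t.2.1 t.2.2) else 0) =
    C (Polynomial.X ^ (t.2.1.val ^ 2 + 2 * t.2.1.val * i'.val)) * bm ω t i i' := by
  obtain ⟨⟨γ, β⟩, δ, s⟩ := t
  simp only
  have h1 : C (Polynomial.X ^ (2 * δ.val * i.val)) *
      (zR γ β i (E δ (Sum.inl i')) : MvPolynomial (Tt g r) (Polynomial K)) =
      C (Polynomial.X ^ (δ.val ^ 2 + 2 * δ.val * i'.val)) *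
        (if h : i.val ≤ i'.val + δ.val ∧ i'.val + δ.val < i.val + r then
    C (Polynomial.X ^ ((i'.val - i.val) ^ 2 + (i.val - i'.val) ^ 2)) *
      X ((γ, β), (i, ⟨i'.val + δ.val - i.val, by omega⟩)) else 0) := by
    unfold zR
    by_cases h : i.val ≤ i'.val + δ.val ∧ i'.val + δ.val < i.val + r
    · have h' : i.val ≤ (E δ (Sum.inl i')).val ∧ (E δ (Sum.inl i')).val < i.val + r := by
        rw [hE]; exact h
      rw [dif_pos h, dif_pos h', ← mul_assoc, ← mul_assoc, ← map_mul, ← map_mul, ← pow_add,
        ← pow_add]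
      have e1 : (⟨(E δ (Sum.inl i')).val - i.val, by omega⟩ : Fin r) =
          ⟨i'.val + δ.val - i.val, by omega⟩ := Fin.ext (by simp only; rw [hE])
      rw [e1, hE, arith h.1]
    · have h' : ¬ (i.val ≤ (E δ (Sum.inl i')).val ∧ (E δ (Sum.inl i')).val < i.val + r) := by
        rw [hE]; exact h
      rw [dif_neg h, dif_neg h', mul_zero, mul_zero]
  have h2 : C (Polynomial.X ^ (2 * δ.val * i.val)) *
      ((if i' = i then C (wR ω δ s) else 0) : MvPolynomial (Tt g r) (Polynomial K)) =
      C (Polynomial.X ^ (δ.val ^ 2 + 2 * δ.val * i'.val)) *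
        (if i' = i then C (Polynomial.C (ω s)) else 0) := by
    split_ifs with h
    · rw [h, ← map_mul, ← map_mul]
      congr 1
      unfold wR
      ring
    · rw [mul_zero, mul_zero]
  unfold bm
  rw [mul_add, h1, h2, ← mul_add]

theorem qt_eq {g r : ℕ} (ω : Fin r → K) (E : Fin r → (Fin r ⊕ Fin r ≃ Fin (r + r)))
    (hE : ∀ δ i, (E δ (Sum.inl i)).val = i.val + δ.val) (t : Tt g r) :
    qt (K := Polynomial K) (fun γ β i j => zR γ β i j) E (wR ω) t =
      C (Polynomial.X ^ (r * t.2.1.val ^ 2)) * per (bm ω t) := by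
  have h1 := per_scale (fun i : Fin r => (C (Polynomial.X ^ (2 * t.2.1.val * i.val)) :
      MvPolynomial (Tt g r) (Polynomial K)))
    (fun i' : Fin r => C (Polynomial.X ^ (t.2.1.val ^ 2 + 2 * t.2.1.val * i'.val)))
    (fun i i' => (zR t.1.1 t.1.2 i (E t.2.1 (Sum.inl i')) +
      if i' = i then C (wR ω t.2.1 t.2.2) else 0)) (bm ω t) (entry_scale ω E hE t)
  have h2 : (∏ i : Fin r, C (Polynomial.X ^ (t.2.1.val ^ 2 + 2 * t.2.1.val * i.val)) :
      MvPolynomial (Tt g r) (Polynomial K)) =
      (∏ i : Fin r, C (Polynomial.X ^ (2 * t.2.1.val * i.val))) *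
        C (Polynomial.X ^ (r * t.2.1.val ^ 2)) := by
    have h3 : ∀ i : Fin r, (C (Polynomial.X ^ (t.2.1.val ^ 2 + 2 * t.2.1.val * i.val)) :
      MvPolynomial (Tt g r) (Polynomial K)) = C (Polynomial.X ^ (2 * t.2.1.val * i.val)) *
        C (Polynomial.X ^ (t.2.1.val ^ 2)) := by
      intro i
      rw [← map_mul, ← pow_add, add_comm]
    rw [prod_congr rfl fun i _ => h3 i, prod_mul_distrib, prod_const, card_univ,
      Fintype.card_fin, ← map_pow, ← pow_mul, mul_comm r]
  rw [h2, mul_assoc] at h1
  refine mul_left_cancel₀ ?_ h1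
  rw [prod_ne_zero_iff]
  intro i _
  rw [Ne, C_eq_zero]
  exact pow_ne_zero _ Polynomial.X_ne_zero

/-- The value at `ε = 0`. -/
theorem bm_zero {g r : ℕ} (ω : Fin r → K) (t : Tt g r) :
    map (ez K) (per (bm ω t)) = ∏ i, (X (t.1, (i, t.2.1)) + C (ω t.2.2)) := by
  rw [map_per (map (ez K)) (bm ω t), ← per_diag]
  congr 1
  funext i i'
  obtain ⟨c, δ, s⟩ := t
  unfold bm
  simp only
  by_cases h : i' = i
  · subst h
    rw [dif_pos ⟨by omega, by omega⟩, if_pos rfl, if_pos rfl, map_add, map_mul, map_C, map_C,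
      map_X]
    have e1 : ez K (Polynomial.X ^ ((i'.val - i'.val) ^ 2 + (i'.val - i'.val) ^ 2)) = 1 := by
      rw [Nat.sub_self, zero_pow two_ne_zero, add_zero, pow_zero, map_one]
    have e2 : ez K (Polynomial.C (ω s)) = ω s := Polynomial.eval_C
    have e3 : (⟨i'.val + δ.val - i'.val, by omega⟩ : Fin r) = δ := Fin.ext (by simp)
    rw [e1, e2, e3, C_1, one_mul]
  · rw [if_neg h, if_neg h, add_zero]
    split_ifs with h1
    · have e1 : ez K (Polynomial.X ^ ((i'.val - i.val) ^ 2 + (i.val - i'.val) ^ 2)) = 0 := by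
        rw [map_pow]
        have : ez K Polynomial.X = 0 := Polynomial.eval_X
        rw [this]
        apply zero_pow
        intro h2
        apply h
        apply Fin.ext
        have h3 : (i'.val - i.val) ^ 2 = 0 := by omega
        have h4 : (i.val - i'.val) ^ 2 = 0 := by omega
        have h5 := pow_eq_zero_iff two_ne_zero |>.1 h3
        have h6 := pow_eq_zero_iff two_ne_zero |>.1 h4
        omega
      rw [map_mul, map_C, e1, C_0, zero_mul]
    · rw [map_zero]

/-! ### Differentials -/

theorem snd_prod {ι : Type*} [DecidableEq ι] (s : Finset ι) (a b : ι → K) :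
    TrivSqZeroExt.fst (∏ i ∈ s, (TrivSqZeroExt.inl (a i) + TrivSqZeroExt.inr (b i) :
      DualNumber K)) = ∏ i ∈ s, a i ∧
    TrivSqZeroExt.snd (∏ i ∈ s, (TrivSqZeroExt.inl (a i) + TrivSqZeroExt.inr (b i) :
      DualNumber K)) = ∑ i ∈ s, b i * ∏ j ∈ s.erase i, a j := by
  induction s using Finset.induction_on with
  | empty => simp
  | insert i s hi ih =>
    obtain ⟨h1, h2⟩ := ih
    constructor
    · rw [prod_insert hi, prod_insert hi, TrivSqZeroExt.fst_mul, h1]
      simp
    · rw [prod_insert hi, TrivSqZeroExt.snd_mul, h1, h2, sum_insert hi, erase_insert hi]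
      have h3 : ∀ j ∈ s, b j * ∏ k ∈ (insert i s).erase j, a k =
          a i * (b j * ∏ k ∈ s.erase j, a k) := by
        intro j hj
        have hne : i ≠ j := fun h => hi (h ▸ hj)
        rw [erase_insert_of_ne hne, prod_insert (fun h => hi (mem_of_mem_erase h))]
        ring
      rw [sum_congr rfl h3, ← mul_sum]
      simp
      ring

theorem dl_prod {σ : Type} [Fintype σ] {r : ℕ} (p v : σ → K) (y : Fin r → σ) (ω : K) :
    dl p (∏ i, (X (y i) + C ω)) v =
      ∑ i, v (y i) * ∏ j ∈ univ.erase i, (p (y j) + ω) := by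
  rw [← snd_dn, map_prod]
  have h1 : ∀ i, dn p v (X (y i) + C ω) =
      TrivSqZeroExt.inl (p (y i) + ω) + TrivSqZeroExt.inr (v (y i)) := by
    intro i
    have h2 : dn p v (C ω) = TrivSqZeroExt.inl ω := (dn p v).commutes ω
    have h3 : dn p v (X (y i)) = TrivSqZeroExt.inl (p (y i)) + TrivSqZeroExt.inr (v (y i)) :=
      aeval_X _ _
    rw [map_add, h2, h3, TrivSqZeroExt.inl_add]
    ring
  rw [prod_congr rfl fun i _ => h1 i]
  exact (snd_prod univ _ _).2

/-- Interpolation. -/
theorem interp {r : ℕ} (x ω v : Fin r → K) (hx : Function.Injective x)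
    (hω : Function.Injective ω)
    (h : ∀ s, ∑ i, v i * ∏ j ∈ univ.erase i, (x j + ω s) = 0) : v = 0 := by
  classical
  let Q : Polynomial K := ∑ i, Polynomial.C (v i) *
    ∏ j ∈ univ.erase i, (Polynomial.X + Polynomial.C (x j))
  have hdeg : Q.degree < (univ.image ω).card := by
    rw [card_image_of_injective _ hω, card_univ, Fintype.card_fin]
    have h1 : ∀ i ∈ (univ : Finset (Fin r)), (Polynomial.C (v i) *
        ∏ j ∈ univ.erase i, (Polynomial.X + Polynomial.C (x j))).degree < (r : ℕ) := by
      intro i _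
      have hr : 0 < r := Fin.pos i
      have h2 : (Polynomial.C (v i) *
        ∏ j ∈ univ.erase i, (Polynomial.X + Polynomial.C (x j))).natDegree ≤ r - 1 := by
        refine (Polynomial.natDegree_C_mul_le _ _).trans ?_
        rw [Polynomial.natDegree_prod_of_monic _ _ fun j _ => Polynomial.monic_X_add_C _]
        simp
      refine (Polynomial.degree_le_natDegree).trans_lt ?_
      exact_mod_cast (by omega : _ < r)
    refine (Polynomial.degree_sum_le _ _).trans_lt ?_
    exact (Finset.sup_lt_iff (WithBot.bot_lt_coe r)).2 h1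
  have hQ : Q = 0 := by
    refine Polynomial.eq_zero_of_degree_lt_of_eval_finset_eq_zero _ hdeg ?_
    intro a ha
    obtain ⟨s, -, rfl⟩ := mem_image.1 ha
    rw [Polynomial.eval_finset_sum, ← h s]
    refine sum_congr rfl fun i _ => ?_
    rw [Polynomial.eval_mul, Polynomial.eval_C, Polynomial.eval_prod]
    congr 1
    refine prod_congr rfl fun j _ => ?_
    rw [Polynomial.eval_add, Polynomial.eval_X, Polynomial.eval_C, add_comm]
  funext i
  have h1 := congrArg (Polynomial.eval (-x i)) hQ
  rw [Polynomial.eval_zero, Polynomial.eval_finset_sum, sum_eq_single i] at h1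
  · rw [Polynomial.eval_mul, Polynomial.eval_C, Polynomial.eval_prod] at h1
    refine (mul_eq_zero.1 h1).resolve_right (prod_ne_zero_iff.2 fun j hj => ?_)
    rw [Polynomial.eval_add, Polynomial.eval_X, Polynomial.eval_C]
    intro h2
    apply (mem_erase.1 hj).1
    apply hx
    linear_combination h2
  · intro i' _ hne
    rw [Polynomial.eval_mul, Polynomial.eval_prod, prod_eq_zero (mem_erase.2 ⟨Ne.symm hne,
      mem_univ i⟩) (by rw [Polynomial.eval_add, Polynomial.eval_X, Polynomial.eval_C]; ring),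
      mul_zero]
  · intro h2; exact absurd (mem_univ _) h2

end

end Pool.Agent.V7H84.SL
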