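import Mathlib

/-!
# Coefficient of the product of all variables, and permanents

Copied (with changes of names only) from the files `Top`, `PerSum`, `Indep`, `TwoSided`, `Place` of
`Pool/Agent/V7H63/Perm` by helper63.
-/

set_option autoImplicit false
set_option linter.unusedSectionVars false

open MvPolynomial Finset

namespace Pool.Agent.V7H84.SL

universe u

/-- the exponent vector all of whose entries are one -/
noncomputable def ones (J : Type) [Fintype J] : J →₀ ℕ :=
  Finsupp.equivFunOnFinite.symm fun _ => 1

@[simp] lemma ones_apply (J : Type) [Fintype J] (j : J) : ones J j = 1 := rfl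

/-- the coefficient of the product of all variables -/
noncomputable def top (J : Type) [Fintype J] (S : Type u) [CommRing S] :
    MvPolynomial J S →ₗ[S] S :=
  lcoeff S (ones J)

variable {J K : Type} [Fintype J] [Fintype K] {S : Type u} [CommRing S]

lemma top_apply (p : MvPolynomial J S) : top J S p = coeff (ones J) p := rfl

lemma top_C_mul (a : S) (p : MvPolynomial J S) : top J S (C a * p) = a * top J S p := by
  rw [top_apply, coeff_C_mul, top_apply]

lemma top_mul_C (a : S) (p : MvPolynomial J S) : top J S (p * C a) = top J S p * a := by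
  rw [mul_comm, top_C_mul, mul_comm]

/-- Fubini -/
lemma top_sum (p : MvPolynomial (J ⊕ K) S) :
    top (J ⊕ K) S p = top K S (top J (MvPolynomial K S) (sumAlgEquiv S J K p)) := by
  classical
  induction p using MvPolynomial.induction_on' with
  | add p q hp hq => simp only [map_add, hp, hq]
  | monomial m a =>
    have h1 : sumAlgEquiv S J K (monomial m a) =
        monomial (Finsupp.sumFinsuppEquivProdFinsupp m).1
          (monomial (Finsupp.sumFinsuppEquivProdFinsupp m).2 a) := by
      rw [monomial_eq, monomial_eq (R := MvPolynomial K S), monomial_eq (R := S)]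
      rw [map_mul, sumAlgEquiv_C_inl, map_mul (C : MvPolynomial K S →+* _), mul_assoc]
      congr 1
      rw [Finsupp.prod_fintype _ _ (by intro i; simp), Finsupp.prod_fintype _ _ (by intro i; simp),
        Finsupp.prod_fintype _ _ (by intro i; simp), map_prod, Fintype.prod_sum_type, map_prod,
        mul_comm]
      congr 1
      · apply Finset.prod_congr rfl
        intro i _
        rw [map_pow, sumAlgEquiv_X_inr, map_pow]
        rfl
      · apply Finset.prod_congr rfl
        intro i _
        rw [map_pow, sumAlgEquiv_X_inl]
        rfl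
    rw [h1, top_apply, top_apply, top_apply, coeff_monomial, coeff_monomial]
    by_cases h : m = ones (J ⊕ K)
    · subst h
      rw [if_pos rfl, if_pos, coeff_monomial, if_pos]
      · ext i; rfl
      · ext i; rfl
    · rw [if_neg h]
      split_ifs with h2
      · rw [coeff_monomial, if_neg]
        intro h3
        apply h
        ext i
        rcases i with i | i
        · exact DFunLike.congr_fun h2 i
        · exact DFunLike.congr_fun h3 i
      · simp

section

variable {I J : Type} [Fintype I] [Fintype J] {S : Type u} [CommRing S]

/-- the exponent vector of the product of the variables which are hit by `p` -/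
noncomputable def expo (p : I → Option J) : J →₀ ℕ :=
  ∑ i, (p i).elim (0 : J →₀ ℕ) (fun j => Finsupp.single j 1)

lemma expo_apply [DecidableEq J] (p : I → Option J) (j : J) :
    expo p j = #{i | p i = some j} := by
  rw [expo, Finsupp.finset_sum_apply, Finset.card_filter]
  apply Finset.sum_congr rfl
  intro i _
  rcases h : p i with _ | j'
  · simp
  · simp [Finsupp.single_apply]

lemma top_prod_opt [DecidableEq J] (p : I → Option J) :
    top J S (∏ i, (p i).elim 1 X) =
      if ∀ j, #{i | p i = some j} = 1 then 1 else 0 := by
  have h1 : (∏ i, (p i).elim (1 : MvPolynomial J S) X) = monomial (expo p) 1 := by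
    rw [expo, monomial_sum_one]
    apply Finset.prod_congr rfl
    intro i _
    rcases p i with _ | j
    · rfl
    · rfl
  rw [h1, top_apply, coeff_monomial]
  congr 1
  rw [eq_iff_iff]
  constructor
  · intro h j
    rw [← expo_apply, h, ones_apply]
  · intro h
    ext j
    rw [expo_apply, h, ones_apply]

/-- A product of linear forms. -/
lemma top_prod_linear [DecidableEq I] [DecidableEq J] (A : I → J → S) :
    top J S (∏ i, ∑ j, C (A i j) * X j) = ∑ e : I ≃ J, ∏ i, A i (e i) := by
  rw [Finset.prod_univ_sum, map_sum, Fintype.piFinset_univ]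
  have h1 : ∀ p : I → J, top J S (∏ i, C (A i (p i)) * X (p i)) =
      if Function.Bijective p then ∏ i, A i (p i) else 0 := by
    intro p
    rw [Finset.prod_mul_distrib, ← map_prod, top_C_mul]
    have h2 := top_prod_opt (S := S) (fun i => some (p i))
    simp only [Option.elim_some, Option.some.injEq] at h2
    rw [h2]
    by_cases hp : Function.Bijective p
    · rw [if_pos hp, if_pos, mul_one]
      intro j
      rw [Function.bijective_iff_existsUnique] at hp
      exact (Fintype.existsUnique_iff_card_one _).1 (hp j)
    · rw [if_neg hp, if_neg, mul_zero]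
      intro h3
      apply hp
      rw [Function.bijective_iff_existsUnique]
      intro j
      rw [Fintype.existsUnique_iff_card_one]
      exact h3 j
  simp_rw [h1]
  rw [← Finset.sum_filter]
  symm
  apply Finset.sum_bij (fun (e : I ≃ J) _ => (e : I → J))
  · intro e _
    rw [Finset.mem_filter]
    exact ⟨Finset.mem_univ _, e.bijective⟩
  · intro e _ e' _ h
    exact DFunLike.coe_injective h
  · intro p hp
    rw [Finset.mem_filter] at hp
    exact ⟨Equiv.ofBijective p hp.2, Finset.mem_univ _, rfl⟩
  · intro e _
    rfl

end

section

variable {B V : Type} [Fintype B] [Fintype V] {S : Type u} [CommRing S]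

lemma mapDomain_sum_apply [DecidableEq B] (m : B → V →₀ ℕ) (b : B) (v : V) :
    (∑ b', Finsupp.mapDomain (fun v => (b', v)) (m b')) (b, v) = m b v := by
  rw [Finsupp.finsetSum_apply, Finset.sum_eq_single b]
  · have : (fun v : V => ((b, v) : B × V)) v = (b, v) := rfl
    rw [← this]
    exact Finsupp.mapDomain_apply (fun _ _ h => (Prod.mk.inj h).2) _ _
  · intro b' _ hb
    apply Finsupp.mapDomain_notin_range
    rintro ⟨w, hw⟩
    exact hb (Prod.mk.inj hw).1
  · intro h
    exact absurd (Finset.mem_univ _) h

lemma top_prod_rename [DecidableEq B] (P : B → MvPolynomial V S) :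
    top (B × V) S (∏ b, rename (fun v => (b, v)) (P b)) = ∏ b, top V S (P b) := by
  classical
  have h1 : ∀ b, rename (fun v => (b, v)) (P b) =
      ∑ m ∈ (P b).support, monomial (Finsupp.mapDomain (fun v => (b, v)) m) (coeff m (P b)) := by
    intro b
    conv_lhs => rw [(P b).as_sum]
    rw [map_sum]
    apply Finset.sum_congr rfl
    intro m _
    rw [rename_monomial]
  simp_rw [h1]
  rw [Finset.prod_univ_sum, map_sum]
  have h2 : ∀ m : B → V →₀ ℕ, top (B × V) S
      (∏ b, monomial (Finsupp.mapDomain (fun v => (b, v)) (m b)) (coeff (m b) (P b))) =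
      if ∀ b, m b = ones V then ∏ b, coeff (ones V) (P b) else 0 := by
    intro m
    have h3 : (∏ b, monomial (Finsupp.mapDomain (fun v => (b, v)) (m b)) (coeff (m b) (P b)) :
        MvPolynomial (B × V) S) =
        C (∏ b, coeff (m b) (P b)) *
          monomial (∑ b, Finsupp.mapDomain (fun v => (b, v)) (m b)) 1 := by
      rw [monomial_sum_one, map_prod, ← Finset.prod_mul_distrib]
      apply Finset.prod_congr rfl
      intro b _
      rw [C_mul_monomial, mul_one]
    rw [h3, top_C_mul, top_apply, coeff_monomial]
    by_cases h : ∀ b, m b = ones V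
    · rw [if_pos h, if_pos]
      · rw [mul_one]
        apply Finset.prod_congr rfl
        intro b _
        rw [h b]
      · ext ⟨b, v⟩
        rw [mapDomain_sum_apply, h b]
        rfl
    · rw [if_neg h, if_neg, mul_zero]
      intro h4
      apply h
      intro b
      ext v
      have h5 := DFunLike.congr_fun h4 (b, v)
      rw [mapDomain_sum_apply] at h5
      exact h5
  simp_rw [h2]
  by_cases h : ∀ b, coeff (ones V) (P b) ≠ 0
  · rw [Finset.sum_eq_single (fun _ => ones V)]
    · simp [top_apply]
    · intro m _ hm
      rw [if_neg]
      intro h3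
      exact hm (funext h3)
    · intro h3
      exfalso
      apply h3
      rw [Fintype.mem_piFinset]
      intro b
      rw [mem_support_iff]
      exact h b
  · push Not at h
    obtain ⟨b, hb⟩ := h
    have h3 : ∏ b, coeff (ones V) (P b) = 0 := Finset.prod_eq_zero (Finset.mem_univ b) hb
    rw [h3]
    simp only [ite_self, Finset.sum_const_zero]
    symm
    exact h3

end

/-- the permanent of a matrix with different index types -/
def per {I J : Type} [Fintype I] [DecidableEq I] [Fintype J] [DecidableEq J] {S : Type u}
    [CommRing S] (M : I → J → S) : S := ∑ e : I ≃ J, ∏ i, M i (e i)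

section

variable {S : Type u} [CommRing S]

lemma per_reindex {R C' R' C'' : Type} [Fintype R] [DecidableEq R] [Fintype R'] [DecidableEq R']
    [Fintype C'] [DecidableEq C'] [Fintype C''] [DecidableEq C'']
    (e : R ≃ R') (f : C' ≃ C'') (M : R' → C'' → S) :
    per (fun r c => M (e r) (f c)) = per M := by
  rw [per, per, ← Equiv.sum_comp (Equiv.equivCongr e f)]
  apply Finset.sum_congr rfl
  intro σ _
  rw [← Equiv.prod_comp e]
  apply Finset.prod_congr rfl
  intro i _
  simp [Equiv.equivCongr]

/-- a matrix, padded by an identity matrix -/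
def pad {I J P : Type} [DecidableEq P] (M : I → J → S) : I ⊕ P → J ⊕ P → S
  | Sum.inl i, Sum.inl j => M i j
  | Sum.inr p, Sum.inr p' => if p = p' then 1 else 0
  | Sum.inl _, Sum.inr _ => 0
  | Sum.inr _, Sum.inl _ => 0

lemma per_pad {I J P : Type} [Fintype I] [DecidableEq I] [Fintype J] [DecidableEq J]
    [Fintype P] [DecidableEq P] (M : I → J → S) :
    per (pad (P := P) M) = per M := by
  rw [per, ← top_prod_linear, top_sum, map_prod, Fintype.prod_sum_type]
  have h1 : ∀ i : I, sumAlgEquiv S J P (∑ j, C (pad (P := P) M (Sum.inl i) j) * X j) =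
      ∑ j, C (C (M i j)) * X j := by
    intro i
    rw [Fintype.sum_sum_type]
    simp only [map_add, map_sum, map_mul, sumAlgEquiv_C_inl, sumAlgEquiv_X_inl,
      sumAlgEquiv_X_inr, pad, map_zero, zero_mul, Finset.sum_const_zero, add_zero]
  have h2 : ∀ p : P, sumAlgEquiv S J P (∑ j, C (pad (P := P) M (Sum.inr p) j) * X j) =
      C (X p) := by
    intro p
    rw [Fintype.sum_sum_type]
    simp only [map_add, map_sum, map_mul, sumAlgEquiv_C_inl, sumAlgEquiv_X_inl,
      sumAlgEquiv_X_inr, pad, map_zero, zero_mul, Finset.sum_const_zero, zero_add]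
    rw [Finset.sum_eq_single p]
    · simp
    · intro p' _ hp'
      simp [hp'.symm]
    · intro h
      exact absurd (Finset.mem_univ _) h
  simp only [h1, h2]
  rw [← map_prod, top_mul_C, top_prod_linear]
  have h3 : (∑ e : I ≃ J, ∏ i, (C (M i (e i)) : MvPolynomial P S)) * ∏ p, X p =
      C (per M) * ∏ p, X p := by
    rw [per, map_sum]
    simp only [map_prod]
  rw [h3, top_C_mul]
  have h4 := top_prod_opt (S := S) (I := P) (J := P) (fun p => some p)
  simp only [Option.elim_some, Option.some.injEq] at h4
  rw [h4, if_pos, mul_one]
  intro j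
  simp [Finset.filter_eq']

end

end Pool.Agent.V7H84.SL
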